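import Pool.Agent.V1127.DetCirc

/-!
The double of a `C¹` diffeomorphism of `[0,1]` as a `C¹` map of the circle.
-/

set_option autoImplicit false

namespace Pool.Agent.V1127.Det

open Set WithLp Filter Topology MeasureTheory

/-- the interval -/
abbrev J : Type := Icc (0 : ℝ) 1

/-- a map of the interval as a function on the line -/
noncomputable def F0 (f : J → J) (x : ℝ) : ℝ := (f (projIcc 0 1 zero_le_one x) : ℝ)

theorem F0_mem (f : J → J) (x : ℝ) : F0 f x ∈ Icc (0 : ℝ) 1 := (f _).2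

theorem F0_coe (f : J → J) (y : J) : F0 f (y : ℝ) = (f y : ℝ) := by
  rw [F0, projIcc_val]

/-- the even periodic extension of the derivative -/
noncomputable def EE (f : J → J) (x : ℝ) : ℝ :=
  derivWithin (F0 f) (Icc 0 1) ‖((x : ℝ) : Circ)‖

/-- the extension of the map -/
noncomputable def FF (f : J → J) (x : ℝ) : ℝ := F0 f 0 + ∫ t in (0 : ℝ)..x, EE f t

theorem norm_mem (z : Circ) : ‖z‖ ∈ Icc (0 : ℝ) 1 := by
  refine ⟨norm_nonneg _, ?_⟩
  have h := AddCircle.norm_le_half_period (p := (2 : ℝ)) (x := z) two_ne_zero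
  rw [abs_of_pos (two_pos : (0 : ℝ) < 2)] at h
  linarith

theorem norm_coe {x : ℝ} (hx : x ∈ Icc (0 : ℝ) 1) : ‖((x : ℝ) : Circ)‖ = x := by
  rw [(AddCircle.norm_coe_eq_abs_iff (p := (2 : ℝ)) two_ne_zero).2, abs_of_nonneg hx.1]
  rw [abs_of_nonneg hx.1, abs_of_pos (two_pos : (0 : ℝ) < 2)]
  linarith [hx.2]

theorem EE_neg (f : J → J) (x : ℝ) : EE f (-x) = EE f x := by
  unfold EE
  rw [AddCircle.coe_neg, norm_neg]

theorem EE_periodic (f : J → J) : Function.Periodic (EE f) 2 := by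
  intro x
  unfold EE
  rw [AddCircle.coe_add, AddCircle.coe_period, add_zero]

section

variable {f : J → J}
  (hf : ContMDiff (modelWithCornersEuclideanHalfSpace 1) (modelWithCornersEuclideanHalfSpace 1) 1 f)

include hf

theorem F0_smooth : ContDiffOn ℝ 1 (F0 f) (Icc 0 1) := by
  haveI : Fact ((0 : ℝ) < 1) := ⟨one_pos⟩
  rw [← contMDiffOn_iff_contDiffOn]
  have h1 := (contMDiff_subtypeVal_Icc (x := (0 : ℝ)) (y := 1) (n := 1)).comp hf
  exact h1.comp_contMDiffOn contMDiffOn_projIcc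

theorem EE_continuous : Continuous (EE f) := by
  have h1 := (F0_smooth hf).continuousOn_derivWithin (uniqueDiffOn_Icc one_pos) le_rfl
  exact h1.comp_continuous (continuous_norm.comp (AddCircle.continuous_mk' (2 : ℝ)))
    (fun x => norm_mem _)

theorem FF_hasDeriv (x : ℝ) : HasDerivAt (FF f) (EE f x) x := by
  have h := intervalIntegral.integral_hasDerivAt_right
    ((EE_continuous hf).intervalIntegrable 0 x)
    ((EE_continuous hf).stronglyMeasurableAtFilter _ _) (EE_continuous hf).continuousAt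
  exact h.const_add _

theorem FF_smooth : ContDiff ℝ 1 (FF f) := by
  rw [contDiff_one_iff_deriv]
  refine ⟨fun x => (FF_hasDeriv hf x).differentiableAt, ?_⟩
  have h : deriv (FF f) = EE f := funext fun x => (FF_hasDeriv hf x).deriv
  rw [h]
  exact EE_continuous hf

theorem FF_eq {x : ℝ} (hx : x ∈ Icc (0 : ℝ) 1) : FF f x = F0 f x := by
  have h := intervalIntegral.integral_eq_sub_of_hasDerivAt_of_le (f := F0 f) (f' := EE f) hx.1
    ((F0_smooth hf).continuousOn.mono (Icc_subset_Icc_right hx.2)) (by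
      intro t ht
      have ht' : t ∈ Ioo (0 : ℝ) 1 := ⟨ht.1, lt_of_lt_of_le ht.2 hx.2⟩
      unfold EE
      rw [norm_coe (Ioo_subset_Icc_self ht')]
      have h1 := ((F0_smooth hf).differentiableOn one_ne_zero t
        (Ioo_subset_Icc_self ht')).hasDerivWithinAt
      exact h1.hasDerivAt (Icc_mem_nhds ht'.1 ht'.2))
    ((EE_continuous hf).intervalIntegrable 0 x)
  unfold FF
  rw [h]
  ring

omit hf in
theorem FF_neg (x : ℝ) : FF f (-x) = 2 * F0 f 0 - FF f x := by
  have h : ∫ t in (0 : ℝ)..(-x), EE f t = - ∫ t in (0 : ℝ)..x, EE f t := by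
    have h1 : ∫ t in (0 : ℝ)..x, EE f t = ∫ t in (0 : ℝ)..x, EE f (-t) := by
      congr 1
      funext t
      rw [EE_neg]
    rw [h1, intervalIntegral.integral_comp_neg, neg_zero, intervalIntegral.integral_symm]
  unfold FF
  rw [h]
  ring

theorem FF_add_two (x : ℝ) : FF f (x + 2) = FF f x + 2 * (F0 f 1 - F0 f 0) := by
  have hi : ∀ a b : ℝ, IntervalIntegrable (EE f) volume a b :=
    fun a b => (EE_continuous hf).intervalIntegrable a b
  have h1 : ∫ t in x..(x + 2), EE f t = ∫ t in (-1 : ℝ)..(-1 + 2), EE f t :=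
    (EE_periodic f).intervalIntegral_add_eq x (-1)
  have h2 : ∫ t in (-1 : ℝ)..(-1 + 2), EE f t = 2 * ∫ t in (0 : ℝ)..1, EE f t := by
    have e : (-1 + 2 : ℝ) = 1 := by norm_num
    rw [e, ← intervalIntegral.integral_add_adjacent_intervals (hi (-1) 0) (hi 0 1)]
    have h3 : ∫ t in (-1 : ℝ)..0, EE f t = ∫ t in (0 : ℝ)..1, EE f t := by
      have h4 : ∫ t in (0 : ℝ)..1, EE f t = ∫ t in (0 : ℝ)..1, EE f (-t) := by
        congr 1
        funext t
        rw [EE_neg]
      rw [h4, intervalIntegral.integral_comp_neg, neg_zero]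
    rw [h3]
    ring
  have h5 : ∫ t in (0 : ℝ)..1, EE f t = F0 f 1 - F0 f 0 := by
    have h6 := FF_eq hf (x := 1) ⟨zero_le_one, le_rfl⟩
    unfold FF at h6
    linarith
  have h7 : FF f (x + 2) - FF f x = ∫ t in x..(x + 2), EE f t := by
    unfold FF
    rw [← intervalIntegral.integral_add_adjacent_intervals (hi 0 x) (hi x (x + 2))]
    ring
  rw [h1, h2, h5] at h7
  linarith

theorem ends (hb : Function.Bijective f) :
    (F0 f 0 = 0 ∧ F0 f 1 = 1) ∨ (F0 f 0 = 1 ∧ F0 f 1 = 0) := by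
  have hc : Continuous f := hf.continuous
  have e0 : F0 f 0 = (f ⊥ : ℝ) := F0_coe f ⊥
  have e1 : F0 f 1 = (f ⊤ : ℝ) := F0_coe f ⊤
  rw [e0, e1]
  rcases hc.strictMono_of_inj_boundedOrder' hb.1 with h | h
  · left
    obtain ⟨x, hx⟩ := hb.2 ⊥
    obtain ⟨y, hy⟩ := hb.2 ⊤
    have h1 : f ⊥ = ⊥ := by
      have h3 : f ⊥ ≤ f x := h.monotone bot_le
      rw [hx] at h3
      exact le_bot_iff.1 h3
    have h2 : f ⊤ = ⊤ := by
      have h3 : f y ≤ f ⊤ := h.monotone le_top
      rw [hy] at h3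
      exact top_le_iff.1 h3
    rw [h1, h2]
    exact ⟨rfl, rfl⟩
  · right
    obtain ⟨x, hx⟩ := hb.2 ⊥
    obtain ⟨y, hy⟩ := hb.2 ⊤
    have h1 : f ⊥ = ⊤ := by
      have h3 : f y ≤ f ⊥ := h.antitone bot_le
      rw [hy] at h3
      exact top_le_iff.1 h3
    have h2 : f ⊤ = ⊥ := by
      have h3 : f ⊤ ≤ f x := h.antitone le_top
      rw [hx] at h3
      exact le_bot_iff.1 h3
    rw [h1, h2]
    exact ⟨rfl, rfl⟩

theorem coe_FF_neg (hb : Function.Bijective f) (x : ℝ) :
    ((FF f (-x) : ℝ) : Circ) = -((FF f x : ℝ) : Circ) := by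
  rw [FF_neg, AddCircle.coe_sub]
  have h : ((2 * F0 f 0 : ℝ) : Circ) = 0 := by
    rcases ends hf hb with h | h
    · rw [h.1, mul_zero]; rfl
    · rw [h.1, mul_one]; exact AddCircle.coe_period (2 : ℝ)
  rw [h, zero_sub]

theorem coe_FF_periodic (hb : Function.Bijective f) :
    Function.Periodic (fun x : ℝ => ((FF f x : ℝ) : Circ)) 2 := by
  intro x
  show ((FF f (x + 2) : ℝ) : Circ) = ((FF f x : ℝ) : Circ)
  rw [FF_add_two hf, AddCircle.coe_add]
  have h : ((2 * (F0 f 1 - F0 f 0) : ℝ) : Circ) = 0 := by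
    rcases ends hf hb with h | h
    · rw [h.1, h.2, sub_zero, mul_one]; exact AddCircle.coe_period (2 : ℝ)
    · rw [h.1, h.2, zero_sub, mul_neg, mul_one, AddCircle.coe_neg, AddCircle.coe_period, neg_zero]
  rw [h, add_zero]

end

/-- every point of the circle is plus or minus a point of the interval -/
theorem exists_pm (z : Circ) : ∃ y : J, z = (((y : ℝ)) : Circ) ∨ z = -(((y : ℝ)) : Circ) := by
  have h : z ∈ ((↑) : ℝ → Circ) '' Ico (-1) (-1 + 2) := by
    rw [AddCircle.coe_image_Ico_eq]; trivial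
  obtain ⟨x, hx, rfl⟩ := h
  rcases le_total 0 x with h0 | h0
  · exact ⟨⟨x, h0, by linarith [hx.2]⟩, Or.inl rfl⟩
  · refine ⟨⟨-x, by linarith, by linarith [hx.1]⟩, Or.inr ?_⟩
    show ((x : ℝ) : Circ) = -((-x : ℝ) : Circ)
    rw [AddCircle.coe_neg, neg_neg]

/-- maps of the interval which are `C¹` and bijective -/
structure Ok (f : J → J) : Prop where
  smooth : ContMDiff (modelWithCornersEuclideanHalfSpace 1) (modelWithCornersEuclideanHalfSpace 1)
    1 f
  bij : Function.Bijective f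

/-- the double -/
noncomputable def dbl {f : J → J} (h : Ok f) : Circ → Circ :=
  Function.Periodic.lift (coe_FF_periodic h.smooth h.bij)

theorem dbl_coe {f : J → J} (h : Ok f) (x : ℝ) : dbl h ((x : ℝ) : Circ) = ((FF f x : ℝ) : Circ) :=
  rfl

theorem dbl_pos {f : J → J} (h : Ok f) (y : J) :
    dbl h (((y : ℝ)) : Circ) = (((f y : ℝ)) : Circ) := by
  rw [dbl_coe, FF_eq h.smooth y.2, F0_coe]

theorem dbl_neg {f : J → J} (h : Ok f) (y : J) :
    dbl h (-(((y : ℝ)) : Circ)) = -(((f y : ℝ)) : Circ) := by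
  rw [← AddCircle.coe_neg, dbl_coe, coe_FF_neg h.smooth h.bij, FF_eq h.smooth y.2, F0_coe]

theorem dbl_smooth {f : J → J} (h : Ok f) :
    letI := circCS
    ContMDiff (modelWithCornersEuclideanHalfSpace 1) (modelWithCornersEuclideanHalfSpace 1) 1
      (dbl h) :=
  smooth_of_lift (FF_smooth h.smooth) _ (dbl_coe h)

theorem coe_inj {x y : J} (h : (((x : ℝ)) : Circ) = (((y : ℝ)) : Circ)) : x = y := by
  apply Subtype.ext
  rw [← norm_coe x.2, ← norm_coe y.2, h]

/-- the homomorphism -/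
noncomputable def dblHom {G : Type} [Group G] (ρ : G →* Equiv.Perm J) (h : ∀ g, Ok (ρ g)) :
    G →* Equiv.Perm Circ :=
  MonoidHom.toHomPerm
    { toFun := fun g => dbl (h g)
      map_one' := by
        funext z
        show dbl (h 1) z = z
        obtain ⟨y, rfl | rfl⟩ := exists_pm z
        · rw [dbl_pos, map_one]; rfl
        · rw [dbl_neg, map_one]; rfl
      map_mul' := by
        intro a b
        funext z
        show dbl (h (a * b)) z = dbl (h a) (dbl (h b) z)
        obtain ⟨y, rfl | rfl⟩ := exists_pm z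
        · rw [dbl_pos, dbl_pos, dbl_pos, map_mul]; rfl
        · rw [dbl_neg, dbl_neg, dbl_neg, map_mul]; rfl }

theorem dblHom_apply {G : Type} [Group G] (ρ : G →* Equiv.Perm J) (h : ∀ g, Ok (ρ g)) (g : G) :
    ⇑(dblHom ρ h g) = dbl (h g) := rfl

theorem dblHom_inj {G : Type} [Group G] (ρ : G →* Equiv.Perm J) (h : ∀ g, Ok (ρ g))
    (hρ : Function.Injective ρ) : Function.Injective (dblHom ρ h) := by
  intro a b hab
  apply hρ
  ext1 y
  apply coe_inj
  rw [← dbl_pos (h a), ← dbl_pos (h b), ← dblHom_apply, ← dblHom_apply, hab]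

/-- the circle is not homeomorphic to the interval -/
theorem not_homeo (e : J ≃ₜ Circ) : False := by
  let p : J := ⟨1 / 2, by norm_num, by norm_num⟩
  obtain ⟨a, ha⟩ := coe_surj (e p)
  have h1 : IsPreconnected ({((a : ℝ) : Circ)}ᶜ : Set Circ) := by
    have h2 : ({((a : ℝ) : Circ)}ᶜ : Set Circ) = ((↑) : ℝ → Circ) '' Ioo a (a + 2) :=
      ((AddCircle.openPartialHomeomorphCoe (2 : ℝ) a).image_source_eq_target).symm
    rw [h2]
    exact isPreconnected_Ioo.image _ (AddCircle.continuous_mk' (2 : ℝ)).continuousOn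
  have h3 : IsPreconnected ({p}ᶜ : Set J) := by
    have h4 : ({p}ᶜ : Set J) = e.symm '' {((a : ℝ) : Circ)}ᶜ := by
      rw [ha, Set.image_compl_eq e.symm.bijective, Set.image_singleton, e.symm_apply_apply]
    rw [h4]
    exact h1.image _ e.symm.continuous.continuousOn
  have h5 : IsPreconnected (((↑) : J → ℝ) '' ({p}ᶜ : Set J)) :=
    h3.image _ continuous_subtype_val.continuousOn
  have h6 := h5.ordConnected.out (x := 0) (y := 1)
    ⟨⟨0, by norm_num, by norm_num⟩, by
      intro h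
      have := congrArg Subtype.val h
      norm_num [p] at this, rfl⟩
    ⟨⟨1, by norm_num, by norm_num⟩, by
      intro h
      have := congrArg Subtype.val h
      norm_num [p] at this, rfl⟩
  obtain ⟨q, hq, hq2⟩ := h6 (show (1 / 2 : ℝ) ∈ Icc (0 : ℝ) 1 by constructor <;> norm_num)
  exact hq (Subtype.ext hq2)

end Pool.Agent.V1127.Det
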