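import Pool.Agent.V1127.CvTree
import Pool.Agent.H67R3.FSR.Formula

/-!
Subtrees of the Cayley tree of the free group of rank three, with edges of length `1/3`.
-/

set_option autoImplicit false

namespace Pool.Agent.V1127.Cv

open Pool.Agent.H472R3 Pool.Agent.H67R3.FSR Pool.Agent.H67R4.SR

/-- the free group of rank three -/
abbrev F3 : Type := FreeGroup (Fin 3)
/-- the free group of rank two -/
abbrev F2 : Type := FreeGroup (Fin 2)

/-- word length over three -/
noncomputable def ell3 : LenFn 3 :=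
  lenOf (w := fun _ => (1 / 3 : ℝ)) (fun _ => by norm_num) (MonoidHom.id F3)

/-- the Cayley tree of the free group of rank three with edges of length `1/3` -/
noncomputable def C3 : FTree 3 := ell3.tree

/-- the base point -/
noncomputable def oo : C3.T := ell3.base

theorem wl_third (g : F3) : wl (fun _ => (1 / 3 : ℝ)) g = g.norm / 3 := by
  unfold wl W FreeGroup.norm
  simp
  ring

theorem dist_oo (g h : F3) : dist (g • oo) (h • oo) = ((g⁻¹ * h).norm : ℝ) / 3 := by
  have h1 := ell3.dist_base g h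
  have h2 : ell3.L (g⁻¹ * h) = ((g⁻¹ * h).norm : ℝ) / 3 := wl_third _
  rw [h2] at h1
  exact h1

theorem dist_oo' (h : F3) : dist oo (h • oo) = (h.norm : ℝ) / 3 := by
  have := dist_oo 1 h
  rwa [one_smul, inv_one, one_mul] at this

theorem C3_len (g : F3) (hg : g ≠ 1) : 1 / 3 ≤ C3.len g := by
  have h1 : C3.len g = max 0 (ell3.L (g * g) - ell3.L g) := ell3.len_tree g
  have h2 : (1 / 3 : ℝ) ≤ ell3.L (g * g) - ell3.L g :=
    wl_sq (w := fun _ => (1 / 3 : ℝ)) (by norm_num) (fun _ => le_rfl) g hg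
  rw [h1]
  exact h2.trans (le_max_right _ _)

/-- parity of the length -/
def par : F3 →* Multiplicative (ZMod 2) := FreeGroup.lift fun _ => Multiplicative.ofAdd 1

theorem par_mk (L : List (Fin 3 × Bool)) :
    par (FreeGroup.mk L) = Multiplicative.ofAdd (L.length : ZMod 2) := by
  induction L with
  | nil => rfl
  | cons a l ih =>
    rw [mk_cons, map_mul, ih]
    have e : par (lt a) = Multiplicative.ofAdd 1 := by
      obtain ⟨i, s⟩ := a
      cases s
      · rw [lt_false, map_inv]
        simp [par]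
        decide
      · rw [lt_true]
        simp [par]
    rw [e, ← ofAdd_add, List.length_cons]
    congr 1
    push_cast
    ring

theorem par_norm (g : F3) : par g = Multiplicative.ofAdd ((g.norm : ℕ) : ZMod 2) := by
  have := par_mk g.toWord
  rwa [FreeGroup.mk_toWord] at this

theorem step (v : F3) (i : Fin 3) :
    (v * FreeGroup.of i).norm = v.norm + 1 ∨ (v * FreeGroup.of i).norm + 1 = v.norm := by
  have h1 := FreeGroup.norm_mul_le v (FreeGroup.of i)
  have h2 := FreeGroup.norm_mul_le (v * FreeGroup.of i) (FreeGroup.of i)⁻¹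
  rw [mul_inv_cancel_right, FreeGroup.norm_inv_eq] at h2
  rw [FreeGroup.norm_of] at h1 h2
  have h3 : (v * FreeGroup.of i).norm ≠ v.norm := by
    intro h
    have e1 := par_norm (v * FreeGroup.of i)
    rw [h, ← par_norm v, map_mul] at e1
    have e2 : par (FreeGroup.of i) = 1 := by
      have := mul_eq_left.1 e1
      exact this
    simp [par] at e2
  omega

/-- total exponent -/
def tot : F3 →* Multiplicative ℤ := FreeGroup.lift fun _ => Multiplicative.ofAdd 1

theorem between_ext {T : Type} [MetricSpace T] {a b p q z : T} (h1 : Btw a z b)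
    (h2 : dist p b = dist p a + dist a b) (h3 : dist q b = dist q a + dist a b)
    (h4 : Btw p z q) : z = a := by
  unfold Btw at h1 h4
  have t1 := dist_triangle p z b
  have t2 := dist_triangle q z b
  have t3 := dist_triangle p a q
  have e1 : dist a q = dist q a := dist_comm _ _
  have e2 : dist z q = dist q z := dist_comm _ _
  have h5 : dist a z ≤ 0 := by linarith
  exact (dist_le_zero.1 h5).symm

theorem unit_disj {u u' : F3} {i i' : Fin 3} {z : C3.T}
    (h1 : Btw (u • oo) z ((u * FreeGroup.of i) • oo)) (h2 : z ≠ u • oo)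
    (h3 : z ≠ (u * FreeGroup.of i) • oo)
    (h4 : Btw (u' • oo) z ((u' * FreeGroup.of i') • oo)) : u = u' ∧ i = i' := by
  set a := u • oo with ha
  set b := (u * FreeGroup.of i) • oo with hb
  set p := u' • oo with hp
  set q := (u' * FreeGroup.of i') • oo with hq
  have dab : dist a b = 1 / 3 := by
    rw [ha, hb, dist_oo, inv_mul_cancel_left, FreeGroup.norm_of]; norm_num
  have dpq : dist p q = 1 / 3 := by
    rw [hp, hq, dist_oo, inv_mul_cancel_left, FreeGroup.norm_of]; norm_num
  have dpa : dist p a = ((u'⁻¹ * u).norm : ℝ) / 3 := dist_oo _ _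
  have dpb : dist p b = ((u'⁻¹ * u * FreeGroup.of i).norm : ℝ) / 3 := by
    rw [hp, hb, dist_oo, mul_assoc]
  have dqa : dist q a = (((u' * FreeGroup.of i')⁻¹ * u).norm : ℝ) / 3 := dist_oo _ _
  have dqb : dist q b = (((u' * FreeGroup.of i')⁻¹ * u * FreeGroup.of i).norm : ℝ) / 3 := by
    rw [hq, hb, dist_oo, mul_assoc]
  rcases step (u'⁻¹ * u) i with s1 | s1 <;> rcases step ((u' * FreeGroup.of i')⁻¹ * u) i with s2 | s2
  · exfalso
    apply h2
    apply between_ext h1 _ _ h4
    · rw [dpb, dpa, s1, dab]; push_cast; ring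
    · rw [dqb, dqa, s2, dab]; push_cast; ring
  · -- plus, minus
    have hz := C3.isRTree.zeroHyperbolic a q b p
    have e0 : dist a b + dist q p = 2 / 3 := by rw [dab, dist_comm q p, dpq]; norm_num
    have e1 : dist a p = ((u'⁻¹ * u).norm : ℝ) / 3 := by rw [dist_comm, dpa]
    have e2 : dist a q = (((u' * FreeGroup.of i')⁻¹ * u).norm : ℝ) / 3 := by rw [dist_comm, dqa]
    have e3 : dist b p = ((u'⁻¹ * u).norm : ℝ) / 3 + 1 / 3 := by
      rw [dist_comm, dpb, s1]; push_cast; ring
    have e4 : dist b q = (((u' * FreeGroup.of i')⁻¹ * u).norm : ℝ) / 3 - 1 / 3 := by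
      rw [dist_comm, dqb, ← s2]; push_cast; ring
    rw [e0, dist_comm q b, e1, e2, e3, e4] at hz
    have hle : ((u'⁻¹ * u).norm : ℝ) + ((u' * FreeGroup.of i')⁻¹ * u).norm ≤ 1 := by
      rcases max_cases (2 / 3 : ℝ) (((u'⁻¹ * u).norm : ℝ) / 3 +
        ((((u' * FreeGroup.of i')⁻¹ * u).norm : ℝ) / 3 - 1 / 3)) with hm | hm
      · rw [hm.1] at hz; linarith
      · rw [hm.1] at hz; linarith
    have hle' : (u'⁻¹ * u).norm + ((u' * FreeGroup.of i')⁻¹ * u).norm ≤ 1 := by exact_mod_cast hle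
    have z1 : (u'⁻¹ * u).norm = 0 := by omega
    have z2 : ((u' * FreeGroup.of i')⁻¹ * u * FreeGroup.of i).norm = 0 := by omega
    rw [FreeGroup.norm_eq_zero] at z1 z2
    have hu : u = u' := (inv_mul_eq_one.1 z1).symm
    refine ⟨hu, ?_⟩
    rw [hu, mul_inv_rev, mul_assoc, mul_assoc, inv_mul_cancel_left, inv_mul_eq_one] at z2
    exact (FreeGroup.of_injective z2).symm
  · -- minus, plus
    exfalso
    have hz := C3.isRTree.zeroHyperbolic a p b q
    have e0 : dist a b + dist p q = 2 / 3 := by rw [dab, dpq]; norm_num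
    have e1 : dist a p = ((u'⁻¹ * u).norm : ℝ) / 3 := by rw [dist_comm, dpa]
    have e2 : dist a q = (((u' * FreeGroup.of i')⁻¹ * u).norm : ℝ) / 3 := by rw [dist_comm, dqa]
    have e3 : dist b p = ((u'⁻¹ * u).norm : ℝ) / 3 - 1 / 3 := by
      rw [dist_comm, dpb, ← s1]; push_cast; ring
    have e4 : dist b q = (((u' * FreeGroup.of i')⁻¹ * u).norm : ℝ) / 3 + 1 / 3 := by
      rw [dist_comm, dqb, s2]; push_cast; ring
    rw [e0, dist_comm p b, e1, e2, e3, e4] at hz
    have hle : ((u'⁻¹ * u).norm : ℝ) + ((u' * FreeGroup.of i')⁻¹ * u).norm ≤ 1 := by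
      rcases max_cases (2 / 3 : ℝ) ((((u' * FreeGroup.of i')⁻¹ * u).norm : ℝ) / 3 +
        (((u'⁻¹ * u).norm : ℝ) / 3 - 1 / 3)) with hm | hm
      · rw [hm.1] at hz; linarith
      · rw [hm.1] at hz; linarith
    have hle' : (u'⁻¹ * u).norm + ((u' * FreeGroup.of i')⁻¹ * u).norm ≤ 1 := by exact_mod_cast hle
    have z1 : ((u' * FreeGroup.of i')⁻¹ * u).norm = 0 := by omega
    have z2 : (u'⁻¹ * u * FreeGroup.of i).norm = 0 := by omega
    rw [FreeGroup.norm_eq_zero] at z1 z2
    have hu : u' * FreeGroup.of i' = u := inv_mul_eq_one.1 z1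
    rw [← hu, inv_mul_cancel_left] at z2
    have h5 := congrArg tot z2
    simp [tot] at h5
    exact absurd h5 (by decide)
  · exfalso
    apply h3
    apply between_ext h1.symm _ _ h4
    · rw [dist_comm b a, dpb, dpa, ← s1, dab]; push_cast; ring
    · rw [dist_comm b a, dqb, dqa, ← s2, dab]; push_cast; ring

section sub

variable (η : F2 →* F3) (hη : Function.Injective η) (u : Fin 3 → F3)

/-- a point has a translate on one of the three edges -/
def Cov (z : C3.T) : Prop :=
  ∃ (g : F2) (j : Fin 3), Btw (u j • oo) (η g • z) ((u j * FreeGroup.of j) • oo)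

/-- a covered segment -/
def CvS (a b : C3.T) : Prop := ∀ z, Btw a z b → Cov η u z

variable {η u}

theorem cov_smul {z : C3.T} (g : F2) (h : Cov η u (η g • z)) : Cov η u z := by
  obtain ⟨k, j, h⟩ := h
  refine ⟨k * g, j, ?_⟩
  rw [map_mul, mul_smul]
  exact h

theorem CvS.symm {a b : C3.T} (h : CvS η u a b) : CvS η u b a := fun z hz => h z hz.symm

theorem CvS.trans {a b c : C3.T} (h : CvS η u a b) (h' : CvS η u b c) : CvS η u a c := by
  intro z hz
  rcases tripod C3.isRTree (b := b) hz with h1 | h1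
  · exact h z h1
  · exact h' z h1

theorem CvS.smul {a b : C3.T} (g : F2) (h : CvS η u a b) : CvS η u (η g • a) (η g • b) := by
  intro z hz
  apply cov_smul g⁻¹
  apply h
  rw [map_inv, ← btw_smul C3 (η g), smul_inv_smul]
  exact hz

theorem CvS.edge (j : Fin 3) : CvS η u (u j • oo) ((u j * FreeGroup.of j) • oo) := by
  intro z hz
  refine ⟨1, j, ?_⟩
  rw [map_one, one_smul]
  exact hz

theorem CvS.all (hgen : ∀ i : Fin 2, CvS η u oo (η (FreeGroup.of i) • oo)) (w : F2) :
    CvS η u oo (η w • oo) := by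
  refine FreeGroup.induction_on w ?_ ?_ ?_ ?_
  · rw [map_one, one_smul]
    intro z hz
    apply hgen 0
    unfold Btw at hz ⊢
    rw [dist_self, dist_comm z] at hz
    have h1 : dist oo z = 0 := by linarith [dist_nonneg (x := oo) (y := z)]
    have h2 : oo = z := dist_eq_zero.1 h1
    rw [← h2, dist_self, zero_add]
  · exact fun i => hgen i
  · intro i _
    have h1 := ((hgen i).smul (FreeGroup.of i)⁻¹).symm
    rw [map_inv, inv_smul_smul] at h1
    rw [map_inv]
    exact h1
  · intro a b iha ihb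
    apply iha.trans
    have h1 := ihb.smul a
    rw [← mul_smul, ← map_mul] at h1
    exact h1

theorem CvS.span (hgen : ∀ i : Fin 2, CvS η u oo (η (FreeGroup.of i) • oo)) {z : C3.T}
    (hz : z ∈ Span C3 η oo) : Cov η u z := by
  obtain ⟨g, h, hz⟩ := hz
  have h1 := (CvS.all hgen (g⁻¹ * h)).smul g
  rw [← mul_smul, ← map_mul, mul_inv_cancel_left] at h1
  exact h1 z hz

variable (η u)

include hη in
theorem covolume_one (hgen : ∀ i : Fin 2, CvS η u oo (η (FreeGroup.of i) • oo))
    (hx : ∀ j, u j • oo ∈ Span C3 η oo) (hy : ∀ j, (u j * FreeGroup.of j) • oo ∈ Span C3 η oo) :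
    HasCovolume (restr C3 η oo) 1 := by
  have hdist : ∀ j, dist (u j • oo) ((u j * FreeGroup.of j) • oo) = 1 / 3 := by
    intro j
    rw [dist_oo, inv_mul_cancel_left, FreeGroup.norm_of]; norm_num
  refine ⟨3, fun j => ⟨u j • oo, hx j⟩, fun j => ⟨(u j * FreeGroup.of j) • oo, hy j⟩,
    ⟨?_, ?_, ?_⟩, ?_⟩
  · intro i h
    have h1 : u i • oo = (u i * FreeGroup.of i) • oo := congrArg Subtype.val h
    have h2 := hdist i
    rw [← h1, dist_self] at h2
    norm_num at h2
  · rintro ⟨z, hz⟩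
    obtain ⟨g, j, h⟩ := CvS.span hgen hz
    exact ⟨g, j, h⟩
  · rintro i j g ⟨z, hz⟩ h1 h2 h3 h4
    have g1 : Btw (u i • oo) z ((u i * FreeGroup.of i) • oo) := h1
    have g2 : z ≠ u i • oo := fun h => h2 (Subtype.ext h)
    have g3 : z ≠ (u i * FreeGroup.of i) • oo := fun h => h3 (Subtype.ext h)
    have g4 : Btw (u j • oo) (η g • z) ((u j * FreeGroup.of j) • oo) := h4
    rw [← btw_smul C3 (η g)⁻¹, inv_smul_smul, ← mul_smul, ← mul_smul, ← mul_assoc] at g4
    obtain ⟨k1, k2⟩ := unit_disj g1 g2 g3 g4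
    subst k2
    refine ⟨?_, rfl⟩
    have k3 : (η g)⁻¹ = 1 := (mul_eq_right.1 k1.symm)
    exact (map_eq_one_iff η hη).1 (inv_eq_one.1 k3)
  · show ∑ j, dist (u j • oo) ((u j * FreeGroup.of j) • oo) = 1
    rw [Fin.sum_univ_three, hdist, hdist, hdist]
    norm_num

include hη in
theorem inCV (h0 : η (FreeGroup.of 0) = FreeGroup.of 0) : (restr C3 η oo).InCV := by
  have hne : ∀ g, g ≠ 1 → η g ≠ 1 := fun g hg h => hg ((map_eq_one_iff η hη).1 h)
  have hn : ∀ n : ℕ, ((FreeGroup.of (0 : Fin 3)) ^ n).norm = n := by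
    intro n
    rw [FreeGroup.norm_of_pow]
  have hd : ∀ n : ℕ, dist oo (η (FreeGroup.of 0 ^ n) • oo) = n / 3 := by
    intro n
    rw [map_pow, h0, dist_oo', hn]
  refine ⟨restr_free _ _ _ fun g hg => lt_of_lt_of_le (by norm_num) (C3_len _ (hne g hg)), ?_,
    restr_discrete _ _ _ (by norm_num : (0 : ℝ) < 1 / 3) fun g hg => C3_len _ (hne g hg)⟩
  apply minimal_of (restr C3 η oo) ⟨oo, base_mem' C3 η oo⟩ (FreeGroup.of 0)
  · have h1 := hd 1
    rw [pow_one] at h1
    show 0 < dist oo (η (FreeGroup.of 0) • oo)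
    rw [h1]
    norm_num
  · intro n
    show dist oo (η (FreeGroup.of 0 ^ n) • oo) = n * dist oo (η (FreeGroup.of 0) • oo)
    have h1 := hd 1
    rw [pow_one] at h1
    rw [hd, h1]
    push_cast
    ring
  · rintro ⟨z, a, b, h⟩
    exact ⟨a, b, h⟩

end sub

end Pool.Agent.V1127.Cv
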