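import Pool.Agent.V1127.CvPrim

/-!
Two points of Outer space of rank two with the same lengths on the positive words.
-/

set_option autoImplicit false

namespace Pool.Agent.V1127.Cv

open Pool.Agent.H67R3 Pool.Agent.H472R3 Pool.Agent.H67R3.FSR Pool.Agent.H67R4.SR

/-- generators of the free group of rank three -/
def gA : F3 := FreeGroup.of 0
def gB : F3 := FreeGroup.of 1
def gD : F3 := FreeGroup.of 2

/-- the barbell -/
def etaA : F2 →* F3 := FreeGroup.lift ![gA, gD * gB * gD⁻¹]

/-- the rose -/
def etaB : F2 →* F3 := FreeGroup.lift ![gA, gA * gB * gD]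

theorem etaA_x : etaA gx = gA := by unfold etaA gx; rw [FreeGroup.lift_apply_of]; rfl
theorem etaA_y : etaA gy = gD * gB * gD⁻¹ := by unfold etaA gy; rw [FreeGroup.lift_apply_of]; rfl
theorem etaB_x : etaB gx = gA := by unfold etaB gx; rw [FreeGroup.lift_apply_of]; rfl
theorem etaB_y : etaB gy = gA * gB * gD := by unfold etaB gy; rw [FreeGroup.lift_apply_of]; rfl

theorem etaA_inj : Function.Injective etaA := by
  let r : F3 →* F2 := FreeGroup.lift ![gx, gy, 1]
  have h : r.comp etaA = MonoidHom.id _ := by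
    apply ext2
    · rw [MonoidHom.comp_apply, etaA_x]
      simp [r, gA]
    · rw [MonoidHom.comp_apply, etaA_y]
      simp [r, gB, gD]
  intro a b hab
  have h1 := DFunLike.congr_fun h a
  have h2 := DFunLike.congr_fun h b
  rw [MonoidHom.comp_apply, MonoidHom.id_apply] at h1 h2
  rw [← h1, ← h2, hab]

theorem etaB_inj : Function.Injective etaB := by
  let r : F3 →* F2 := FreeGroup.lift ![gx, gx⁻¹ * gy, 1]
  have h : r.comp etaB = MonoidHom.id _ := by
    apply ext2
    · rw [MonoidHom.comp_apply, etaB_x]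
      simp [r, gA]
    · rw [MonoidHom.comp_apply, etaB_y]
      simp [r, gA, gB, gD]
  intro a b hab
  have h1 := DFunLike.congr_fun h a
  have h2 := DFunLike.congr_fun h b
  rw [MonoidHom.comp_apply, MonoidHom.id_apply] at h1 h2
  rw [← h1, ← h2, hab]

/-- initial vertices of the edges -/
def uA : Fin 3 → F3 := ![1, gD, 1]
def uB : Fin 3 → F3 := ![1, 1, gB]

theorem btw_oo {a b : F3} (h : a.norm + (a⁻¹ * b).norm = b.norm) :
    Btw oo (a • oo) (b • oo) := by
  unfold Btw
  rw [dist_oo', dist_oo', dist_oo, ← h]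
  push_cast
  ring

theorem genA : ∀ i : Fin 2, CvS etaA uA oo (etaA (FreeGroup.of i) • oo) := by
  have e0 : CvS etaA uA oo (gA • oo) := by
    have := CvS.edge (η := etaA) (u := uA) 0
    have e : uA 0 = 1 := rfl
    rw [e, one_smul, one_mul] at this
    exact this
  have e1 : CvS etaA uA (gD • oo) ((gD * gB) • oo) := by
    have := CvS.edge (η := etaA) (u := uA) 1
    exact this
  have e2 : CvS etaA uA oo (gD • oo) := by
    have := CvS.edge (η := etaA) (u := uA) 2
    have e : uA 2 = 1 := rfl
    rw [e, one_smul, one_mul] at this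
    exact this
  intro i
  have hi : i = 0 ∨ i = 1 := by omega
  rcases hi with rfl | rfl
  · have : etaA (FreeGroup.of 0) = gA := etaA_x
    rw [this]
    exact e0
  · have : etaA (FreeGroup.of 1) = gD * gB * gD⁻¹ := etaA_y
    rw [this]
    apply (e2.trans e1).trans
    have h3 := (e2.smul gy).symm
    rw [etaA_y, ← mul_smul] at h3
    rw [inv_mul_cancel_right] at h3
    exact h3

theorem genB : ∀ i : Fin 2, CvS etaB uB oo (etaB (FreeGroup.of i) • oo) := by
  have e0 : CvS etaB uB oo (gA • oo) := by
    have := CvS.edge (η := etaB) (u := uB) 0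
    have e : uB 0 = 1 := rfl
    rw [e, one_smul, one_mul] at this
    exact this
  have e1 : CvS etaB uB oo (gB • oo) := by
    have := CvS.edge (η := etaB) (u := uB) 1
    have e : uB 1 = 1 := rfl
    rw [e, one_smul, one_mul] at this
    exact this
  have e2 : CvS etaB uB (gB • oo) ((gB * gD) • oo) := by
    have := CvS.edge (η := etaB) (u := uB) 2
    exact this
  intro i
  have hi : i = 0 ∨ i = 1 := by omega
  rcases hi with rfl | rfl
  · have : etaB (FreeGroup.of 0) = gA := etaB_x
    rw [this]
    exact e0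
  · have : etaB (FreeGroup.of 1) = gA * gB * gD := etaB_y
    rw [this]
    apply e0.trans
    have h3 := (e1.trans e2).smul gx
    rw [etaB_x, ← mul_smul, ← mul_assoc] at h3
    exact h3

theorem memA (j : Fin 3) : uA j • oo ∈ Span C3 etaA oo ∧
    (uA j * FreeGroup.of j) • oo ∈ Span C3 etaA oo := by
  have hb : (oo : C3.T) ∈ Span C3 etaA oo := base_mem' _ _ _
  have hx : gA • oo ∈ Span C3 etaA oo := by
    have := base_mem C3 etaA oo gx
    rwa [etaA_x] at this
  have hD : gD • oo ∈ Span C3 etaA oo := by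
    refine ⟨1, gy, ?_⟩
    rw [map_one, one_smul, etaA_y]
    exact btw_oo (by decide)
  have hDB : (gD * gB) • oo ∈ Span C3 etaA oo := by
    refine ⟨1, gy, ?_⟩
    rw [map_one, one_smul, etaA_y]
    exact btw_oo (by decide)
  have hj : j = 0 ∨ j = 1 ∨ j = 2 := by omega
  rcases hj with rfl | rfl | rfl
  · have e : uA 0 = 1 := rfl
    rw [e, one_smul, one_mul]
    exact ⟨hb, hx⟩
  · exact ⟨hD, hDB⟩
  · have e : uA 2 = 1 := rfl
    rw [e, one_smul, one_mul]
    exact ⟨hb, hD⟩

theorem memB (j : Fin 3) : uB j • oo ∈ Span C3 etaB oo ∧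
    (uB j * FreeGroup.of j) • oo ∈ Span C3 etaB oo := by
  have hb : (oo : C3.T) ∈ Span C3 etaB oo := base_mem' _ _ _
  have hx : gA • oo ∈ Span C3 etaB oo := by
    have := base_mem C3 etaB oo gx
    rwa [etaB_x] at this
  have hB : gB • oo ∈ Span C3 etaB oo := by
    refine ⟨1, gx⁻¹ * gy, ?_⟩
    rw [map_one, one_smul, map_mul, map_inv, etaB_x, etaB_y]
    exact btw_oo (by decide)
  have hBD : (gB * gD) • oo ∈ Span C3 etaB oo := by
    refine ⟨1, gx⁻¹ * gy, ?_⟩
    rw [map_one, one_smul, map_mul, map_inv, etaB_x, etaB_y]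
    exact btw_oo (by decide)
  have hj : j = 0 ∨ j = 1 ∨ j = 2 := by omega
  rcases hj with rfl | rfl | rfl
  · have e : uB 0 = 1 := rfl
    rw [e, one_smul, one_mul]
    exact ⟨hb, hx⟩
  · have e : uB 1 = 1 := rfl
    rw [e, one_smul, one_mul]
    exact ⟨hb, hB⟩
  · exact ⟨hB, hBD⟩

/-- the blocks -/
def blkA : Bool → List (Lt 3)
  | false => [(0, true)]
  | true => [(0, true), (2, true), (1, true), (2, false)]

def blkB : Bool → List (Lt 3)
  | false => [(0, true)]
  | true => [(0, true), (0, true), (1, true), (2, true)]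

theorem exists_blk {p : F2} (hp : p ∈ PP) : ∃ bs : List Bool,
    etaA p = FreeGroup.mk (bs.flatMap blkA) ∧ etaB p = FreeGroup.mk (bs.flatMap blkB) := by
  induction hp using Submonoid.closure_induction with
  | mem z hz =>
    rcases hz with rfl | rfl
    · refine ⟨[false], ?_, ?_⟩
      · rw [etaA_x]; rfl
      · rw [etaB_x]; rfl
    · refine ⟨[true], ?_, ?_⟩
      · rw [map_mul, etaA_x, etaA_y]; decide
      · rw [map_mul, etaB_x, etaB_y]; decide
  | one => exact ⟨[], by rw [map_one]; rfl, by rw [map_one]; rfl⟩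
  | mul a b _ _ iha ihb =>
    obtain ⟨l, h1, h2⟩ := iha
    obtain ⟨l', h3, h4⟩ := ihb
    refine ⟨l ++ l', ?_, ?_⟩
    · rw [map_mul, h1, h3, List.flatMap_append, FreeGroup.mul_mk]
    · rw [map_mul, h2, h4, List.flatMap_append, FreeGroup.mul_mk]

theorem redA : ∀ (bs : List Bool) (a : Lt 3), (a = (0, true) ∨ a = (2, false)) →
    FreeGroup.IsReduced (a :: bs.flatMap blkA) := by
  intro bs
  induction bs with
  | nil =>
    intro a _
    simp [FreeGroup.IsReduced]
  | cons b bs ih =>
    intro a ha
    have h1 := ih (0, true) (Or.inl rfl)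
    have h2 := ih (2, false) (Or.inr rfl)
    unfold FreeGroup.IsReduced at h1 h2 ⊢
    cases b
    · rw [List.flatMap_cons]
      show List.IsChain _ (a :: (0, true) :: bs.flatMap blkA)
      rw [List.isChain_cons_cons]
      refine ⟨?_, h1⟩
      rcases ha with rfl | rfl <;> decide
    · rw [List.flatMap_cons]
      show List.IsChain _ (a :: (0, true) :: (2, true) :: (1, true) :: (2, false) ::
        bs.flatMap blkA)
      rw [List.isChain_cons_cons, List.isChain_cons_cons, List.isChain_cons_cons,
        List.isChain_cons_cons]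
      refine ⟨?_, by decide, by decide, by decide, h2⟩
      rcases ha with rfl | rfl <;> decide

theorem redB : ∀ (bs : List Bool) (a : Lt 3), a.2 = true →
    FreeGroup.IsReduced (a :: bs.flatMap blkB) := by
  intro bs
  induction bs with
  | nil =>
    intro a _
    simp [FreeGroup.IsReduced]
  | cons b bs ih =>
    intro a ha
    have h1 := ih (0, true) rfl
    have h2 := ih (2, true) rfl
    unfold FreeGroup.IsReduced at h1 h2 ⊢
    cases b
    · rw [List.flatMap_cons]
      show List.IsChain _ (a :: (0, true) :: bs.flatMap blkB)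
      rw [List.isChain_cons_cons]
      exact ⟨fun _ => ha, h1⟩
    · rw [List.flatMap_cons]
      show List.IsChain _ (a :: (0, true) :: (0, true) :: (1, true) :: (2, true) ::
        bs.flatMap blkB)
      rw [List.isChain_cons_cons, List.isChain_cons_cons, List.isChain_cons_cons,
        List.isChain_cons_cons]
      exact ⟨fun _ => ha, fun _ => rfl, fun _ => rfl, fun _ => rfl, h2⟩

theorem len_blk : ∀ bs : List Bool, (bs.flatMap blkA).length = (bs.flatMap blkB).length := by
  intro bs
  induction bs with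
  | nil => rfl
  | cons b bs ih =>
    rw [List.flatMap_cons, List.flatMap_cons, List.length_append, List.length_append, ih]
    cases b <;> rfl

theorem C3_len_rep {g : F3} {L : List (Lt 3)} (h : Rep g L) : C3.len g = L.length / 3 := by
  have h1 : C3.len g = W (fun _ => (1 / 3 : ℝ)) L :=
    lenOf_len (w := fun _ => (1 / 3 : ℝ)) (fun _ => by norm_num) (MonoidHom.id F3) h
  rw [h1]
  unfold W
  simp
  ring

theorem agree {p : F2} (hp : p ∈ PP) : C3.len (etaA p) = C3.len (etaB p) := by
  obtain ⟨bs, h1, h2⟩ := exists_blk hp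
  rcases eq_or_ne bs [] with rfl | hne
  · rw [h1, h2]; rfl
  · have tail : ∀ {a : Lt 3} {l : List (Lt 3)}, FreeGroup.IsReduced (a :: l) →
        FreeGroup.IsReduced l := by
      intro a l h
      unfold FreeGroup.IsReduced at h ⊢
      exact h.tail
    have neA : bs.flatMap blkA ≠ [] := by
      obtain ⟨b, l, rfl⟩ := List.exists_cons_of_ne_nil hne
      cases b <;> simp [blkA]
    have neB : bs.flatMap blkB ≠ [] := by
      obtain ⟨b, l, rfl⟩ := List.exists_cons_of_ne_nil hne
      cases b <;> simp [blkB]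
    have rA : Rep (etaA p) (bs.flatMap blkA) := by
      refine ⟨neA, ?_, by rw [h1]⟩
      rw [← List.flatMap_append]
      exact tail (redA (bs ++ bs) (0, true) (Or.inl rfl))
    have rB : Rep (etaB p) (bs.flatMap blkB) := by
      refine ⟨neB, ?_, by rw [h2]⟩
      rw [← List.flatMap_append]
      exact tail (redB (bs ++ bs) (0, true) rfl)
    rw [C3_len_rep rA, C3_len_rep rB, len_blk]

theorem len_inv {N : ℕ} (A : FTree N) (g : FreeGroup (Fin N)) : A.len g⁻¹ = A.len g := by
  unfold FTree.len
  congr 1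
  funext x
  rw [← A.isometric g, smul_inv_smul, dist_comm]

theorem len_conj {N : ℕ} (A : FTree N) {g h : FreeGroup (Fin N)} (hgh : IsConj g h) :
    A.len g = A.len h := by
  obtain ⟨k, rfl⟩ := isConj_iff.1 hgh
  unfold FTree.len
  refine (Equiv.iInf_congr (MulAction.toPerm k⁻¹) fun x => ?_).symm
  show dist (k⁻¹ • x) (g • k⁻¹ • x) = dist x ((k * g * k⁻¹) • x)
  rw [← A.isometric k, smul_inv_smul, mul_smul, mul_smul]

theorem agree' {g p : F2} (hp : p ∈ PP) (h : IsConj g p ∨ IsConj g⁻¹ p) :
    C3.len (etaA g) = C3.len (etaB g) := by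
  have aux : ∀ η : F2 →* F3, C3.len (η g) = C3.len (η p) := by
    intro η
    rcases h with h | h
    · exact len_conj C3 (MonoidHom.map_isConj η h)
    · rw [← len_inv, ← map_inv]
      exact len_conj C3 (MonoidHom.map_isConj η h)
  rw [aux, aux, agree hp]

theorem disagree : C3.len (etaA gy) ≠ C3.len (etaB gy) := by
  have h1 : C3.len (etaA gy) = 1 / 3 := by
    have : Rep (etaA gy) [((1 : Fin 3), true)] := by
      refine ⟨by simp, ?_, ?_⟩
      · simp [FreeGroup.IsReduced]
      · rw [etaA_y, isConj_comm, isConj_iff]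
        exact ⟨gD, rfl⟩
    rw [C3_len_rep this]
    simp
  have h2 : C3.len (etaB gy) = 1 := by
    have : Rep (etaB gy) [((0 : Fin 3), true), (1, true), (2, true)] := by
      refine ⟨by simp, ?_, ?_⟩
      · simp [FreeGroup.IsReduced]
      · rw [etaB_y]
        exact IsConj.refl _
    rw [C3_len_rep this]
    simp
  rw [h1, h2]
  norm_num

/-- no finite set of primitive elements is rigid -/
theorem no_finite (S : Set F2) (hfin : S.Finite) (hS : ∀ s ∈ S, Primitive s) :
    ∃ A B : FTree 2, A.InCV ∧ B.InCV ∧ HasCovolume A 1 ∧ HasCovolume B 1 ∧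
      (∀ s ∈ S, A.len s = B.len s) ∧ ¬ A.Same B ∧ ∃ g, Primitive g ∧ A.len g ≠ B.len g := by
  have hn : ∃ n : ℕ, ∀ s ∈ S, ∃ p ∈ PP, IsConj (th n s) p ∨ IsConj (th n s)⁻¹ p := by
    choose! c hc using fun s (hs : s ∈ S) => large' (hS s hs)
    obtain ⟨n, hn⟩ := (hfin.image c).bddAbove
    refine ⟨n, fun s hs => hc s hs n (hn ⟨s, hs, rfl⟩)⟩
  obtain ⟨n, hn⟩ := hn
  have hdis : (twist (restr C3 etaA oo) (th n)).len ((th n).symm gy) ≠
      (twist (restr C3 etaB oo) (th n)).len ((th n).symm gy) := by
    rw [twist_len, twist_len, MulEquiv.apply_symm_apply, restr_len, restr_len]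
    exact disagree
  refine ⟨twist (restr C3 etaA oo) (th n), twist (restr C3 etaB oo) (th n),
    twist_inCV (inCV etaA etaA_inj etaA_x) _, twist_inCV (inCV etaB etaB_inj etaB_x) _,
    twist_covolume (covolume_one etaA etaA_inj uA genA (fun j => (memA j).1)
      (fun j => (memA j).2)) _,
    twist_covolume (covolume_one etaB etaB_inj uB genB (fun j => (memB j).1)
      (fun j => (memB j).2)) _, ?_, ?_, (th n).symm gy, ?_, hdis⟩
  · intro s hs
    obtain ⟨p, hp, h⟩ := hn s hs
    rw [twist_len, twist_len, restr_len, restr_len]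
    exact agree' hp h
  · intro h
    exact hdis (by rw [h.len_eq])
  · exact primitive_aut (th n).symm 1

end Pool.Agent.V1127.Cv
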