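import Pool.Agent.H67R3.FSR.Formula
import Pool.Agent.H67R3.FSR.Boundary
import Pool.Agent.H67R4.SR.Trees

/-!
Automorphisms of a free group are products of Nielsen moves.
-/

set_option autoImplicit false

namespace Pool.Agent.V1127.Cv

open Pool.Agent.H67R3 Pool.Agent.H472R3 Pool.Agent.H67R3.FSR Pool.Agent.H67R4.SR

variable {N : ℕ}

/-- products of moves -/
inductive NG : (FreeGroup (Fin N) ≃* FreeGroup (Fin N)) → Prop
  | refl : NG (MulEquiv.refl _)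
  | step (φ : FreeGroup (Fin N) ≃* FreeGroup (Fin N)) (a b : Lt N) (h : b.1 ≠ a.1) :
      NG φ → NG ((tau a b h).trans φ)

variable (ℓ : LenFn N)

theorem exists_minG (hfin : ∀ R : ℝ, {g | ℓ.L g ≤ R}.Finite) :
    ∃ φ : FreeGroup (Fin N) ≃* FreeGroup (Fin N), NG φ ∧ (∀ ψ, NG ψ → P2 ℓ φ ≤ P2 ℓ ψ) ∧
      ∀ ψ, NG ψ → P2 ℓ ψ = P2 ℓ φ → Psi ℓ φ ≤ Psi ℓ ψ := by
  set e : FreeGroup (Fin N) ≃* FreeGroup (Fin N) := MulEquiv.refl _
  have hS : {ψ : FreeGroup (Fin N) ≃* FreeGroup (Fin N) | NG ψ ∧ P2 ℓ ψ ≤ P2 ℓ e}.Finite := by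
    have hpi : (Set.univ.pi fun _ : Lt N => {g | ℓ.L g ≤ P2 ℓ e}).Finite :=
      Set.Finite.pi fun _ => hfin _
    apply Set.Finite.of_injOn (f := fun ψ (c : Lt N) => ψ (lt c)) _ _ hpi
    · intro ψ hψ c _
      simp only [Set.mem_ofPred_eq] at hψ ⊢
      refine le_trans ?_ hψ.2
      exact Finset.single_le_sum (f := fun c => ℓ.L (ψ (lt c)))
        (fun i _ => L_nonneg ℓ _) (Finset.mem_univ c)
    · intro ψ _ ψ' _ h
      exact equiv_ext fun c => congrFun h c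
  obtain ⟨φ0, h0, h1⟩ := Set.exists_min_image _ (P2 ℓ) hS ⟨e, by
    simp only [Set.mem_ofPred_eq]; exact ⟨NG.refl, le_rfl⟩⟩
  simp only [Set.mem_ofPred_eq] at h0 h1
  have h2 : ∀ ψ, NG ψ → P2 ℓ φ0 ≤ P2 ℓ ψ := by
    intro ψ hng
    by_cases h : P2 ℓ ψ ≤ P2 ℓ e
    · exact h1 ψ ⟨hng, h⟩
    · exact le_trans h0.2 (not_le.mp h).le
  have hM : {n : ℕ | ∃ ψ, NG ψ ∧ P2 ℓ ψ = P2 ℓ φ0 ∧ Psi ℓ ψ = n}.Nonempty :=
    ⟨_, φ0, h0.1, rfl, rfl⟩
  obtain ⟨φ, hφ0, hφ, hφ'⟩ := Nat.sInf_mem hM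
  refine ⟨φ, hφ0, fun ψ hng => hφ ▸ h2 ψ hng, fun ψ hng hψ => ?_⟩
  rw [hφ']
  exact Nat.sInf_le ⟨ψ, hng, hψ.trans hφ, rfl⟩

section min

variable {ℓ} {φ : FreeGroup (Fin N) ≃* FreeGroup (Fin N)}

theorem le_moveG (hng : NG φ) (hmin : ∀ ψ, NG ψ → P2 ℓ φ ≤ P2 ℓ ψ) (a b : Lt N) (h : b.1 ≠ a.1) :
    ℓ.L (φ (lt a)) ≤ ℓ.L (φ (lt a) * φ (lt b)) := by
  have := hmin ((tau a b h).trans φ) (NG.step _ _ _ _ hng)
  rw [P2_move] at this
  linarith

theorem tie_not_lessG (hng : NG φ) (hmin : ∀ ψ, NG ψ → P2 ℓ φ ≤ P2 ℓ ψ)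
    (hfin : ∀ R : ℝ, {g | ℓ.L g ≤ R}.Finite)
    (hmin2 : ∀ ψ, NG ψ → P2 ℓ ψ = P2 ℓ φ → Psi ℓ φ ≤ Psi ℓ ψ) (a b : Lt N) (h : b.1 ≠ a.1)
    (htie : ℓ.L (φ (lt a) * φ (lt b)) = ℓ.L (φ (lt a))) :
    ¬ less ℓ (φ (lt b))⁻¹ (φ (lt b)) := by
  intro hless
  set x := φ (lt a) with hx
  set y := φ (lt b) with hy
  have hLyx : ℓ.L y ≤ ℓ.L x := by
    have := le_moveG hng hmin (inv' b) (inv' a) (by rw [inv'_fst, inv'_fst]; exact h.symm)
    rw [lt_inv', lt_inv', map_inv, map_inv, ← hx, ← hy, ℓ.inv, ← mul_inv_rev, ℓ.inv, htie] at this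
    exact this
  have hP : P2 ℓ ((tau a b h).trans φ) = P2 ℓ φ := by
    rw [P2_move, ← hx, ← hy, htie]
    ring
  have hPsi := hmin2 _ (NG.step _ _ _ _ hng) hP
  -- compare the ranks
  have e1 : rk ℓ (x * y) = rk ℓ x := by
    apply rk_congr ℓ htie
    rw [G_comm]
    unfold G
    rw [show x⁻¹ * (x * y) = y by group, htie]
    linarith
  have hr : G ℓ y⁻¹ y < ℓ.L y / 2 := hless.2.1
  have g1 : G ℓ x⁻¹ y = ℓ.L y / 2 := by
    unfold G
    rw [inv_inv, ℓ.inv, htie]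
    ring
  have g2 : G ℓ (x * y)⁻¹ y⁻¹ = ℓ.L y / 2 := by
    unfold G
    rw [inv_inv, ℓ.inv, ℓ.inv, htie, show x * y * y⁻¹ = x by group]
    ring
  have g3 : G ℓ (x * y)⁻¹ y = G ℓ y⁻¹ y := by
    have : G ℓ y y⁻¹ < G ℓ y⁻¹ (x * y)⁻¹ := by
      rw [G_comm ℓ y, G_comm ℓ _ (x * y)⁻¹, g2]; exact hr
    have := G_iso ℓ this
    rw [G_comm ℓ (x * y)⁻¹, this, G_comm]
  have g4 : G ℓ (x * y)⁻¹ x⁻¹ = G ℓ y⁻¹ y := by
    have : G ℓ (x * y)⁻¹ y < G ℓ y x⁻¹ := by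
      rw [g3, G_comm ℓ y x⁻¹, g1]; exact hr
    rw [G_iso ℓ this, g3]
  have e2 : less ℓ (x * y)⁻¹ x⁻¹ := by
    refine ⟨by rw [ℓ.inv, ℓ.inv, htie], ?_, ?_⟩
    · rw [g4, ℓ.inv]; linarith
    · rw [g4]
      rw [sig_congr ℓ (show G ℓ y⁻¹ y < G ℓ (x * y)⁻¹ y⁻¹ by rw [g2]; exact hr),
        sig_congr ℓ (show G ℓ y⁻¹ y < G ℓ x⁻¹ y by rw [g1]; exact hr)]
      exact hless.2.2
  have e3 := rk_lt ℓ hfin e2
  unfold Psi at hPsi
  rw [sum_split a, sum_split a (fun c => rk ℓ (((tau a b h).trans φ) (lt c)))] at hPsi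
  have e4 : ∑ c ∈ Finset.univ.filter (fun c : Lt N => c.1 ≠ a.1),
      rk ℓ (((tau a b h).trans φ) (lt c)) =
      ∑ c ∈ Finset.univ.filter (fun c : Lt N => c.1 ≠ a.1), rk ℓ (φ (lt c)) := by
    apply Finset.sum_congr rfl
    intro c hc
    rw [move_ne a b c h (Finset.mem_filter.mp hc).2]
  rw [e4, move_self, move_inv, lt_inv', map_inv, ← hx, ← hy, e1] at hPsi
  omega

end min

theorem nielsenG (hhyp : ∀ g, g ≠ 1 → ℓ.L g < ℓ.L (g * g))
    (hfin : ∀ R : ℝ, {g | ℓ.L g ≤ R}.Finite) :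
    ∃ φ : FreeGroup (Fin N) ≃* FreeGroup (Fin N), NG φ ∧
      ∀ a b d : Lt N, b ≠ inv' a → d ≠ inv' b →
      G ℓ (φ (lt a))⁻¹ (φ (lt b)) + G ℓ (φ (lt b))⁻¹ (φ (lt d)) < ℓ.L (φ (lt b)) := by
  obtain ⟨φ, hng, hmin, hmin2⟩ := exists_minG ℓ hfin
  refine ⟨φ, hng, fun a b d hab hbd => ?_⟩
  have hne : ∀ b : Lt N, φ (lt b) ≠ 1 := by
    intro b hb
    rw [map_eq_one_iff φ φ.injective] at hb
    have : (lt b).toWord = [] := by rw [hb, FreeGroup.toWord_one]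
    rw [lt, FreeGroup.toWord_mk, FreeGroup.reduce_singleton] at this
    simp at this
  have hself : ∀ b : Lt N, G ℓ (φ (lt b))⁻¹ (φ (lt b)) < ℓ.L (φ (lt b)) / 2 := by
    intro b
    unfold G
    rw [inv_inv, ℓ.inv]
    have := hhyp _ (hne b)
    linarith
  have hcase : ∀ a b : Lt N, b ≠ inv' a → a.1 = b.1 → a = b := by
    rintro ⟨i, s⟩ ⟨j, t⟩ h1 h2
    simp only [inv', ne_eq, Prod.mk.injEq, not_and] at h1 h2 ⊢
    subst h2
    refine ⟨rfl, ?_⟩
    have := h1 rfl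
    cases s <;> cases t <;> simp_all
  have hG : ∀ a b : Lt N, G ℓ (φ (lt a))⁻¹ (φ (lt b)) =
      (ℓ.L (φ (lt a)) + ℓ.L (φ (lt b)) - ℓ.L (φ (lt a) * φ (lt b))) / 2 := by
    intro a b
    unfold G
    rw [inv_inv, ℓ.inv]
  -- the first product
  rcases eq_or_ne a.1 b.1 with h1 | h1
  · have := hcase a b hab h1
    subst this
    have s1 := hself a
    rcases eq_or_ne a.1 d.1 with h2 | h2
    · have := hcase a d hbd h2
      subst this
      linarith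
    · have s2 := le_moveG hng hmin (inv' d) (inv' a) (by rw [inv'_fst, inv'_fst]; exact h2)
      rw [lt_inv', lt_inv', map_inv, map_inv, ℓ.inv, ← mul_inv_rev, ℓ.inv] at s2
      rw [hG a d]
      linarith
  · have s1 := le_moveG hng hmin a b h1.symm
    rcases eq_or_ne b.1 d.1 with h2 | h2
    · have := hcase b d hbd h2
      subst this
      have s2 := hself b
      rw [hG a b]
      linarith
    · have s2 := le_moveG hng hmin (inv' d) (inv' b) (by rw [inv'_fst, inv'_fst]; exact h2)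
      rw [lt_inv', lt_inv', map_inv, map_inv, ℓ.inv, ← mul_inv_rev, ℓ.inv] at s2
      by_contra hc
      rw [hG a b, hG b d] at hc
      have t1 : ℓ.L (φ (lt a) * φ (lt b)) = ℓ.L (φ (lt a)) := by linarith
      have t2 : ℓ.L (φ (lt b) * φ (lt d)) = ℓ.L (φ (lt d)) := by linarith
      have n1 := tie_not_lessG hng hmin hfin hmin2 a b h1.symm t1
      have n2 := tie_not_lessG hng hmin hfin hmin2 (inv' d) (inv' b)
        (by rw [inv'_fst, inv'_fst]; exact h2) (by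
          rw [lt_inv', lt_inv', map_inv, map_inv, ← mul_inv_rev, ℓ.inv, ℓ.inv]
          exact t2)
      rw [lt_inv', map_inv, inv_inv] at n2
      rcases less_total ℓ (g := (φ (lt b))⁻¹) (k := φ (lt b)) (ℓ.inv _) (hself b) with h | h
      · exact n1 h
      · exact n2 h

/-- parity of the length -/
def parG : FreeGroup (Fin N) →* Multiplicative (ZMod 2) :=
  FreeGroup.lift fun _ => Multiplicative.ofAdd 1

theorem parG_mk (L : List (Fin N × Bool)) :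
    parG (FreeGroup.mk L) = Multiplicative.ofAdd (L.length : ZMod 2) := by
  induction L with
  | nil => rfl
  | cons a l ih =>
    rw [mk_cons, map_mul, ih]
    have e : parG (lt a) = Multiplicative.ofAdd 1 := by
      obtain ⟨i, s⟩ := a
      cases s
      · rw [lt_false, map_inv]
        simp [parG]
        decide
      · rw [lt_true]
        simp [parG]
    rw [e, ← ofAdd_add, List.length_cons]
    congr 1
    push_cast
    ring

theorem parG_norm (g : FreeGroup (Fin N)) :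
    parG g = Multiplicative.ofAdd ((g.norm : ℕ) : ZMod 2) := by
  have := parG_mk g.toWord
  rwa [FreeGroup.mk_toWord] at this

theorem norm_parity (g h : FreeGroup (Fin N)) : ∃ k : ℤ,
    (g.norm : ℤ) + h.norm - (g * h).norm = 2 * k := by
  have h1 := parG_norm (g * h)
  rw [map_mul, parG_norm, parG_norm, ← ofAdd_add] at h1
  have h2 : ((g.norm : ℕ) : ZMod 2) + (h.norm : ℕ) = ((g * h).norm : ℕ) :=
    Multiplicative.ofAdd.injective h1
  have h3 : (((g.norm : ℤ) + h.norm - (g * h).norm : ℤ) : ZMod 2) = 0 := by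
    push_cast
    rw [h2, sub_self]
  rw [ZMod.intCast_zmod_eq_zero_iff_dvd] at h3
  exact h3

/-- the word length after an automorphism -/
noncomputable def ellOf (ψ : FreeGroup (Fin N) ≃* FreeGroup (Fin N)) : LenFn N :=
  lenOf (w := fun _ => (1 : ℝ)) (fun _ => zero_le_one) ψ.toMonoidHom

theorem ellOf_L (ψ : FreeGroup (Fin N) ≃* FreeGroup (Fin N)) (g : FreeGroup (Fin N)) :
    (ellOf ψ).L g = (ψ g).norm := by
  show wl (fun _ => (1 : ℝ)) (ψ g) = _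
  unfold wl W FreeGroup.norm
  simp

theorem ellOf_hyp (ψ : FreeGroup (Fin N) ≃* FreeGroup (Fin N)) (g : FreeGroup (Fin N))
    (hg : g ≠ 1) : (ellOf ψ).L g < (ellOf ψ).L (g * g) := by
  show wl (fun _ => (1 : ℝ)) (ψ g) < wl (fun _ => (1 : ℝ)) (ψ (g * g))
  have h2 : (1 : ℝ) ≤ wl (fun _ => (1 : ℝ)) (ψ g * ψ g) - wl (fun _ => (1 : ℝ)) (ψ g) :=
    wl_sq zero_le_one (fun _ => le_rfl) (ψ g) (fun h => hg ((map_eq_one_iff ψ ψ.injective).1 h))
  rw [map_mul]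
  linarith

theorem ellOf_fin (ψ : FreeGroup (Fin N) ≃* FreeGroup (Fin N)) (R : ℝ) :
    {g | (ellOf ψ).L g ≤ R}.Finite := by
  have h1 : {h : FreeGroup (Fin N) | h.norm ≤ ⌊R⌋₊}.Finite := finite_norm_le _
  apply Set.Finite.subset (h1.image ψ.symm)
  intro g hg
  refine ⟨ψ g, ?_, ψ.symm_apply_apply g⟩
  simp only [Set.mem_ofPred_eq] at hg ⊢
  rw [ellOf_L] at hg
  exact Nat.le_floor hg

theorem Q_ge {p : (Lt N → ℝ) × (Lt N × Lt N → ℝ)}
    (h : ∀ a b d : Lt N, b ≠ inv' a → d ≠ inv' b → p.2 (a, b) + p.2 (b, d) + 1 ≤ p.1 b)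
    (h0 : ∀ a b, 0 ≤ p.2 (a, b)) :
    ∀ (l : List (Lt N)) (a b : Lt N), FreeGroup.IsReduced (a :: b :: l) →
      2 ≤ FSR.Q p (a :: b :: l) ∧ 1 + p.2 (a, b) ≤ FSR.Q p (b :: l) := by
  intro l
  induction l with
  | nil =>
    intro a b hr
    have hab : b ≠ inv' a := by
      apply reduced_step
      have := hr
      unfold FreeGroup.IsReduced at this
      rw [List.isChain_cons_cons] at this
      exact this.1
    have hself : ∀ b : Lt N, b ≠ inv' b := by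
      intro b hb
      have := congrArg Prod.snd hb
      simp [inv'] at this
    have h1 := h a b b hab (hself b)
    have h2 := h a a b (hself a) hab
    have h3 := h0 b b
    have h4 := h0 a a
    simp only [Pool.Agent.H67R3.FSR.Q]
    constructor <;> linarith
  | cons d l ih =>
    intro a b hr
    have hab : b ≠ inv' a ∧ FreeGroup.IsReduced (b :: d :: l) := by
      have := hr
      unfold FreeGroup.IsReduced at this
      rw [List.isChain_cons_cons] at this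
      exact ⟨reduced_step this.1, this.2⟩
    have hbd : d ≠ inv' b := by
      apply reduced_step
      have := hab.2
      unfold FreeGroup.IsReduced at this
      rw [List.isChain_cons_cons] at this
      exact this.1
    obtain ⟨i1, i2⟩ := ih b d hab.2
    have hself : ∀ b : Lt N, b ≠ inv' b := by
      intro b hb
      have := congrArg Prod.snd hb
      simp [inv'] at this
    have h1 := h a b d hab.1 hbd
    have h2 := h a a b (hself a) hab.1
    have h4 := h0 a a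
    have h5 := h0 b d
    have e1 : FSR.Q p (b :: d :: l) = p.1 b - 2 * p.2 (b, d) + FSR.Q p (d :: l) := rfl
    have e2 : FSR.Q p (a :: b :: d :: l) = p.1 a - 2 * p.2 (a, b) + FSR.Q p (b :: d :: l) := rfl
    have e3 : 1 + p.2 (a, b) ≤ FSR.Q p (b :: d :: l) := by rw [e1]; linarith
    refine ⟨?_, e3⟩
    rw [e2]
    linarith

/-- a signed permutation of the basis -/
def Sgn (σ : FreeGroup (Fin N) ≃* FreeGroup (Fin N)) : Prop :=
  ∀ c : Lt N, ∃ d : Lt N, σ (lt c) = lt d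

/-- every automorphism differs from a product of moves by a signed permutation -/
theorem nielsen_gen (ψ : FreeGroup (Fin N) ≃* FreeGroup (Fin N)) :
    ∃ φ, NG φ ∧ Sgn (φ.trans ψ).symm := by
  obtain ⟨φ, hng, hφ⟩ := nielsenG (ellOf ψ) (ellOf_hyp ψ) (ellOf_fin ψ)
  refine ⟨φ, hng, ?_⟩
  intro c
  set χ := φ.trans ψ with hχ
  have hG : ∀ g h, ∃ k : ℤ, G (ellOf ψ) g⁻¹ h = k := by
    intro g h
    obtain ⟨k, hk⟩ := norm_parity (ψ g) (ψ h)
    refine ⟨k, ?_⟩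
    unfold G
    rw [inv_inv, ellOf_L, ellOf_L, ellOf_L, map_inv, FreeGroup.norm_inv_eq, map_mul]
    have hk' : ((ψ g).norm : ℝ) + (ψ h).norm - (ψ g * ψ h).norm = 2 * k := by exact_mod_cast hk
    linarith
  have hint : ∀ a b d : Lt N, b ≠ inv' a → d ≠ inv' b →
      G (ellOf ψ) (φ (lt a))⁻¹ (φ (lt b)) + G (ellOf ψ) (φ (lt b))⁻¹ (φ (lt d)) + 1 ≤
        (ellOf ψ).L (φ (lt b)) := by
    intro a b d h1 h2
    have h3 := hφ a b d h1 h2
    obtain ⟨k1, hk1⟩ := hG (φ (lt a)) (φ (lt b))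
    obtain ⟨k2, hk2⟩ := hG (φ (lt b)) (φ (lt d))
    rw [hk1, hk2, ellOf_L] at h3 ⊢
    have h4 : k1 + k2 < ((ψ (φ (lt b))).norm : ℤ) := by exact_mod_cast h3
    have h5 : k1 + k2 + 1 ≤ ((ψ (φ (lt b))).norm : ℤ) := by omega
    exact_mod_cast h5
  have hform := formula_list (ellOf ψ) φ hφ
  set w := (χ.symm (lt c)).toWord with hw
  have hred : FreeGroup.IsReduced w := FreeGroup.isReduced_toWord
  have hmk : FreeGroup.mk w = χ.symm (lt c) := FreeGroup.mk_toWord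
  have h1 := hform w hred
  rw [hmk, ellOf_L] at h1
  have h2 : ψ (φ (χ.symm (lt c))) = lt c := χ.apply_symm_apply (lt c)
  rw [h2] at h1
  have h3 : (lt c).norm = 1 := by
    unfold FreeGroup.norm lt
    rw [FreeGroup.toWord_mk, FreeGroup.reduce_singleton]
    rfl
  rw [h3] at h1
  clear_value w
  match w, hred, hmk, h1 with
  | [], _, _, h1 =>
    rw [Pool.Agent.H67R3.FSR.Q] at h1
    norm_num at h1
  | [d], _, hmk, _ => exact ⟨d, hmk.symm⟩
  | a :: b :: l, hred, _, h1 =>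
    have h4 := (Q_ge (p := (fun a => (ellOf ψ).L (φ (lt a)),
      fun q => G (ellOf ψ) (φ (lt q.1))⁻¹ (φ (lt q.2)))) hint (fun a b => G_nonneg _ _ _)
      l a b hred).1
    rw [← h1] at h4
    norm_num at h4

end Pool.Agent.V1127.Cv
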