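import Pool.Agent.V1127.CvGen
import Pool.Agent.V1127.CvCay

/-!
Primitive elements of the free group of rank two are conjugate, up to inversion, to words in which
the second generator has positive exponents only.
-/

set_option autoImplicit false

namespace Pool.Agent.V1127.Cv

open Pool.Agent.H67R3 Pool.Agent.H472R3 Pool.Agent.H67R3.FSR Pool.Agent.H67R4.SR

/-- first generator -/
def gx : F2 := FreeGroup.of 0
/-- second generator -/
def gy : F2 := FreeGroup.of 1

section BB

variable {G : Type} [Group G]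

/-- positive bases -/
inductive Pos (X Y : G) : G → G → Prop
  | base : Pos X Y X Y
  | l (g h : G) : Pos X Y g h → Pos X Y (g * h) h
  | r (g h : G) : Pos X Y g h → Pos X Y g (g * h)

/-- pairs obtained from positive bases -/
inductive BB (x y : G) : G → G → Prop
  | pos (X Y g h : G) : (X = x ∨ X = x⁻¹) → (Y = y ∨ Y = y⁻¹) → Pos X Y g h → BB x y g h
  | inv1 (g h : G) : BB x y g h → BB x y g⁻¹ h
  | inv2 (g h : G) : BB x y g h → BB x y g h⁻¹
  | swap (g h : G) : BB x y g h → BB x y h g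
  | conj (g h k : G) : BB x y g h → BB x y (k * g * k⁻¹) (k * h * k⁻¹)

variable {x y : G}

theorem BB.c {g h g' h' : G} (H : BB x y g h) (k : G) (e1 : k * g * k⁻¹ = g')
    (e2 : k * h * k⁻¹ = h') : BB x y g' h' := by
  subst e1
  subst e2
  exact BB.conj _ _ _ H

/-- closure under the four moves -/
def TT (x y g h : G) : Prop :=
  BB x y (g * h) h ∧ BB x y (g * h⁻¹) h ∧ BB x y (h * g) g ∧ BB x y (h * g⁻¹) g

theorem TT.inv1 {g h : G} (H : TT x y g h) : TT x y g⁻¹ h := by
  obtain ⟨a, b, c, d⟩ := H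
  refine ⟨?_, ?_, ?_, ?_⟩
  · have := BB.inv1 _ _ (b.c h⁻¹ (g' := h⁻¹ * g) (h' := h) (by group) (by group))
    rwa [mul_inv_rev, inv_inv] at this
  · have := BB.inv1 _ _ (a.c h (g' := h * g) (h' := h) (by group) (by group))
    rwa [mul_inv_rev] at this
  · exact BB.inv2 _ _ d
  · have := BB.inv2 _ _ c
    rwa [inv_inv]

theorem TT.swap {g h : G} (H : TT x y g h) : TT x y h g := by
  obtain ⟨a, b, c, d⟩ := H
  exact ⟨c, d, a, b⟩

theorem TT.inv2 {g h : G} (H : TT x y g h) : TT x y g h⁻¹ := H.swap.inv1.swap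

theorem TT.conj {g h : G} (H : TT x y g h) (k : G) : TT x y (k * g * k⁻¹) (k * h * k⁻¹) := by
  obtain ⟨a, b, c, d⟩ := H
  exact ⟨a.c k (by group) rfl, b.c k (by group) rfl, c.c k (by group) rfl,
    d.c k (by group) rfl⟩

theorem TT.pos {X Y g h : G} (hX : X = x ∨ X = x⁻¹) (hY : Y = y ∨ Y = y⁻¹) (H : Pos X Y g h) :
    TT x y g h := by
  have hX' : X⁻¹ = x ∨ X⁻¹ = x⁻¹ := by
    rcases hX with rfl | rfl
    · exact Or.inr rfl
    · exact Or.inl (inv_inv _)
  have hY' : Y⁻¹ = y ∨ Y⁻¹ = y⁻¹ := by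
    rcases hY with rfl | rfl
    · exact Or.inr rfl
    · exact Or.inl (inv_inv _)
  have P : ∀ g h, Pos X Y g h → BB x y g h := fun g h H => BB.pos X Y g h hX hY H
  have c1 : BB x y (g * h) h := P _ _ (Pos.l _ _ H)
  have c3 : BB x y (h * g) g :=
    (BB.swap _ _ (P _ _ (Pos.r _ _ H))).c g⁻¹ (by group) (by group)
  cases H with
  | base =>
    refine ⟨c1, ?_, c3, ?_⟩
    · have := BB.inv2 _ _ (BB.pos (x := x) (y := y) X Y⁻¹ _ _ hX hY' (Pos.l _ _ Pos.base))
      rwa [inv_inv] at this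
    · have := BB.inv2 _ _ (BB.swap _ _ (BB.pos (x := x) (y := y) X⁻¹ Y _ _ hX' hY
        (Pos.r _ _ Pos.base)))
      rw [inv_inv] at this
      exact this.c X (by group) (by group)
  | l g0 h H0 =>
    refine ⟨c1, ?_, c3, ?_⟩
    · rw [mul_inv_cancel_right]
      exact P _ _ H0
    · have := BB.inv1 _ _ (P _ _ (Pos.r _ _ H0))
      rwa [mul_inv_rev, mul_inv_cancel_left]
  | r g h0 H0 =>
    refine ⟨c1, ?_, c3, ?_⟩
    · have := (BB.swap _ _ (P _ _ (Pos.l _ _ H0))).c (g * h0) (g' := g * h0 * g⁻¹) (h' := g * h0)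
        (by group) (by group)
      have := BB.inv1 _ _ this
      rw [mul_inv_rev, mul_inv_rev, inv_inv] at this
      rwa [mul_inv_rev]
    · exact (BB.swap _ _ (P _ _ H0)).c g (by group) (by group)

theorem BB.tt {g h : G} (H : BB x y g h) : TT x y g h := by
  induction H with
  | pos X Y g h hX hY H => exact TT.pos hX hY H
  | inv1 g h _ ih => exact ih.inv1
  | inv2 g h _ ih => exact ih.inv2
  | swap g h _ ih => exact ih.swap
  | conj g h k _ ih => exact ih.conj k

/-- the monoid of words in which the second generator has positive exponents only -/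
def KK (x y : G) : Submonoid G := Submonoid.closure {x, x⁻¹, y}

/-- conjugate into the monoid, up to inversion -/
def RR (x y g : G) : Prop := ∃ m ∈ KK x y, IsConj g m ∨ IsConj g⁻¹ m

theorem RR.inv {g : G} (h : RR x y g) : RR x y g⁻¹ := by
  obtain ⟨m, hm, h⟩ := h
  refine ⟨m, hm, ?_⟩
  rw [inv_inv]
  exact h.symm

theorem RR.conj {g : G} (h : RR x y g) (k : G) : RR x y (k * g * k⁻¹) := by
  obtain ⟨m, hm, h⟩ := h
  refine ⟨m, hm, ?_⟩
  rcases h with h | h
  · left
    exact (isConj_iff.2 ⟨k, rfl⟩ : IsConj g _).symm.trans h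
  · right
    refine (isConj_iff.2 ⟨k, ?_⟩ : IsConj g⁻¹ _).symm.trans h
    group

theorem Pos.mem {X Y g h : G} (H : Pos X Y g h) :
    g ∈ Submonoid.closure {X, Y} ∧ h ∈ Submonoid.closure {X, Y} := by
  induction H with
  | base => exact ⟨Submonoid.subset_closure (by simp), Submonoid.subset_closure (by simp)⟩
  | l g h _ ih => exact ⟨mul_mem ih.1 ih.2, ih.2⟩
  | r g h _ ih => exact ⟨ih.1, mul_mem ih.1 ih.2⟩

theorem mem_rr {X Y g : G} (hX : X = x ∨ X = x⁻¹) (hY : Y = y ∨ Y = y⁻¹)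
    (h : g ∈ Submonoid.closure {X, Y}) : RR x y g := by
  have hX' : X ∈ KK x y ∧ X⁻¹ ∈ KK x y := by
    rcases hX with rfl | rfl
    · exact ⟨Submonoid.subset_closure (by simp), Submonoid.subset_closure (by simp)⟩
    · rw [inv_inv]
      exact ⟨Submonoid.subset_closure (by simp), Submonoid.subset_closure (by simp)⟩
  have hy : y ∈ KK x y := Submonoid.subset_closure (by simp)
  rcases hY with rfl | rfl
  · refine ⟨g, ?_, Or.inl (IsConj.refl _)⟩
    refine (Submonoid.closure_le.2 ?_) h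
    rintro z (rfl | rfl)
    · exact hX'.1
    · exact hy
  · refine ⟨g⁻¹, ?_, Or.inr (IsConj.refl _)⟩
    induction h using Submonoid.closure_induction with
    | mem z hz =>
      rcases hz with rfl | rfl
      · exact hX'.2
      · rw [inv_inv]; exact hy
    | one => rw [inv_one]; exact one_mem _
    | mul a b _ _ iha ihb => rw [mul_inv_rev]; exact mul_mem ihb iha

theorem BB.rr {g h : G} (H : BB x y g h) : RR x y g ∧ RR x y h := by
  induction H with
  | pos X Y g h hX hY H => exact ⟨mem_rr hX hY H.mem.1, mem_rr hX hY H.mem.2⟩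
  | inv1 g h _ ih => exact ⟨ih.1.inv, ih.2⟩
  | inv2 g h _ ih => exact ⟨ih.1, ih.2.inv⟩
  | swap g h _ ih => exact ⟨ih.2, ih.1⟩
  | conj g h k _ ih => exact ⟨ih.1.conj k, ih.2.conj k⟩

end BB

theorem NG.bb {φ : F2 ≃* F2} (h : NG φ) : BB gx gy (φ gx) (φ gy) := by
  induction h with
  | refl => exact BB.pos _ _ _ _ (Or.inl rfl) (Or.inl rfl) Pos.base
  | step φ a b hab _ ih =>
    have hT := ih.tt
    obtain ⟨i, s⟩ := a
    obtain ⟨j, t⟩ := b
    have hs := tau_self (i, s) (j, t) hab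
    have hn := tau_ne (i, s) (j, t) (j, true) hab hab
    simp only [ne_eq] at hab
    have hij : (i = 0 ∧ j = 1) ∨ (i = 1 ∧ j = 0) := by omega
    have ex : lt ((0 : Fin 2), true) = gx := rfl
    have ey : lt ((1 : Fin 2), true) = gy := rfl
    have ex' : lt ((0 : Fin 2), false) = gx⁻¹ := lt_false _
    have ey' : lt ((1 : Fin 2), false) = gy⁻¹ := lt_false _
    rw [MulEquiv.trans_apply, MulEquiv.trans_apply]
    rcases hij with ⟨rfl, rfl⟩ | ⟨rfl, rfl⟩
    · rw [ey] at hn
      rw [hn]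
      cases s <;> cases t
      · rw [ex', ey', map_inv, inv_eq_iff_eq_inv] at hs
        rw [hs, mul_inv_rev, inv_inv, inv_inv, map_mul]
        exact hT.1.c (φ gy) (by group) (by group)
      · rw [ex', ey, map_inv, inv_eq_iff_eq_inv] at hs
        rw [hs, mul_inv_rev, inv_inv, map_mul, map_inv]
        exact hT.2.1.c (φ gy)⁻¹ (by group) (by group)
      · rw [ex, ey'] at hs
        rw [hs, map_mul, map_inv]
        exact hT.2.1
      · rw [ex, ey] at hs
        rw [hs, map_mul]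
        exact hT.1
    · rw [ex] at hn
      rw [hn]
      apply BB.swap
      cases s <;> cases t
      · rw [ex', ey', map_inv, inv_eq_iff_eq_inv] at hs
        rw [hs, mul_inv_rev, inv_inv, inv_inv, map_mul]
        exact hT.2.2.1.c (φ gx) (by group) (by group)
      · rw [ex, ey', map_inv, inv_eq_iff_eq_inv] at hs
        rw [hs, mul_inv_rev, inv_inv, map_mul, map_inv]
        exact hT.2.2.2.c (φ gx)⁻¹ (by group) (by group)
      · rw [ex', ey] at hs
        rw [hs, map_mul, map_inv]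
        exact hT.2.2.2
      · rw [ex, ey] at hs
        rw [hs, map_mul]
        exact hT.2.2.1

/-- a primitive element of the free group of rank two -/
theorem primitive_rr {g : F2} (hg : Primitive g) : RR gx gy g := by
  obtain ⟨ψ, hψ⟩ := hg.exists_aut (0 : Fin 2)
  obtain ⟨φ, hng, hs⟩ := nielsen_gen ψ.symm
  obtain ⟨d, hd⟩ := hs (0, true)
  have h1 : φ (lt d) = g := by
    rw [← hd, ← hψ]
    show φ ((φ.trans ψ.symm).symm (FreeGroup.of 0)) = ψ (FreeGroup.of 0)
    have h2 : (φ.trans ψ.symm) ((φ.trans ψ.symm).symm (FreeGroup.of 0)) = FreeGroup.of 0 :=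
      (φ.trans ψ.symm).apply_symm_apply _
    have h3 : ψ.symm (φ ((φ.trans ψ.symm).symm (FreeGroup.of 0))) = FreeGroup.of 0 := h2
    rw [← h3, MulEquiv.apply_symm_apply]
    congr 2
  obtain ⟨r1, r2⟩ := (hng.bb).rr
  obtain ⟨i, s⟩ := d
  have hi : i = 0 ∨ i = 1 := by omega
  rw [← h1]
  rcases hi with rfl | rfl <;> cases s
  · rw [lt_false, map_inv]; exact r1.inv
  · exact r1
  · rw [lt_false, map_inv]; exact r2.inv
  · exact r2

/-- the twist `x ↦ x`, `y ↦ x ^ n y` -/
def thHom (n : ℤ) : F2 →* F2 := FreeGroup.lift ![gx, gx ^ n * gy]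

theorem thHom_x (n : ℤ) : thHom n gx = gx := by
  unfold thHom gx
  rw [FreeGroup.lift_apply_of]
  rfl

theorem thHom_y (n : ℤ) : thHom n gy = gx ^ n * gy := by
  unfold thHom gy
  rw [FreeGroup.lift_apply_of]
  rfl

theorem ext2 {G : Type} [Group G] {f g : F2 →* G} (h0 : f gx = g gx) (h1 : f gy = g gy) :
    f = g := by
  apply FreeGroup.ext_hom
  intro i
  have hi : i = 0 ∨ i = 1 := by omega
  rcases hi with rfl | rfl
  · exact h0
  · exact h1

theorem thHom_comp (n : ℤ) : (thHom (-n)).comp (thHom n) = MonoidHom.id _ := by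
  apply ext2
  · rw [MonoidHom.comp_apply, thHom_x, thHom_x, MonoidHom.id_apply]
  · rw [MonoidHom.comp_apply, thHom_y, map_mul, map_zpow, thHom_x, thHom_y, ← mul_assoc,
      ← zpow_add, add_neg_cancel, zpow_zero, one_mul, MonoidHom.id_apply]

/-- the twist as an automorphism -/
def th (n : ℤ) : F2 ≃* F2 :=
  MonoidHom.toMulEquiv (thHom n) (thHom (-n)) (thHom_comp n)
    (by have := thHom_comp (-n); rwa [neg_neg] at this)

theorem th_x (n : ℤ) : th n gx = gx := thHom_x n

theorem th_y (n : ℤ) : th n gy = gx ^ n * gy := thHom_y n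

/-- the monoid of positive words in `x` and `x y` -/
def PP : Submonoid F2 := Submonoid.closure {gx, gx * gy}

theorem x_mem : gx ∈ PP := Submonoid.subset_closure (by simp)

theorem xy_mem : gx * gy ∈ PP := Submonoid.subset_closure (by simp)

theorem xky_mem {k : ℤ} (hk : 1 ≤ k) : gx ^ k * gy ∈ PP := by
  obtain ⟨n, rfl⟩ : ∃ n : ℕ, k = n + 1 := ⟨(k - 1).toNat, by omega⟩
  rw [zpow_add, zpow_one, mul_assoc, zpow_natCast]
  exact mul_mem (pow_mem x_mem _) xy_mem

/-- the shape of the elements of the monoid after a large twist -/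
theorem shape {m : F2} (hm : m ∈ KK gx gy) :
    (∃ e : ℤ, m = gx ^ e) ∨ ∃ (e0 e1 : ℤ) (c : ℕ), ∀ n : ℕ, c ≤ n → ∃ q ∈ PP,
      th n m = gx ^ (e0 + n) * gy * q * gx ^ e1 := by
  induction hm using Submonoid.closure_induction_right with
  | one => exact Or.inl ⟨0, by simp⟩
  | mul_right m hm z hz ih =>
    have hx : ∀ s : ℤ, (∃ e : ℤ, m * gx ^ s = gx ^ e) ∨ ∃ (e0 e1 : ℤ) (c : ℕ), ∀ n : ℕ, c ≤ n →
        ∃ q ∈ PP, th n (m * gx ^ s) = gx ^ (e0 + n) * gy * q * gx ^ e1 := by
      intro s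
      rcases ih with ⟨e, rfl⟩ | ⟨e0, e1, c, h⟩
      · left
        exact ⟨e + s, (zpow_add _ _ _).symm⟩
      · right
        refine ⟨e0, e1 + s, c, fun n hn => ?_⟩
        obtain ⟨q, hq, h⟩ := h n hn
        refine ⟨q, hq, ?_⟩
        rw [map_mul, h, map_zpow, th_x, mul_assoc, ← zpow_add]
    rcases hz with rfl | rfl | rfl
    · have := hx 1
      rwa [zpow_one] at this
    · have := hx (-1)
      rwa [zpow_neg_one] at this
    · right
      rcases ih with ⟨e, rfl⟩ | ⟨e0, e1, c, h⟩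
      · refine ⟨e, 0, 0, fun n _ => ⟨1, one_mem _, ?_⟩⟩
        rw [map_mul, map_zpow, th_x, th_y, mul_one, zpow_zero, mul_one, ← mul_assoc, ← zpow_add]
      · refine ⟨e0, 0, max c (1 - e1).toNat, fun n hn => ?_⟩
        have h1 : c ≤ n := le_trans (le_max_left _ _) hn
        have h2 : (1 - e1).toNat ≤ n := le_trans (le_max_right _ _) hn
        obtain ⟨q, hq, h⟩ := h n h1
        refine ⟨q * (gx ^ (e1 + n) * gy), mul_mem hq (xky_mem (by omega)), ?_⟩
        rw [map_mul, h, th_y, zpow_zero, mul_one, zpow_add gx e1]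
        simp only [mul_assoc]

/-- after a large twist the elements of the monoid are conjugate to positive words -/
theorem large {m : F2} (hm : m ∈ KK gx gy) :
    ∃ c : ℕ, ∀ n : ℕ, c ≤ n → ∃ p ∈ PP, IsConj (th n m) p ∨ IsConj (th n m)⁻¹ p := by
  rcases shape hm with ⟨e, rfl⟩ | ⟨e0, e1, c, h⟩
  · refine ⟨0, fun n _ => ?_⟩
    rw [map_zpow, th_x]
    rcases le_total 0 e with he | he
    · obtain ⟨k, rfl⟩ := Int.eq_ofNat_of_zero_le he
      exact ⟨gx ^ k, pow_mem x_mem k, Or.inl (by rw [zpow_natCast])⟩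
    · obtain ⟨k, hk⟩ := Int.eq_ofNat_of_zero_le (neg_nonneg.2 he)
      refine ⟨gx ^ k, pow_mem x_mem k, Or.inr ?_⟩
      rw [← zpow_neg, hk, zpow_natCast]
  · refine ⟨max c (1 - e0 - e1).toNat, fun n hn => ?_⟩
    have h1 : c ≤ n := le_trans (le_max_left _ _) hn
    have h2 : (1 - e0 - e1).toNat ≤ n := le_trans (le_max_right _ _) hn
    obtain ⟨q, hq, h⟩ := h n h1
    refine ⟨gx ^ (e1 + (e0 + n)) * gy * q, mul_mem (xky_mem (by omega)) hq, Or.inl ?_⟩
    rw [h, isConj_iff]
    refine ⟨gx ^ e1, ?_⟩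
    rw [zpow_add gx e1]
    simp only [mul_assoc, mul_inv_cancel, mul_one]

theorem large' {g : F2} (hg : Primitive g) :
    ∃ c : ℕ, ∀ n : ℕ, c ≤ n → ∃ p ∈ PP, IsConj (th n g) p ∨ IsConj (th n g)⁻¹ p := by
  obtain ⟨m, hm, h⟩ := primitive_rr hg
  obtain ⟨c, hc⟩ := large hm
  refine ⟨c, fun n hn => ?_⟩
  obtain ⟨p, hp, h2⟩ := hc n hn
  have aux : ∀ {a b : F2}, IsConj a b → IsConj (th n a) (th n b) := by
    intro a b hab
    obtain ⟨k, hk⟩ := isConj_iff.1 hab
    exact isConj_iff.2 ⟨th n k, by rw [← hk, map_mul, map_mul, map_inv]⟩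
  have aux2 : ∀ {a b : F2}, IsConj a b → IsConj a⁻¹ b⁻¹ := by
    intro a b hab
    obtain ⟨k, hk⟩ := isConj_iff.1 hab
    exact isConj_iff.2 ⟨k, by rw [← hk]; group⟩
  refine ⟨p, hp, ?_⟩
  rcases h with h | h
  · have h3 := aux h
    rcases h2 with h2 | h2
    · exact Or.inl (h3.trans h2)
    · exact Or.inr ((aux2 h3).trans h2)
  · have h3 := aux h
    rw [map_inv] at h3
    rcases h2 with h2 | h2
    · exact Or.inr (h3.trans h2)
    · have h4 := aux2 h3
      rw [inv_inv] at h4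
      exact Or.inl (h4.trans h2)

end Pool.Agent.V1127.Cv
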