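import Pool.Agent.H67R4.SR.Trees

/-!
Subtrees spanned by an orbit, minimality and co-volume.
-/

set_option autoImplicit false

namespace Pool.Agent.V1127.Cv

open Pool.Agent.H472R3 Pool.Agent.H67R3.FSR Pool.Agent.H67R4.SR

variable {N M : ℕ}

/-- `z` lies on the segment between `a` and `b` -/
def Btw {T : Type} [MetricSpace T] (a z b : T) : Prop := dist a z + dist z b = dist a b

theorem Btw.symm {T : Type} [MetricSpace T] {a z b : T} (h : Btw a z b) : Btw b z a := by
  unfold Btw at *
  rw [dist_comm b z, dist_comm z a, dist_comm b a, add_comm]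
  exact h

theorem btw_smul (A : FTree M) (g : FreeGroup (Fin M)) {a z b : A.T} :
    Btw (g • a) (g • z) (g • b) ↔ Btw a z b := by
  unfold Btw
  rw [A.isometric, A.isometric, A.isometric]

/-- twice the Gromov product -/
noncomputable def gq {T : Type} [MetricSpace T] (z u v : T) : ℝ := dist u z + dist v z - dist u v

theorem gq_ultra {T : Type} [MetricSpace T] (hT : IsRTree T) (z a b c : T) :
    min (gq z a c) (gq z c b) ≤ gq z a b := by
  have h := hT.zeroHyperbolic a b z c
  unfold gq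
  rw [dist_comm z c] at h
  rcases max_cases (dist a z + dist b c) (dist a c + dist b z) with hm | hm
  · rw [hm.1] at h
    rw [dist_comm c b]
    exact le_trans (min_le_right _ _) (by linarith)
  · rw [hm.1] at h
    exact le_trans (min_le_left _ _) (by linarith)

theorem btw_iff_gq {T : Type} [MetricSpace T] (z u v : T) : Btw u z v ↔ gq z u v = 0 := by
  unfold Btw gq
  rw [dist_comm z v]
  constructor <;> intro h <;> linarith

theorem gq_nonneg {T : Type} [MetricSpace T] (z u v : T) : 0 ≤ gq z u v := by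
  unfold gq
  have := dist_triangle u z v
  rw [dist_comm z v] at this
  linarith

theorem gq_le {T : Type} [MetricSpace T] {z x a b : T} (h : Btw a x b) : gq z a b ≤ gq z x a := by
  unfold gq
  unfold Btw at h
  have h1 := dist_triangle b x z
  rw [dist_comm x a]
  rw [dist_comm b x] at h1
  linarith

/-- the union of two segments with a common end covers the third one -/
theorem tripod {T : Type} [MetricSpace T] (hT : IsRTree T) {a b c z : T} (h : Btw a z c) :
    Btw a z b ∨ Btw b z c := by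
  rw [btw_iff_gq] at h
  rw [btw_iff_gq, btw_iff_gq]
  have h1 := gq_ultra hT z a c b
  rw [h] at h1
  rcases min_le_iff.1 h1 with h2 | h2
  · left; exact le_antisymm h2 (gq_nonneg _ _ _)
  · right; exact le_antisymm h2 (gq_nonneg _ _ _)

/-- the subtree spanned by the orbit of `o` -/
def Span (A : FTree M) (η : FreeGroup (Fin N) →* FreeGroup (Fin M)) (o : A.T) : Set A.T :=
  {z | ∃ g h : FreeGroup (Fin N), Btw (η g • o) z (η h • o)}

theorem span_convex (A : FTree M) (η : FreeGroup (Fin N) →* FreeGroup (Fin M)) (o : A.T)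
    {x y z : A.T} (hx : x ∈ Span A η o) (hy : y ∈ Span A η o) (hz : Btw x z y) :
    z ∈ Span A η o := by
  obtain ⟨g, h, hx⟩ := hx
  obtain ⟨g', h', hy⟩ := hy
  set a := η g • o
  set b := η h • o
  set c := η g' • o
  set d := η h' • o
  by_contra hcon
  have e1 : gq z a b ≠ 0 := fun h0 => hcon ⟨g, h, (btw_iff_gq _ _ _).2 h0⟩
  have e2 : gq z c d ≠ 0 := fun h0 => hcon ⟨g', h', (btw_iff_gq _ _ _).2 h0⟩
  have e3 : gq z a c ≠ 0 := fun h0 => hcon ⟨g, g', (btw_iff_gq _ _ _).2 h0⟩
  have p1 := lt_of_le_of_ne (gq_nonneg z a b) (Ne.symm e1)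
  have p2 := lt_of_le_of_ne (gq_nonneg z c d) (Ne.symm e2)
  have p3 := lt_of_le_of_ne (gq_nonneg z a c) (Ne.symm e3)
  have q1 : 0 < gq z x a := lt_of_lt_of_le p1 (gq_le hx)
  have q2 : 0 < gq z y c := lt_of_lt_of_le p2 (gq_le hy)
  have q2' : gq z c y = gq z y c := by unfold gq; rw [dist_comm c y]; ring
  have r1 := gq_ultra A.isRTree z x c a
  have r2 := gq_ultra A.isRTree z x y c
  rw [(btw_iff_gq _ _ _).1 hz, q2'] at r2
  have r3 : 0 < gq z x c := lt_of_lt_of_le (lt_min q1 p3) r1
  exact absurd (lt_of_lt_of_le (lt_min r3 q2) r2) (lt_irrefl _)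

theorem span_smul (A : FTree M) (η : FreeGroup (Fin N) →* FreeGroup (Fin M)) (o : A.T)
    (g : FreeGroup (Fin N)) {x : A.T} (hx : x ∈ Span A η o) : η g • x ∈ Span A η o := by
  obtain ⟨a, b, h⟩ := hx
  refine ⟨g * a, g * b, ?_⟩
  rw [map_mul, map_mul, mul_smul, mul_smul, btw_smul]
  exact h

theorem base_mem (A : FTree M) (η : FreeGroup (Fin N) →* FreeGroup (Fin M)) (o : A.T)
    (g : FreeGroup (Fin N)) : η g • o ∈ Span A η o := ⟨g, g, by unfold Btw; simp⟩

theorem base_mem' (A : FTree M) (η : FreeGroup (Fin N) →* FreeGroup (Fin M)) (o : A.T) :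
    o ∈ Span A η o := by
  have := base_mem A η o 1
  rwa [map_one, one_smul] at this

instance actSpan (A : FTree M) (η : FreeGroup (Fin N) →* FreeGroup (Fin M)) (o : A.T) :
    MulAction (FreeGroup (Fin N)) (Span A η o) where
  smul g x := ⟨η g • x.1, span_smul A η o g x.2⟩
  one_smul x := by
    apply Subtype.ext
    show η 1 • x.1 = x.1
    rw [map_one, one_smul]
  mul_smul g h x := by
    apply Subtype.ext
    show η (g * h) • x.1 = η g • η h • x.1
    rw [map_mul, mul_smul]

/-- the action of a subgroup on the subtree spanned by an orbit -/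
noncomputable def restr (A : FTree M) (η : FreeGroup (Fin N) →* FreeGroup (Fin M)) (o : A.T) :
    FTree N where
  T := Span A η o
  metric := inferInstance
  action := actSpan A η o
  isometric g x y := A.isometric (η g) x.1 y.1
  isRTree :=
    { nonempty := ⟨⟨o, base_mem' A η o⟩⟩
      geodesic := by
        intro x y
        obtain ⟨γ, h0, h1, h2⟩ := A.isRTree.geodesic x.1 y.1
        have hd : dist x y = dist x.1 y.1 := rfl
        have hmem : ∀ t ∈ Set.Icc 0 (dist x y), γ t ∈ Span A η o := by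
          intro t ht
          rw [hd] at ht
          apply span_convex A η o x.2 y.2
          unfold Btw
          have a1 := h2 0 ⟨le_rfl, dist_nonneg⟩ t ht
          have a2 := h2 t ht (dist x.1 y.1) ⟨dist_nonneg, le_rfl⟩
          rw [h0] at a1
          rw [h1] at a2
          rw [a1, a2, zero_sub, abs_neg, abs_of_nonneg ht.1, abs_sub_comm,
            abs_of_nonneg (by linarith [ht.2])]
          ring
        classical
        let γ' : ℝ → Span A η o := fun t => if h : γ t ∈ Span A η o then ⟨γ t, h⟩ else x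
        have key : ∀ t (ht : t ∈ Set.Icc 0 (dist x y)), γ' t = ⟨γ t, hmem t ht⟩ :=
          fun t ht => dif_pos (hmem t ht)
        refine ⟨γ', ?_, ?_, ?_⟩
        · rw [key 0 ⟨le_rfl, dist_nonneg⟩]
          exact Subtype.ext h0
        · rw [key (dist x y) ⟨dist_nonneg, le_rfl⟩]
          exact Subtype.ext h1
        · intro s hs t ht
          rw [key s hs, key t ht]
          exact h2 s hs t ht
      zeroHyperbolic := fun x y z w => A.isRTree.zeroHyperbolic x.1 y.1 z.1 w.1 }

theorem restr_len (A : FTree M) (η : FreeGroup (Fin N) →* FreeGroup (Fin M)) (o : A.T)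
    (g : FreeGroup (Fin N)) : (restr A η o).len g = A.len (η g) := by
  rw [FTree.len_eq (restr A η o) g ⟨o, base_mem' A η o⟩, FTree.len_eq A (η g) o]
  rfl

theorem restr_free (A : FTree M) (η : FreeGroup (Fin N) →* FreeGroup (Fin M)) (o : A.T)
    (h : ∀ g, g ≠ 1 → 0 < A.len (η g)) : (restr A η o).Free := by
  intro g x hx
  by_contra hg
  have h1 := (restr A η o).le_dist g x
  rw [hx, dist_self, restr_len] at h1
  exact absurd (h g hg) (not_lt.2 h1)

theorem restr_discrete (A : FTree M) (η : FreeGroup (Fin N) →* FreeGroup (Fin M)) (o : A.T)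
    {ε : ℝ} (hε : 0 < ε) (h : ∀ g, g ≠ 1 → ε ≤ A.len (η g)) : (restr A η o).DiscreteOrbits := by
  intro x
  refine ⟨ε, hε, fun g hg => ?_⟩
  have hg1 : g ≠ 1 := by
    rintro rfl
    exact hg (one_smul _ _)
  have h1 := (restr A η o).le_dist g x
  rw [restr_len] at h1
  exact (h g hg1).trans h1

/-- a criterion for minimality -/
theorem minimal_of (A : FTree N) (o : A.T) (h : FreeGroup (Fin N)) (hpos : 0 < dist o (h • o))
    (hpow : ∀ n : ℕ, dist o (h ^ n • o) = n * dist o (h • o))
    (hspan : ∀ f : A.T, ∃ a b : FreeGroup (Fin N), Btw (a • o) f (b • o)) : A.Minimal := by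
  intro Y hne hconv hinv
  obtain ⟨y, hy⟩ := hne
  have hiso := A.isometric
  set r := dist o (h • o) with hr
  obtain ⟨n, hn⟩ := exists_nat_gt (dist o y / r)
  have hn' : dist o y < n * r := by
    rwa [div_lt_iff₀ hpos] at hn
  have e1 : dist o (h ^ n • o) = n * r := hpow n
  have e2 : dist o ((h ^ n)⁻¹ • o) = n * r := by
    rw [← hiso (h ^ n) o, smul_inv_smul, dist_comm, e1]
  have e3 : dist ((h ^ n)⁻¹ • o) (h ^ n • o) = 2 * (n * r) := by
    rw [← hiso (h ^ n), smul_inv_smul, ← mul_smul, ← pow_add, hpow]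
    push_cast; ring
  have e4 : dist (h ^ n • o) (h ^ n • y) = dist o y := hiso _ _ _
  have e5 : dist ((h ^ n)⁻¹ • o) ((h ^ n)⁻¹ • y) = dist o y := hiso _ _ _
  have ho : o ∈ Y := by
    apply hconv ((h ^ n)⁻¹ • y) (hinv _ y hy) (h ^ n • y) (hinv _ y hy)
    have q1 := A.isRTree.zeroHyperbolic ((h ^ n)⁻¹ • o) (h ^ n • y) o (h ^ n • o)
    have q2 := A.isRTree.zeroHyperbolic ((h ^ n)⁻¹ • o) (h ^ n • y) o ((h ^ n)⁻¹ • y)
    have q3 := A.isRTree.zeroHyperbolic ((h ^ n)⁻¹ • o) (h ^ n • o) o (h ^ n • y)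
    have t0 := dist_triangle ((h ^ n)⁻¹ • y) o (h ^ n • y)
    have t1 := dist_triangle o (h ^ n • o) (h ^ n • y)
    have t2 := dist_triangle o (h ^ n • y) (h ^ n • o)
    have t3 := dist_triangle o ((h ^ n)⁻¹ • y) ((h ^ n)⁻¹ • o)
    have t4 := dist_triangle ((h ^ n)⁻¹ • o) o (h ^ n • y)
    rw [dist_comm (h ^ n • y) (h ^ n • o)] at t2
    rw [dist_comm ((h ^ n)⁻¹ • y) ((h ^ n)⁻¹ • o)] at t3
    rw [dist_comm ((h ^ n)⁻¹ • o) o] at t4
    rw [dist_comm ((h ^ n)⁻¹ • o) o, dist_comm (h ^ n • y) (h ^ n • o),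
      dist_comm (h ^ n • y) o] at q1
    rw [dist_comm ((h ^ n)⁻¹ • o) o, dist_comm (h ^ n • y) ((h ^ n)⁻¹ • y),
      dist_comm (h ^ n • y) o] at q2
    rw [dist_comm ((h ^ n)⁻¹ • o) o, dist_comm (h ^ n • o) o] at q3
    rw [e1, e2, e4, e3] at q1
    rw [e2, e5] at q2
    rw [e1, e2, e3, e4] at q3
    rw [e1, e4] at t1 t2
    rw [e2, e5] at t3
    rw [e2] at t4
    apply le_antisymm ?_ t0
    have f1 : dist ((h ^ n)⁻¹ • o) (h ^ n • y) = n * r + dist o (h ^ n • y) := by
      apply le_antisymm t4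
      rcases max_cases (n * r + dist o y)
        (dist ((h ^ n)⁻¹ • o) (h ^ n • y) + n * r) with hm | hm
      · rw [hm.1] at q3; nlinarith
      · rw [hm.1] at q3; linarith
    rw [f1] at q2
    rw [dist_comm ((h ^ n)⁻¹ • y) o]
    rcases max_cases (n * r + dist ((h ^ n)⁻¹ • y) (h ^ n • y))
      (dist o y + dist o (h ^ n • y)) with hm | hm
    · rw [hm.1] at q2; linarith
    · rw [hm.1] at q2; linarith
  have hall : ∀ g : FreeGroup (Fin N), g • o ∈ Y := fun g => hinv g o ho
  ext f
  simp only [Set.mem_univ, iff_true]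
  obtain ⟨a, b, hab⟩ := hspan f
  exact hconv _ (hall a) _ (hall b) f hab

/-- the segments `[x i, y i]` are the edges of a fundamental domain: they are nondegenerate, every
point has a translate on one of them, and an interior point of one of them has no other translate
on any of them. -/
structure IsEdgeDomain (A : FTree N) {n : ℕ} (x y : Fin n → A.T) : Prop where
  ne : ∀ i, x i ≠ y i
  cover : ∀ z : A.T, ∃ (g : FreeGroup (Fin N)) (i : Fin n), Btw (x i) (g • z) (y i)
  disj : ∀ (i j : Fin n) (g : FreeGroup (Fin N)) (z : A.T), Btw (x i) z (y i) → z ≠ x i →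
    z ≠ y i → Btw (x j) (g • z) (y j) → g = 1 ∧ i = j

/-- the quotient of the tree is a finite metric graph, the lengths of whose edges sum to `c` -/
def HasCovolume (A : FTree N) (c : ℝ) : Prop :=
  ∃ (n : ℕ) (x y : Fin n → A.T), IsEdgeDomain A x y ∧ ∑ i, dist (x i) (y i) = c

/-- the same tree with the action twisted by an automorphism -/
noncomputable def twist (A : FTree N) (θ : FreeGroup (Fin N) ≃* FreeGroup (Fin N)) : FTree N where
  T := A.T
  metric := A.metric
  action := MulAction.compHom A.T θ.toMonoidHom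
  isometric g x y := A.isometric (θ g) x y
  isRTree := A.isRTree

theorem twist_len (A : FTree N) (θ : FreeGroup (Fin N) ≃* FreeGroup (Fin N))
    (g : FreeGroup (Fin N)) : (twist A θ).len g = A.len (θ g) := rfl

theorem twist_inCV {A : FTree N} (h : A.InCV) (θ : FreeGroup (Fin N) ≃* FreeGroup (Fin N)) :
    (twist A θ).InCV := by
  obtain ⟨h1, h2, h3⟩ := h
  refine ⟨?_, ?_, ?_⟩
  · intro g x hx
    have := h1 (θ g) x hx
    exact (map_eq_one_iff θ θ.injective).1 this
  · intro Y hne hconv hinv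
    apply h2 Y hne hconv
    intro g y hy
    have h5 : θ (θ.symm g) • (y : A.T) ∈ Y := hinv (θ.symm g) y hy
    rwa [MulEquiv.apply_symm_apply] at h5
  · intro x
    obtain ⟨ε, hε, h⟩ := h3 x
    exact ⟨ε, hε, fun g hg => h (θ g) hg⟩

theorem twist_aux (A : FTree N) (θ : FreeGroup (Fin N) ≃* FreeGroup (Fin N)) (x y z : A.T)
    (g : FreeGroup (Fin N)) (h : Btw x (g • z) y) :
    @Btw (twist A θ).T (twist A θ).metric x
      (@HSMul.hSMul (FreeGroup (Fin N)) (twist A θ).T (twist A θ).T _ (θ.symm g) z) y := by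
  have h5 : Btw x (θ (θ.symm g) • z) y := by
    rw [MulEquiv.apply_symm_apply]
    exact h
  exact h5

theorem twist_covolume {A : FTree N} {c : ℝ} (h : HasCovolume A c)
    (θ : FreeGroup (Fin N) ≃* FreeGroup (Fin N)) : HasCovolume (twist A θ) c := by
  obtain ⟨n, x, y, hd, hs⟩ := h
  refine ⟨n, x, y, ⟨hd.ne, ?_, ?_⟩, hs⟩
  · intro z
    obtain ⟨g, i, h⟩ := hd.cover z
    exact ⟨θ.symm g, i, twist_aux A θ _ _ _ g h⟩
  · intro i j g z h1 h2 h3 h4
    obtain ⟨h5, h6⟩ := hd.disj i j (θ g) z h1 h2 h3 h4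
    exact ⟨(map_eq_one_iff θ θ.injective).1 h5, h6⟩

end Pool.Agent.V1127.Cv
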