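import Mathlib

/-!
The circle `ℝ/2ℤ` as a one-dimensional manifold modelled on the half-line, and maps of the circle
induced by maps of the line.
-/

set_option autoImplicit false

namespace Pool.Agent.V1127.Det

open Set WithLp Filter Topology

/-- the circle -/
abbrev Circ : Type := AddCircle (2 : ℝ)

instance fact2 : Fact ((0 : ℝ) < 2) := ⟨two_pos⟩

/-- a chart of the circle -/
noncomputable def ch (a : ℝ) : OpenPartialHomeomorph Circ (EuclideanHalfSpace 1) where
  source := {((a : ℝ) : Circ)}ᶜ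
  target := {u | 0 < u.val 0 ∧ u.val 0 < 2}
  toFun z := ⟨toLp 2 fun _ => (AddCircle.equivIco 2 a z : ℝ) - a,
    sub_nonneg.mpr (AddCircle.equivIco 2 a z).2.1⟩
  invFun u := ((u.val 0 + a : ℝ) : Circ)
  map_source' z hz := by
    have h := (AddCircle.openPartialHomeomorphCoe (2 : ℝ) a).map_target (x := z) hz
    have h2 : (AddCircle.equivIco 2 a z : ℝ) ∈ Ioo a (a + 2) := h
    constructor
    · show 0 < (AddCircle.equivIco 2 a z : ℝ) - a
      linarith [h2.1]
    · show (AddCircle.equivIco 2 a z : ℝ) - a < 2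
      linarith [h2.2]
  map_target' u hu := by
    have h := (AddCircle.openPartialHomeomorphCoe (2 : ℝ) a).map_source (x := u.val 0 + a)
      ⟨by linarith [hu.1], by linarith [hu.2]⟩
    exact h
  left_inv' z hz := by
    have h := (AddCircle.openPartialHomeomorphCoe (2 : ℝ) a).right_inv (x := z) hz
    show (((AddCircle.equivIco 2 a z : ℝ) - a + a : ℝ) : Circ) = z
    rw [sub_add_cancel]
    exact h
  right_inv' u hu := by
    have h := (AddCircle.openPartialHomeomorphCoe (2 : ℝ) a).left_inv (x := u.val 0 + a)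
      ⟨by linarith [hu.1], by linarith [hu.2]⟩
    have h2 : (AddCircle.equivIco 2 a ((u.val 0 + a : ℝ) : Circ) : ℝ) = u.val 0 + a := h
    apply Subtype.ext
    ext i
    rw [Subsingleton.elim i 0]
    show (AddCircle.equivIco 2 a ((u.val 0 + a : ℝ) : Circ) : ℝ) - a = u.val 0
    rw [h2]
    ring
  open_source := isOpen_compl_singleton
  open_target := by
    have h0 : Continuous fun u : EuclideanHalfSpace 1 => u.val 0 :=
      (PiLp.continuous_apply 2 _ 0).comp continuous_subtype_val
    exact (isOpen_lt continuous_const h0).inter (isOpen_lt h0 continuous_const)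
  continuousOn_toFun := by
    have h := (AddCircle.openPartialHomeomorphCoe (2 : ℝ) a).continuousOn_symm
    have h1 : ContinuousOn (fun z : Circ => (AddCircle.equivIco 2 a z : ℝ)) {((a : ℝ) : Circ)}ᶜ := h
    have h2 : ContinuousOn (fun z : Circ => (toLp 2 fun _ => (AddCircle.equivIco 2 a z : ℝ) - a :
        EuclideanSpace ℝ (Fin 1))) {((a : ℝ) : Circ)}ᶜ := by
      apply (PiLp.continuous_toLp 2 _).comp_continuousOn
      exact continuousOn_pi.2 fun _ => h1.sub continuousOn_const
    exact continuousOn_iff_continuous_domRestrict.2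
      ((continuousOn_iff_continuous_domRestrict.1 h2).subtype_mk _)
  continuousOn_invFun := by
    have h0 : Continuous fun u : EuclideanHalfSpace 1 => u.val 0 :=
      (PiLp.continuous_apply 2 _ 0).comp continuous_subtype_val
    exact ((AddCircle.continuous_mk' (2 : ℝ)).comp (h0.add continuous_const)).continuousOn

theorem ch_apply (a : ℝ) (z : Circ) :
    (ch a z).val = toLp 2 fun _ => (AddCircle.equivIco 2 a z : ℝ) - a := rfl

theorem ch_symm_apply (a : ℝ) (u : EuclideanHalfSpace 1) :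
    (ch a).symm u = ((u.val 0 + a : ℝ) : Circ) := rfl

theorem ch_source (a : ℝ) : (ch a).source = {((a : ℝ) : Circ)}ᶜ := rfl

theorem ch_target (a : ℝ) : (ch a).target = {u | 0 < u.val 0 ∧ u.val 0 < 2} := rfl

theorem local_lift (b t0 : ℝ) (h : ((t0 : ℝ) : Circ) ≠ (b : ℝ)) :
    ∃ m : ℝ, ∀ᶠ t in 𝓝 t0, (AddCircle.equivIco 2 b ((t : ℝ) : Circ) : ℝ) = t - m := by
  have hp : (0 : ℝ) < 2 := two_pos
  have e : ∀ t : ℝ, (AddCircle.equivIco 2 b ((t : ℝ) : Circ) : ℝ) = toIcoMod hp b t := fun t => rfl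
  set m : ℤ := toIcoDiv hp b t0 with hm
  have h1 : t0 - m • (2 : ℝ) ∈ Ico b (b + 2) := sub_toIcoDiv_zsmul_mem_Ico hp b t0
  have h2 : t0 - m • (2 : ℝ) ≠ b := by
    intro h2
    apply h
    rw [← h2]
    rw [AddCircle.coe_sub, AddCircle.coe_zsmul, AddCircle.coe_period, smul_zero, sub_zero]
  have h3 : t0 - m • (2 : ℝ) ∈ Ioo b (b + 2) := ⟨lt_of_le_of_ne h1.1 (Ne.symm h2), h1.2⟩
  have h4 : ∀ᶠ t in 𝓝 t0, t - m • (2 : ℝ) ∈ Ioo b (b + 2) :=
    (continuous_id.sub continuous_const).continuousAt.eventually (isOpen_Ioo.mem_nhds h3)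
  refine ⟨m • (2 : ℝ), h4.mono fun t ht => ?_⟩
  rw [e, toIcoMod, toIcoDiv_eq_of_sub_zsmul_mem_Ico hp (Ioo_subset_Ico_self ht)]

theorem coe_surj (z : Circ) : ∃ x : ℝ, ((x : ℝ) : Circ) = z := by
  induction z using QuotientAddGroup.induction_on with
  | H x => exact ⟨x, rfl⟩

/-- a representative -/
noncomputable def rep (z : Circ) : ℝ := (coe_surj z).choose

theorem rep_spec (z : Circ) : ((rep z : ℝ) : Circ) = z := (coe_surj z).choose_spec

theorem rep_ne (z : Circ) : z ≠ ((rep z - 1 : ℝ) : Circ) := by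
  intro h
  have h1 : ((rep z : ℝ) : Circ) = ((rep z - 1 : ℝ) : Circ) := by rw [rep_spec]; exact h
  have h2 : (((1 : ℝ)) : Circ) = 0 := by
    rw [AddCircle.coe_sub] at h1
    have := sub_eq_self.1 h1.symm
    exact this
  rw [AddCircle.coe_eq_zero_iff] at h2
  obtain ⟨n, hn⟩ := h2
  have h3 : (n : ℝ) * 2 = 1 := by rw [← hn]; simp
  have h4 : n * 2 = 1 := by exact_mod_cast h3
  omega

/-- the charted space structure of the circle -/
@[instance_reducible]
noncomputable def circCS : ChartedSpace (EuclideanHalfSpace 1) Circ where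
  atlas := Set.range ch
  chartAt z := ch (rep z - 1)
  mem_chart_source z := rep_ne z
  chart_mem_atlas z := ⟨_, rfl⟩

theorem symm_coord (u : EuclideanSpace ℝ (Fin 1)) :
    ((modelWithCornersEuclideanHalfSpace 1).symm u).val 0 = max (u 0) 0 := by
  rw [modelWithCornersEuclideanHalfSpace_symm_apply]
  simp

/-- smoothness of the transition functions -/
theorem smooth_loc {n : WithTop ℕ∞} {F : ℝ → ℝ} (hF : ContDiff ℝ n F) (a b : ℝ)
    (u0 : EuclideanSpace ℝ (Fin 1)) (hu : 0 < u0 0)
    (hb : ((F (u0 0 + a) : ℝ) : Circ) ≠ (b : ℝ)) :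
    ContDiffAt ℝ n (fun u => (ch b ((F (((modelWithCornersEuclideanHalfSpace 1).symm u).val 0 + a) :
      ℝ) : Circ)).val) u0 := by
  obtain ⟨m, hm⟩ := local_lift b _ hb
  have hc : Continuous fun u : EuclideanSpace ℝ (Fin 1) => F (u 0 + a) :=
    hF.continuous.comp ((PiLp.continuous_apply 2 _ 0).add continuous_const)
  have h1 := (hc.continuousAt (x := u0)).eventually hm
  have h2 : ∀ᶠ u : EuclideanSpace ℝ (Fin 1) in 𝓝 u0, 0 < u 0 :=
    ((PiLp.continuous_apply 2 _ 0).continuousAt (x := u0)).eventually (isOpen_Ioi.mem_nhds hu)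
  have h3 : ContDiffAt ℝ n (fun u : EuclideanSpace ℝ (Fin 1) =>
      (toLp 2 fun _ => F (u 0 + a) - m - b : EuclideanSpace ℝ (Fin 1))) u0 := by
    apply ContDiff.contDiffAt
    apply contDiff_euclidean.2
    intro i
    have h4 : ContDiff ℝ n (fun u : EuclideanSpace ℝ (Fin 1) => u 0) :=
      contDiff_euclidean.1 contDiff_id 0
    exact ((hF.comp (h4.add contDiff_const)).sub contDiff_const).sub contDiff_const
  apply h3.congr_of_eventuallyEq
  filter_upwards [h1, h2] with u hu1 hu2
  rw [ch_apply, symm_coord, max_eq_left hu2.le]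
  rw [hu1]

theorem circManifold {n : WithTop ℕ∞} :
    @IsManifold ℝ _ _ _ _ _ _ (modelWithCornersEuclideanHalfSpace 1) n Circ _ circCS := by
  letI := circCS
  apply isManifold_of_contDiffOn
  rintro _ _ ⟨a, rfl⟩ ⟨b, rfl⟩
  intro u hu
  obtain ⟨hu1, hu2⟩ := hu
  have h1 : (modelWithCornersEuclideanHalfSpace 1).symm u ∈ ((ch a).symm.trans (ch b)).source := hu1
  rw [OpenPartialHomeomorph.trans_source] at h1
  obtain ⟨h3, h4⟩ := h1
  have h5 : 0 < max (u 0) 0 := by
    have := h3.1
    rwa [symm_coord] at this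
  have h6 : 0 < u 0 := by
    rcases max_cases (u 0) 0 with h | h
    · rw [h.1] at h5; exact h5
    · rw [h.1] at h5; exact absurd h5 (lt_irrefl _)
  have h7 : ((u 0 + a : ℝ) : Circ) ≠ (b : ℝ) := by
    have h8 : ((((modelWithCornersEuclideanHalfSpace 1).symm u).val 0 + a : ℝ) : Circ) ≠ (b : ℝ) := h4
    rwa [symm_coord, max_eq_left h6.le] at h8
  exact (smooth_loc (F := id) contDiff_id a b u h6 h7).contDiffWithinAt

theorem smooth_of_lift {n : WithTop ℕ∞} {F : ℝ → ℝ} (hF : ContDiff ℝ n F) (f : Circ → Circ)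
    (hf : ∀ x : ℝ, f ((x : ℝ) : Circ) = ((F x : ℝ) : Circ)) :
    letI := circCS
    ContMDiff (modelWithCornersEuclideanHalfSpace 1) (modelWithCornersEuclideanHalfSpace 1) n f := by
  letI := circCS
  intro z
  rw [contMDiffAt_iff]
  have hcont : Continuous f := by
    have h1 : Continuous (f ∘ ((↑) : ℝ → Circ)) := by
      have : f ∘ ((↑) : ℝ → Circ) = ((↑) : ℝ → Circ) ∘ F := funext hf
      rw [this]
      exact (AddCircle.continuous_mk' (2 : ℝ)).comp hF.continuous
    exact (QuotientAddGroup.isQuotientMap_mk _).continuous_iff.2 h1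
  refine ⟨hcont.continuousAt, ?_⟩
  set a := rep z - 1 with ha
  set b := rep (f z) - 1 with hb
  set u0 : EuclideanSpace ℝ (Fin 1) := (ch a z).val with hu0
  have h1 : ch a z ∈ (ch a).target := (ch a).map_source (rep_ne z)
  have h2 : 0 < u0 0 := h1.1
  have h3 : ((u0 0 + a : ℝ) : Circ) = z := (ch a).left_inv (rep_ne z)
  have h4 : ((F (u0 0 + a) : ℝ) : Circ) ≠ (b : ℝ) := by
    rw [← hf, h3]
    exact rep_ne (f z)
  have h5 := (smooth_loc hF a b u0 h2 h4).contDiffWithinAt (s := range
    (modelWithCornersEuclideanHalfSpace 1))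
  have h6 : (fun u => (ch b ((F (((modelWithCornersEuclideanHalfSpace 1).symm u).val 0 + a) :
      ℝ) : Circ)).val) = (extChartAt (modelWithCornersEuclideanHalfSpace 1) (f z) ∘ f ∘
        (extChartAt (modelWithCornersEuclideanHalfSpace 1) z).symm) := by
    funext u
    rw [← hf]
    rfl
  rw [h6] at h5
  exact h5

end Pool.Agent.V1127.Det
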