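import Mathlib

/-!
Smoothness of `θ ↦ ∫₀¹ t^j φ(c + t w(θ)) dt` when `φ` is smooth on `[0,1]`.
-/

set_option autoImplicit false

namespace Pool.Agent.V1127.Det

open Set Filter Topology MeasureTheory

theorem param_smooth {w : ℝ → ℝ} (hw : ∀ m : ℕ, ContDiff ℝ m w) {c : ℝ}
    (hmem : ∀ x : ℝ, ∀ t ∈ Icc (0 : ℝ) 1, c + t * w x ∈ Icc (0 : ℝ) 1) (m : ℕ) :
    ∀ (φ : ℝ → ℝ), ContDiffOn ℝ m φ (Icc 0 1) → ∀ j : ℕ,
      ContDiff ℝ m (fun x : ℝ => ∫ t in (0 : ℝ)..1, t ^ j * φ (c + t * w x)) := by
  have hwc : Continuous w := (hw 0).continuous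
  have huIoc : Set.uIoc (0 : ℝ) 1 ⊆ Icc 0 1 := by
    rw [uIoc_of_le zero_le_one]; exact Ioc_subset_Icc_self
  have huIcc : Set.uIcc (0 : ℝ) 1 = Icc 0 1 := uIcc_of_le zero_le_one
  induction m with
  | zero =>
    intro φ hφ j
    rw [Nat.cast_zero, contDiff_zero]
    have hφc : ContinuousOn φ (Icc 0 1) := hφ.continuousOn
    let ψ : ℝ → ℝ := fun y => φ (projIcc 0 1 zero_le_one y)
    have hψ : Continuous ψ :=
      hφc.comp_continuous (continuous_subtype_val.comp continuous_projIcc) (fun y => (projIcc 0 1 zero_le_one y).2)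
    have h1 : (fun x : ℝ => ∫ t in (0 : ℝ)..1, t ^ j * φ (c + t * w x)) =
        fun x : ℝ => ∫ t in (0 : ℝ)..1, t ^ j * ψ (c + t * w x) := by
      funext x
      apply intervalIntegral.integral_congr
      intro t ht
      rw [huIcc] at ht
      show t ^ j * φ (c + t * w x) = t ^ j * φ (projIcc 0 1 zero_le_one (c + t * w x))
      rw [projIcc_of_mem zero_le_one (hmem x t ht)]
    rw [h1]
    apply intervalIntegral.continuous_parametric_intervalIntegral_of_continuous'
    show Continuous fun q : ℝ × ℝ => q.2 ^ j * ψ (c + q.2 * w q.1)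
    exact (continuous_snd.pow j).mul (hψ.comp (continuous_const.add
      (continuous_snd.mul (hwc.comp continuous_fst))))
  | succ m ih =>
    intro φ hφ j
    rw [Nat.cast_add, Nat.cast_one] at hφ ⊢
    have hφ2 := (contDiffOn_succ_iff_derivWithin (uniqueDiffOn_Icc one_pos)).1 hφ
    obtain ⟨hd, -, hφ'⟩ := hφ2
    set φ' := derivWithin φ (Icc 0 1) with hφ'def
    have hφc : ContinuousOn φ (Icc 0 1) := hφ.continuousOn
    have hφ'c : ContinuousOn φ' (Icc 0 1) := hφ'.continuousOn
    have hwd : Differentiable ℝ w := (hw 1).differentiable one_ne_zero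
    have hw'c : Continuous (deriv w) := (hw 1).continuous_deriv le_rfl
    obtain ⟨M, hM⟩ := (isCompact_Icc.exists_bound_of_continuousOn hφ'c)
    have hder : ∀ x0 : ℝ, HasDerivAt (fun x : ℝ => ∫ t in (0 : ℝ)..1, t ^ j * φ (c + t * w x))
        (∫ t in (0 : ℝ)..1, t ^ (j + 1) * φ' (c + t * w x0) * deriv w x0) x0 := by
      intro x0
      obtain ⟨M', hM'⟩ := ((isCompact_closedBall x0 1).exists_bound_of_continuousOn
        hw'c.continuousOn)
      have hcont : ∀ (x : ℝ) (χ : ℝ → ℝ), ContinuousOn χ (Icc 0 1) →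
          ContinuousOn (fun t : ℝ => χ (c + t * w x)) (Icc 0 1) := by
        intro x χ hχ
        exact hχ.comp (by fun_prop) (fun t ht => hmem x t ht)
      refine (intervalIntegral.hasDerivAt_integral_of_dominated_loc_of_deriv_le
        (F := fun x t => t ^ j * φ (c + t * w x))
        (F' := fun x t => t ^ (j + 1) * φ' (c + t * w x) * deriv w x)
        (s := Metric.closedBall x0 1) (bound := fun _ => M * M') (a := 0) (b := 1)
        (Metric.closedBall_mem_nhds x0 one_pos) ?_ ?_ ?_ ?_ ?_ ?_).2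
      · filter_upwards with x
        have h1 : ContinuousOn (fun t : ℝ => t ^ j * φ (c + t * w x)) (Icc 0 1) :=
          (continuousOn_id.pow j).mul (hcont x φ hφc)
        exact (h1.mono huIoc).aestronglyMeasurable measurableSet_uIoc
      · have h1 : ContinuousOn (fun t : ℝ => t ^ j * φ (c + t * w x0)) (Icc 0 1) :=
          (continuousOn_id.pow j).mul (hcont x0 φ hφc)
        rw [← huIcc] at h1
        exact h1.intervalIntegrable
      · have h1 : ContinuousOn (fun t : ℝ => t ^ (j + 1) * φ' (c + t * w x0) * deriv w x0)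
            (Icc 0 1) :=
          ((continuousOn_id.pow (j + 1)).mul (hcont x0 φ' hφ'c)).mul continuousOn_const
        exact (h1.mono huIoc).aestronglyMeasurable measurableSet_uIoc
      · filter_upwards with t ht x hx
        have ht' : t ∈ Icc (0 : ℝ) 1 := huIoc ht
        rw [norm_mul, norm_mul]
        have a1 : ‖t ^ (j + 1)‖ ≤ 1 := by
          rw [norm_pow, Real.norm_of_nonneg ht'.1]
          exact pow_le_one₀ ht'.1 ht'.2
        have a2 : ‖φ' (c + t * w x)‖ ≤ M := hM _ (hmem x t ht')
        have a3 : ‖deriv w x‖ ≤ M' := hM' x hx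
        have a4 : ‖t ^ (j + 1)‖ * ‖φ' (c + t * w x)‖ ≤ 1 * M :=
          mul_le_mul a1 a2 (norm_nonneg _) zero_le_one
        have a5 : 0 ≤ 1 * M := le_trans (by positivity) a4
        calc ‖t ^ (j + 1)‖ * ‖φ' (c + t * w x)‖ * ‖deriv w x‖ ≤ (1 * M) * M' :=
              mul_le_mul a4 a3 (norm_nonneg _) a5
          _ = M * M' := by ring
      · exact intervalIntegrable_const
      · filter_upwards with t ht x hx
        have ht' : t ∈ Icc (0 : ℝ) 1 := huIoc ht
        have h1 : HasDerivWithinAt φ (φ' (c + t * w x)) (Icc 0 1) (c + t * w x) :=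
          (hd _ (hmem x t ht')).hasDerivWithinAt
        have h2 : HasDerivAt (fun x => c + t * w x) (t * deriv w x) x :=
          ((hwd x).hasDerivAt.const_mul t).const_add c
        have h3 := h1.scomp_hasDerivAt x h2 (fun y => hmem y t ht')
        have h4 := h3.const_mul (t ^ j)
        have e : t ^ j * (t * deriv w x) • φ' (c + t * w x) =
            t ^ (j + 1) * φ' (c + t * w x) * deriv w x := by
          rw [smul_eq_mul]; ring
        rw [e] at h4
        exact h4
    rw [contDiff_succ_iff_deriv]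
    refine ⟨fun x => (hder x).differentiableAt, ?_, ?_⟩
    · intro h
      exact absurd h (by exact_mod_cast (WithTop.coe_ne_top))
    · have h1 : deriv (fun x : ℝ => ∫ t in (0 : ℝ)..1, t ^ j * φ (c + t * w x)) =
          fun x => (∫ t in (0 : ℝ)..1, t ^ (j + 1) * φ' (c + t * w x)) * deriv w x := by
        funext x
        rw [(hder x).deriv, intervalIntegral.integral_mul_const]
      rw [h1]
      have h2 : ContDiff ℝ m (deriv w) := by
        have h3 := hw (m + 1)
        rw [Nat.cast_add, Nat.cast_one] at h3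
        exact (contDiff_succ_iff_deriv.1 h3).2.2
      exact (ih φ' hφ' (j + 1)).mul h2

end Pool.Agent.V1127.Det
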