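import Pool.Agent.V1127.DetDouble
import Pool.Agent.V1127.DetParam

/-!
The double of a `C^k` diffeomorphism of `[0,1]` in the coordinate `x = (1 - cos πθ)/2` is a `C^k`
map of the circle, for every `k`.
-/

set_option autoImplicit false

namespace Pool.Agent.V1127.Det

open Set WithLp Filter Topology MeasureTheory Real

/-- the folding coordinate -/
noncomputable def pp (x : ℝ) : ℝ := (1 - cos (π * x)) / 2

theorem pp_mem (x : ℝ) : pp x ∈ Icc (0 : ℝ) 1 := by
  constructor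
  · unfold pp; linarith [cos_le_one (π * x)]
  · unfold pp; linarith [neg_one_le_cos (π * x)]

theorem pp_neg (x : ℝ) : pp (-x) = pp x := by
  unfold pp; rw [mul_neg, cos_neg]

theorem pp_periodic (x : ℝ) : pp (x + 2) = pp x := by
  unfold pp
  have e : π * (x + 2) = π * x + 2 * π := by ring
  rw [e, cos_add_two_pi]

theorem pp_smooth {n : WithTop ℕ∞} : ContDiff ℝ n pp := by
  unfold pp
  fun_prop

theorem pp_hasDeriv (x : ℝ) : HasDerivAt pp (π / 2 * sin (π * x)) x := by
  have h1 : HasDerivAt (fun x : ℝ => π * x) π x := by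
    simpa using (hasDerivAt_id x).const_mul π
  have h2 := (h1.cos.const_sub 1).div_const 2
  have e : -(-sin (π * x) * π) / 2 = π / 2 * sin (π * x) := by ring
  rw [e] at h2
  exact h2

theorem pp_zero : pp 0 = 0 := by simp [pp]
theorem pp_one : pp 1 = 1 := by simp [pp]

theorem arccos_mem (x : ℝ) : arccos (1 - 2 * x) / π ∈ Icc (0 : ℝ) 1 := by
  constructor
  · exact div_nonneg (arccos_nonneg _) pi_pos.le
  · rw [div_le_one pi_pos]; exact arccos_le_pi _

/-- the folding coordinate as a bijection of the interval -/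
noncomputable def PJ : J ≃ J where
  toFun y := ⟨pp y, pp_mem y⟩
  invFun x := ⟨arccos (1 - 2 * (x : ℝ)) / π, arccos_mem x⟩
  left_inv y := by
    apply Subtype.ext
    show arccos (1 - 2 * pp y) / π = y
    have e : 1 - 2 * pp y = cos (π * y) := by unfold pp; ring
    rw [e, arccos_cos (mul_nonneg pi_pos.le y.2.1) (by nlinarith [y.2.2, pi_pos])]
    field_simp
  right_inv x := by
    apply Subtype.ext
    show pp (arccos (1 - 2 * (x : ℝ)) / π) = x
    unfold pp
    have e : π * (arccos (1 - 2 * (x : ℝ)) / π) = arccos (1 - 2 * (x : ℝ)) := by field_simp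
    rw [e, cos_arccos (by linarith [x.2.2]) (by linarith [x.2.1])]
    ring

/-- derivative -/
noncomputable def Dp (f : J → J) : ℝ → ℝ := derivWithin (F0 f) (Icc 0 1)

/-- averages of the derivative -/
noncomputable def AA (f : J → J) (c x : ℝ) : ℝ := ∫ t in (0 : ℝ)..1, Dp f (c + t * (pp x - c))

/-- the derivative in the new coordinate -/
noncomputable def RR (f : J → J) (x : ℝ) : ℝ := Dp f (pp x) / √(AA f 0 x * AA f 1 x)

/-- the map in the new coordinate -/
noncomputable def Fs (f : J → J) (x : ℝ) : ℝ := arccos (1 - 2 * F0 f (pp x)) / π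

/-- its extension -/
noncomputable def GG (f : J → J) (x : ℝ) : ℝ := Fs f 0 + ∫ t in (0 : ℝ)..x, RR f t

theorem AA_neg (f : J → J) (c x : ℝ) : AA f c (-x) = AA f c x := by
  unfold AA; rw [pp_neg]

theorem RR_neg (f : J → J) (x : ℝ) : RR f (-x) = RR f x := by
  unfold RR; rw [AA_neg, AA_neg, pp_neg]

theorem RR_periodic (f : J → J) : Function.Periodic (RR f) 2 := by
  intro x
  unfold RR AA
  rw [pp_periodic]

/-- diffeomorphisms of the interval -/
structure Dif (k : WithTop ℕ∞) (f : Equiv.Perm J) : Prop where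
  smooth : ContMDiff (modelWithCornersEuclideanHalfSpace 1) (modelWithCornersEuclideanHalfSpace 1)
    k f
  smooth' : ContMDiff (modelWithCornersEuclideanHalfSpace 1) (modelWithCornersEuclideanHalfSpace 1)
    k f.symm

theorem F0_smooth' {k : WithTop ℕ∞} {f : J → J}
    (hf : ContMDiff (modelWithCornersEuclideanHalfSpace 1) (modelWithCornersEuclideanHalfSpace 1)
      k f) : ContDiffOn ℝ k (F0 f) (Icc 0 1) := by
  have : Fact ((0 : ℝ) < 1) := ⟨one_pos⟩
  rw [← contMDiffOn_iff_contDiffOn]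
  have h1 := (contMDiff_subtypeVal_Icc (x := (0 : ℝ)) (y := 1) (n := k)).comp hf
  exact h1.comp_contMDiffOn contMDiffOn_projIcc

section

variable {f : Equiv.Perm J} (h : Dif 1 f)

include h

theorem Dp_cont : ContinuousOn (Dp f) (Icc 0 1) :=
  (F0_smooth' h.smooth).continuousOn_derivWithin (uniqueDiffOn_Icc one_pos) le_rfl

theorem Dp_has {x : ℝ} (hx : x ∈ Icc (0 : ℝ) 1) :
    HasDerivWithinAt (F0 f) (Dp f x) (Icc 0 1) x :=
  ((F0_smooth' h.smooth).differentiableOn one_ne_zero x hx).hasDerivWithinAt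

theorem Dp_ne {x : ℝ} (hx : x ∈ Icc (0 : ℝ) 1) : Dp f x ≠ 0 := by
  have h' : Dif 1 f.symm := ⟨h.smooth', h.smooth⟩
  have h1 := Dp_has h hx
  have h2 := Dp_has h' (F0_mem f x)
  have h3 := h2.comp x h1 (fun y _ => F0_mem f y)
  have h4 : HasDerivWithinAt (fun y : ℝ => y) 1 (Icc (0 : ℝ) 1) x := hasDerivWithinAt_id x _
  have h5 : HasDerivWithinAt (fun y : ℝ => y) (Dp f.symm (F0 f x) * Dp f x) (Icc (0 : ℝ) 1) x := by
    apply h3.congr_of_mem _ hx
    intro y hy
    show y = F0 f.symm (F0 f y)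
    have e1 : F0 f y = ((f ⟨y, hy⟩ : J) : ℝ) := F0_coe f ⟨y, hy⟩
    rw [e1, F0_coe, Equiv.symm_apply_apply]
  have h6 := (uniqueDiffOn_Icc (one_pos : (0 : ℝ) < 1) x hx).eq_deriv _ h5 h4
  intro h0
  rw [h0, mul_zero] at h6
  exact zero_ne_one h6

theorem Dp_sign : (∀ x ∈ Icc (0 : ℝ) 1, Dp f x < 0) ∨ ∀ x ∈ Icc (0 : ℝ) 1, 0 < Dp f x :=
  hasDerivWithinAt_forall_lt_or_forall_gt_of_forall_ne (convex_Icc 0 1)
    (fun _ hx => Dp_has h hx) (fun _ hx => Dp_ne h hx)

theorem Dp_int {x : ℝ} (hx : x ∈ Icc (0 : ℝ) 1) :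
    ∫ t in (0 : ℝ)..x, Dp f t = F0 f x - F0 f 0 := by
  apply intervalIntegral.integral_eq_sub_of_hasDerivAt_of_le hx.1
    ((F0_smooth' h.smooth).continuousOn.mono (Icc_subset_Icc_right hx.2))
  · intro t ht
    have ht' : t ∈ Ioo (0 : ℝ) 1 := ⟨ht.1, lt_of_lt_of_le ht.2 hx.2⟩
    exact (Dp_has h (Ioo_subset_Icc_self ht')).hasDerivAt (Icc_mem_nhds ht'.1 ht'.2)
  · apply ContinuousOn.intervalIntegrable
    rw [uIcc_of_le hx.1]
    exact (Dp_cont h).mono (Icc_subset_Icc_right hx.2)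

theorem Dp_int' {x y : ℝ} (hx : x ∈ Icc (0 : ℝ) 1) (hy : y ∈ Icc (0 : ℝ) 1) :
    ∫ t in x..y, Dp f t = F0 f y - F0 f x := by
  have hi : ∀ z ∈ Icc (0 : ℝ) 1, IntervalIntegrable (Dp f) volume 0 z := by
    intro z hz
    apply ContinuousOn.intervalIntegrable
    rw [uIcc_of_le hz.1]
    exact (Dp_cont h).mono (Icc_subset_Icc_right hz.2)
  rw [← intervalIntegral.integral_interval_sub_left (hi y hy) (hi x hx), Dp_int h hy, Dp_int h hx]
  ring

theorem AA_eq {c : ℝ} (hc : c ∈ Icc (0 : ℝ) 1) (x : ℝ) :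
    (pp x - c) * AA f c x = F0 f (pp x) - F0 f c := by
  have h1 : AA f c x = ∫ t in (0 : ℝ)..1, Dp f (c + (pp x - c) * t) := by
    unfold AA
    congr 1
    funext t
    rw [mul_comm]
  rw [h1, intervalIntegral.mul_integral_comp_add_mul, mul_zero, add_zero, mul_one,
    add_sub_cancel, Dp_int' h hc (pp_mem x)]

omit h in
theorem seg_mem {c : ℝ} (hc : c ∈ Icc (0 : ℝ) 1) (x : ℝ) {t : ℝ} (ht : t ∈ Icc (0 : ℝ) 1) :
    c + t * (pp x - c) ∈ Icc (0 : ℝ) 1 := by
  have h1 := (convex_Icc (0 : ℝ) 1).add_smul_sub_mem hc (pp_mem x) ht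
  rwa [smul_eq_mul] at h1

theorem AA_int {c : ℝ} (hc : c ∈ Icc (0 : ℝ) 1) (x : ℝ) :
    ContinuousOn (fun t => Dp f (c + t * (pp x - c))) (Icc 0 1) :=
  (Dp_cont h).comp (by fun_prop) (fun _ ht => seg_mem hc x ht)

theorem AA_pos (x : ℝ) : 0 < AA f 0 x * AA f 1 x := by
  have key : ∀ c ∈ Icc (0 : ℝ) 1, ∀ s : ℝ, (∀ x ∈ Icc (0 : ℝ) 1, 0 < s * Dp f x) →
      0 < s * AA f c x := by
    intro c hc s hs
    unfold AA
    rw [← intervalIntegral.integral_const_mul]
    apply intervalIntegral.intervalIntegral_pos_of_pos_on _ _ one_pos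
    · apply ContinuousOn.intervalIntegrable
      rw [uIcc_of_le zero_le_one]
      exact continuousOn_const.mul (AA_int h hc x)
    · intro t ht
      exact hs _ (seg_mem hc x (Ioo_subset_Icc_self ht))
  have m0 : (0 : ℝ) ∈ Icc (0 : ℝ) 1 := ⟨le_rfl, zero_le_one⟩
  have m1 : (1 : ℝ) ∈ Icc (0 : ℝ) 1 := ⟨zero_le_one, le_rfl⟩
  rcases Dp_sign h with hs | hs
  · have a := key 0 m0 (-1) (fun x hx => by linarith [hs x hx])
    have b := key 1 m1 (-1) (fun x hx => by linarith [hs x hx])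
    nlinarith
  · have a := key 0 m0 1 (fun x hx => by linarith [hs x hx])
    have b := key 1 m1 1 (fun x hx => by linarith [hs x hx])
    nlinarith

theorem rel (x : ℝ) : pp x * (1 - pp x) * (AA f 0 x * AA f 1 x) =
    F0 f (pp x) * (1 - F0 f (pp x)) := by
  have a := AA_eq h (c := 0) ⟨le_rfl, zero_le_one⟩ x
  have b := AA_eq h (c := 1) ⟨zero_le_one, le_rfl⟩ x
  have c : pp x * (1 - pp x) * (AA f 0 x * AA f 1 x) =
      -(((pp x - 0) * AA f 0 x) * ((pp x - 1) * AA f 1 x)) := by ring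
  rw [c, a, b]
  rcases ends h.smooth f.bijective with e | e
  · rw [e.1, e.2]; ring
  · rw [e.1, e.2]; ring

theorem Fs_hasDeriv {x : ℝ} (hx : x ∈ Ioo (0 : ℝ) 1) : HasDerivAt (Fs f) (RR f x) x := by
  have hs : 0 < sin (π * x) := sin_pos_of_pos_of_lt_pi (mul_pos pi_pos hx.1)
    (by nlinarith [hx.2, pi_pos])
  have hA := AA_pos h x
  have hrel := rel h x
  have hsq : sin (π * x) ^ 2 = 4 * (pp x * (1 - pp x)) := by
    rw [sin_sq]; unfold pp; ring
  have hy : 1 - (1 - 2 * F0 f (pp x)) ^ 2 = sin (π * x) ^ 2 * (AA f 0 x * AA f 1 x) := by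
    rw [hsq, mul_assoc, hrel]; ring
  have hpos : 0 < sin (π * x) ^ 2 * (AA f 0 x * AA f 1 x) := by positivity
  have h1 : HasDerivAt (fun x => F0 f (pp x)) (Dp f (pp x) * (π / 2 * sin (π * x))) x :=
    (Dp_has h (pp_mem x)).comp_hasDerivAt x (pp_hasDeriv x) (Eventually.of_forall pp_mem)
  have h2 : HasDerivAt (fun x => 1 - 2 * F0 f (pp x))
      (-(2 * (Dp f (pp x) * (π / 2 * sin (π * x))))) x := (h1.const_mul 2).const_sub 1
  have n1 : 1 - 2 * F0 f (pp x) ≠ -1 := by
    intro h0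
    rw [h0] at hy
    rw [← hy] at hpos
    norm_num at hpos
  have n2 : 1 - 2 * F0 f (pp x) ≠ 1 := by
    intro h0
    rw [h0] at hy
    rw [← hy] at hpos
    norm_num at hpos
  have h3 := (hasDerivAt_arccos n1 n2).comp x h2
  have h4 := h3.div_const π
  have e : -(1 / √(1 - (1 - 2 * F0 f (pp x)) ^ 2)) *
      -(2 * (Dp f (pp x) * (π / 2 * sin (π * x)))) / π = RR f x := by
    rw [hy, sqrt_mul (sq_nonneg _), sqrt_sq hs.le]
    unfold RR
    have hq : √(AA f 0 x * AA f 1 x) ≠ 0 := (sqrt_pos.2 hA).ne'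
    have hs' := hs.ne'
    field_simp
  rw [e] at h4
  exact h4

theorem Fs_cont : Continuous (Fs f) := by
  have h1 : Continuous (fun x => F0 f (pp x)) :=
    (F0_smooth' h.smooth).continuousOn.comp_continuous (pp_smooth (n := 0)).continuous pp_mem
  unfold Fs
  exact (continuous_arccos.comp (continuous_const.sub (continuous_const.mul h1))).div_const _

theorem RR_smooth {m : ℕ} (hm : ContDiffOn ℝ (m + 1 : ℕ) (F0 f) (Icc 0 1)) :
    ContDiff ℝ m (RR f) := by
  rw [Nat.cast_add, Nat.cast_one] at hm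
  have hD : ContDiffOn ℝ m (Dp f) (Icc 0 1) :=
    ((contDiffOn_succ_iff_derivWithin (uniqueDiffOn_Icc one_pos)).1 hm).2.2
  have hA : ∀ c ∈ Icc (0 : ℝ) 1, ContDiff ℝ m (AA f c) := by
    intro c hc
    have h1 := param_smooth (w := fun x => pp x - c) (fun n => pp_smooth.sub contDiff_const)
      (c := c) (fun x t ht => seg_mem hc x ht) m (Dp f) hD 0
    simp only [pow_zero, one_mul] at h1
    exact h1
  have hm0 := hA 0 ⟨le_rfl, zero_le_one⟩
  have hm1 := hA 1 ⟨zero_le_one, le_rfl⟩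
  have h2 : ContDiff ℝ m (fun x => Dp f (pp x)) := hD.comp_contDiff pp_smooth pp_mem
  exact h2.div ((hm0.mul hm1).sqrt (fun x => (AA_pos h x).ne'))
    (fun x => (sqrt_pos.2 (AA_pos h x)).ne')

theorem RR_cont : Continuous (RR f) := by
  have h1 := F0_smooth' h.smooth
  have h2 : ContDiff ℝ (0 : ℕ) (RR f) := RR_smooth h (by simpa using h1)
  exact h2.continuous

theorem GG_hasDeriv (x : ℝ) : HasDerivAt (GG f) (RR f x) x := by
  have h1 := intervalIntegral.integral_hasDerivAt_right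
    ((RR_cont h).intervalIntegrable 0 x)
    ((RR_cont h).stronglyMeasurableAtFilter _ _) (RR_cont h).continuousAt
  exact h1.const_add _

theorem GG_smooth {m : ℕ} (hm : ContDiffOn ℝ (m + 1 : ℕ) (F0 f) (Icc 0 1)) :
    ContDiff ℝ (m + 1 : ℕ) (GG f) := by
  rw [Nat.cast_add, Nat.cast_one, contDiff_succ_iff_deriv]
  refine ⟨fun x => (GG_hasDeriv h x).differentiableAt, ?_, ?_⟩
  · intro h
    exact absurd h (by exact_mod_cast (WithTop.coe_ne_top))
  · have e : deriv (GG f) = RR f := funext fun x => (GG_hasDeriv h x).deriv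
    rw [e]
    exact RR_smooth h hm

theorem GG_eq {x : ℝ} (hx : x ∈ Icc (0 : ℝ) 1) : GG f x = Fs f x := by
  have h1 := intervalIntegral.integral_eq_sub_of_hasDerivAt_of_le (f := Fs f) (f' := RR f) hx.1
    (Fs_cont h).continuousOn (by
      intro t ht
      exact Fs_hasDeriv h ⟨ht.1, lt_of_lt_of_le ht.2 hx.2⟩)
    ((RR_cont h).intervalIntegrable 0 x)
  unfold GG
  rw [h1]
  ring

omit h in
theorem GG_neg (x : ℝ) : GG f (-x) = 2 * Fs f 0 - GG f x := by
  have h1 : ∫ t in (0 : ℝ)..(-x), RR f t = - ∫ t in (0 : ℝ)..x, RR f t := by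
    have h2 : ∫ t in (0 : ℝ)..x, RR f t = ∫ t in (0 : ℝ)..x, RR f (-t) := by
      congr 1
      funext t
      rw [RR_neg]
    rw [h2, intervalIntegral.integral_comp_neg, neg_zero, intervalIntegral.integral_symm]
  unfold GG
  rw [h1]
  ring

theorem GG_add_two (x : ℝ) : GG f (x + 2) = GG f x + 2 * (Fs f 1 - Fs f 0) := by
  have hi : ∀ a b : ℝ, IntervalIntegrable (RR f) volume a b :=
    fun a b => (RR_cont h).intervalIntegrable a b
  have h1 : ∫ t in x..(x + 2), RR f t = ∫ t in (-1 : ℝ)..(-1 + 2), RR f t :=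
    (RR_periodic f).intervalIntegral_add_eq x (-1)
  have h2 : ∫ t in (-1 : ℝ)..(-1 + 2), RR f t = 2 * ∫ t in (0 : ℝ)..1, RR f t := by
    have e : (-1 + 2 : ℝ) = 1 := by norm_num
    rw [e, ← intervalIntegral.integral_add_adjacent_intervals (hi (-1) 0) (hi 0 1)]
    have h3 : ∫ t in (-1 : ℝ)..0, RR f t = ∫ t in (0 : ℝ)..1, RR f t := by
      have h4 : ∫ t in (0 : ℝ)..1, RR f t = ∫ t in (0 : ℝ)..1, RR f (-t) := by
        congr 1
        funext t
        rw [RR_neg]
      rw [h4, intervalIntegral.integral_comp_neg, neg_zero]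
    rw [h3]
    ring
  have h5 : ∫ t in (0 : ℝ)..1, RR f t = Fs f 1 - Fs f 0 := by
    have h6 := GG_eq h (x := 1) ⟨zero_le_one, le_rfl⟩
    unfold GG at h6
    linarith
  have h7 : GG f (x + 2) - GG f x = ∫ t in x..(x + 2), RR f t := by
    unfold GG
    rw [← intervalIntegral.integral_add_adjacent_intervals (hi 0 x) (hi x (x + 2))]
    ring
  rw [h1, h2, h5] at h7
  linarith

theorem Fs_ends : (Fs f 0 = 0 ∧ Fs f 1 = 1) ∨ (Fs f 0 = 1 ∧ Fs f 1 = 0) := by
  unfold Fs
  rw [pp_zero, pp_one]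
  have e1 : (1 - 2 * (1 : ℝ)) = -1 := by norm_num
  rcases ends h.smooth f.bijective with e | e
  · left
    rw [e.1, e.2, mul_zero, sub_zero, arccos_one, e1, arccos_neg_one, zero_div,
      div_self pi_pos.ne']
    exact ⟨rfl, rfl⟩
  · right
    rw [e.1, e.2, mul_zero, sub_zero, arccos_one, e1, arccos_neg_one, zero_div,
      div_self pi_pos.ne']
    exact ⟨rfl, rfl⟩

theorem coe_GG_neg (x : ℝ) : ((GG f (-x) : ℝ) : Circ) = -((GG f x : ℝ) : Circ) := by
  rw [GG_neg, AddCircle.coe_sub]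
  have h1 : ((2 * Fs f 0 : ℝ) : Circ) = 0 := by
    rcases Fs_ends h with e | e
    · rw [e.1, mul_zero]; rfl
    · rw [e.1, mul_one]; exact AddCircle.coe_period (2 : ℝ)
  rw [h1, zero_sub]

theorem coe_GG_periodic : Function.Periodic (fun x : ℝ => ((GG f x : ℝ) : Circ)) 2 := by
  intro x
  show ((GG f (x + 2) : ℝ) : Circ) = ((GG f x : ℝ) : Circ)
  rw [GG_add_two h, AddCircle.coe_add]
  have h1 : ((2 * (Fs f 1 - Fs f 0) : ℝ) : Circ) = 0 := by
    rcases Fs_ends h with e | e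
    · rw [e.1, e.2, sub_zero, mul_one]; exact AddCircle.coe_period (2 : ℝ)
    · rw [e.1, e.2, zero_sub, mul_neg, mul_one, AddCircle.coe_neg, AddCircle.coe_period, neg_zero]
  rw [h1, add_zero]

end

/-- conjugate of a bijection of the interval -/
noncomputable def star (f : Equiv.Perm J) (y : J) : J := PJ.symm (f (PJ y))

/-- the double in the folding coordinate -/
noncomputable def dbg {f : Equiv.Perm J} (h : Dif 1 f) : Circ → Circ :=
  Function.Periodic.lift (coe_GG_periodic h)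

theorem dbg_coe {f : Equiv.Perm J} (h : Dif 1 f) (x : ℝ) :
    dbg h ((x : ℝ) : Circ) = ((GG f x : ℝ) : Circ) := rfl

theorem Fs_coe (f : Equiv.Perm J) (y : J) : Fs f y = (star f y : ℝ) := by
  show arccos (1 - 2 * F0 f (pp y)) / π = arccos (1 - 2 * ((f (PJ y) : J) : ℝ)) / π
  have e : F0 f (pp y) = ((f (PJ y) : J) : ℝ) := F0_coe f (PJ y)
  rw [e]

theorem dbg_pos {f : Equiv.Perm J} (h : Dif 1 f) (y : J) :
    dbg h (((y : ℝ)) : Circ) = (((star f y : ℝ)) : Circ) := by
  rw [dbg_coe, GG_eq h y.2, Fs_coe]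

theorem dbg_neg {f : Equiv.Perm J} (h : Dif 1 f) (y : J) :
    dbg h (-(((y : ℝ)) : Circ)) = -(((star f y : ℝ)) : Circ) := by
  rw [← AddCircle.coe_neg, dbg_coe, coe_GG_neg h, GG_eq h y.2, Fs_coe]

theorem dbg_smooth {k : ℕ∞} (hk : 1 ≤ k) {f : Equiv.Perm J} (h : Dif 1 f)
    (hf : ContMDiff (modelWithCornersEuclideanHalfSpace 1) (modelWithCornersEuclideanHalfSpace 1)
      (k : WithTop ℕ∞) f) :
    letI := circCS
    ContMDiff (modelWithCornersEuclideanHalfSpace 1) (modelWithCornersEuclideanHalfSpace 1)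
      (k : WithTop ℕ∞) (dbg h) := by
  apply smooth_of_lift (F := GG f) _ _ (dbg_coe h)
  rw [contDiff_iff_forall_nat_le]
  intro m hm
  have key : ∀ n : ℕ, ((n + 1 : ℕ) : ℕ∞) ≤ k → ContDiff ℝ (n + 1 : ℕ) (GG f) := by
    intro n hn
    apply GG_smooth h
    exact (F0_smooth' hf).of_le (by exact_mod_cast hn)
  cases m with
  | zero =>
    exact (key 0 (by simpa using hk)).of_le (by simp)
  | succ n => exact key n hm

/-- the homomorphism -/
noncomputable def dbgHom {G : Type*} [Group G] (ρ : G →* Equiv.Perm J) (h : ∀ g, Dif 1 (ρ g)) :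
    G →* Equiv.Perm Circ :=
  MonoidHom.toHomPerm
    { toFun := fun g => dbg (h g)
      map_one' := by
        funext z
        show dbg (h 1) z = z
        have e : ∀ y, star (ρ 1) y = y := by
          intro y
          rw [map_one]
          exact PJ.symm_apply_apply y
        obtain ⟨y, rfl | rfl⟩ := exists_pm z
        · rw [dbg_pos, e]
        · rw [dbg_neg, e]
      map_mul' := by
        intro a b
        funext z
        show dbg (h (a * b)) z = dbg (h a) (dbg (h b) z)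
        have e : ∀ y, star (ρ (a * b)) y = star (ρ a) (star (ρ b) y) := by
          intro y
          rw [map_mul]
          show PJ.symm ((ρ a) ((ρ b) (PJ y))) = PJ.symm ((ρ a) (PJ (PJ.symm ((ρ b) (PJ y)))))
          rw [Equiv.apply_symm_apply]
        obtain ⟨y, rfl | rfl⟩ := exists_pm z
        · rw [dbg_pos, dbg_pos, dbg_pos, e]
        · rw [dbg_neg, dbg_neg, dbg_neg, e] }

theorem dbgHom_apply {G : Type*} [Group G] (ρ : G →* Equiv.Perm J) (h : ∀ g, Dif 1 (ρ g)) (g : G) :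
    ⇑(dbgHom ρ h g) = dbg (h g) := rfl

theorem dbgHom_inj {G : Type*} [Group G] (ρ : G →* Equiv.Perm J) (h : ∀ g, Dif 1 (ρ g))
    (hρ : Function.Injective ρ) : Function.Injective (dbgHom ρ h) := by
  intro a b hab
  apply hρ
  have e : ∀ y, star (ρ a) y = star (ρ b) y := by
    intro y
    apply coe_inj
    rw [← dbg_pos (h a), ← dbg_pos (h b), ← dbgHom_apply, ← dbgHom_apply, hab]
  ext1 y
  have h1 := PJ.symm.injective (e (PJ.symm y))
  rwa [Equiv.apply_symm_apply] at h1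

end Pool.Agent.V1127.Det
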