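import Pool.Agent.V1127.FbCSq

/-!
The group of the cube complex is the mapping torus of `a ↦ a`, `b ↦ a b`, `c ↦ b c b`.
-/

set_option autoImplicit false

namespace Pool.Agent.V1127.FbC

open Pool.Agent.W387 Pool.Agent.W387.SqSys Pool.Agent.W392.UB

namespace Dt

theorem forms {K : Type*} [Group K] (f : Dt → K) (hi : ∀ x, f (inv x) = (f x)⁻¹) {x y p q : Dt}
    (h : f x * f p = f y * f q) :
    (f (inv x) * f y = f p * f (inv q)) ∧ (f (inv y) * f x = f q * f (inv p)) ∧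
      (f (inv p) * f (inv x) = f (inv q) * f (inv y)) := by
  simp only [hi]
  refine ⟨?_, ?_, ?_⟩
  · rw [inv_mul_eq_iff_eq_mul, ← mul_assoc, h, mul_inv_cancel_right]
  · rw [inv_mul_eq_iff_eq_mul, ← mul_assoc, ← h, mul_inv_cancel_right]
  · rw [← mul_inv_rev, ← mul_inv_rev, h]

theorem sqrel {K : Type*} [Group K] (f : Dt → K) (hi : ∀ x, f (inv x) = (f x)⁻¹)
    (r1 : f gs * f gt = f gt * f gs) (r2 : f gs * f gb = f gb * f gt)
    (r3 : f gbi * f e1 = f e0 * f gb) (r4 : f gt * f e0 = f e1 * f gs)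
    (r5 : f gbi * f e2 = f e1 * f gb) (r6 : f gs * f e1 = f e2 * f gt)
    (r7 : f gt * f e3 = f e2 * f gs) (r8 : f gs * f e0 = f e3 * f gt) :
    ∀ x y p q, sq x y = some (p, q) → f x * f p = f y * f q := by
  obtain ⟨a1, a2, a3⟩ := forms f hi r1
  obtain ⟨b1, b2, b3⟩ := forms f hi r2
  obtain ⟨d1, d2, d3⟩ := forms f hi r3
  obtain ⟨c1, c2, c3⟩ := forms f hi r4
  obtain ⟨g1, g2, g3⟩ := forms f hi r5
  obtain ⟨h1, h2, h3⟩ := forms f hi r6
  obtain ⟨i1, i2, i3⟩ := forms f hi r7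
  obtain ⟨j1, j2, j3⟩ := forms f hi r8
  simp only [inv] at a1 a2 a3 b1 b2 b3 d1 d2 d3 c1 c2 c3 g1 g2 g3 h1 h2 h3 i1 i2 i3 j1 j2 j3
  intro x y p q h
  cases x <;> cases y <;> simp only [sq, reduceCtorEq, Option.some.injEq, Prod.mk.injEq] at h <;>
    obtain ⟨rfl, rfl⟩ := h <;>
    first
      | assumption
      | (symm; assumption)

/-- extension to the darts -/
def ext {K : Type*} [Group K] (S T B C : K) : Dt → K
  | gs => S
  | gsi => S⁻¹
  | gt => T
  | gti => T⁻¹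
  | gb => B
  | gbi => B⁻¹
  | e0 => C
  | e0i => C⁻¹
  | e1 => B * C * B
  | e1i => (B * C * B)⁻¹
  | e2 => B * (B * C * B) * B
  | e2i => (B * (B * C * B) * B)⁻¹
  | e3 => T⁻¹ * (B * (B * C * B) * B) * S
  | e3i => (T⁻¹ * (B * (B * C * B) * B) * S)⁻¹

theorem ext_inv {K : Type*} [Group K] (S T B C : K) (x : Dt) :
    ext S T B C (inv x) = (ext S T B C x)⁻¹ := by
  cases x <;> simp only [ext, inv, _root_.inv_inv]

theorem ext_rel {K : Type*} [Group K] (S T B C : K) (h1 : S * T = T * S) (h2 : S * B = B * T)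
    (h3 : T * C = B * C * B * S) :
    ∀ x y p q, sq x y = some (p, q) →
      ext S T B C x * ext S T B C p = ext S T B C y * ext S T B C q := by
  have h6 : S * (B * C * B) = B * (B * C * B) * B * T := by
    calc S * (B * C * B) = (S * B) * C * B := by group
      _ = B * (T * C) * B := by rw [h2]; group
      _ = B * B * C * B * (S * B) := by rw [h3]; group
      _ = B * (B * C * B) * B * T := by rw [h2]; group
  apply sqrel (ext S T B C) (ext_inv S T B C)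
  · exact h1
  · exact h2
  · simp only [ext]
    group
  · simp only [ext]
    exact h3
  · simp only [ext]
    group
  · simp only [ext]
    exact h6
  · simp only [ext]
    group
  · simp only [ext]
    have e : T⁻¹ * (B * (B * C * B) * B) * S * T = T⁻¹ * (B * (B * C * B) * B) * (S * T) := by group
    rw [e, h1, ← mul_assoc, mul_assoc T⁻¹, ← h6]
    have e2 : T⁻¹ * (S * (B * C * B)) * S = T⁻¹ * S * (B * C * B * S) := by group
    rw [e2, ← h3]
    have e3 : T⁻¹ * S * (T * C) = T⁻¹ * (S * T) * C := by group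
    rw [e3, h1]
    group

end Dt

/-- the group of the cube complex -/
abbrev HH : Type := Dt.sys.Grp

namespace HH

/-- a generator -/
noncomputable def S : HH := Dt.sys.gn Dt.gs
/-- a generator -/
noncomputable def T : HH := Dt.sys.gn Dt.gt
/-- a generator -/
noncomputable def B : HH := Dt.sys.gn Dt.gb
/-- a generator -/
noncomputable def C : HH := Dt.sys.gn Dt.e0

theorem rel {x y p q : Dt} (h : Dt.sq x y = some (p, q)) :
    Dt.sys.gn x * Dt.sys.gn p = Dt.sys.gn y * Dt.sys.gn q := gn_sq (S := Dt.sys) h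

theorem gn_inv' (x : Dt) : Dt.sys.gn (Dt.inv x) = (Dt.sys.gn x)⁻¹ := gn_inv (S := Dt.sys) x

theorem ST : S * T = T * S := rel (x := Dt.gs) (y := Dt.gt) (p := Dt.gt) (q := Dt.gs) rfl

theorem SB : S * B = B * T := rel (x := Dt.gs) (y := Dt.gb) (p := Dt.gb) (q := Dt.gt) rfl

theorem gn_e1 : Dt.sys.gn Dt.e1 = B * C * B := by
  have h := rel (x := Dt.gbi) (y := Dt.e0) (p := Dt.e1) (q := Dt.gb) rfl
  have h2 : Dt.sys.gn Dt.gbi = B⁻¹ := gn_inv' Dt.gb
  rw [h2, inv_mul_eq_iff_eq_mul] at h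
  rw [h, ← mul_assoc]
  rfl

theorem gn_e2 : Dt.sys.gn Dt.e2 = B * Dt.sys.gn Dt.e1 * B := by
  have h := rel (x := Dt.gbi) (y := Dt.e1) (p := Dt.e2) (q := Dt.gb) rfl
  have h2 : Dt.sys.gn Dt.gbi = B⁻¹ := gn_inv' Dt.gb
  rw [h2, inv_mul_eq_iff_eq_mul] at h
  rw [h, ← mul_assoc]
  rfl

theorem gn_e3 : Dt.sys.gn Dt.e3 = T⁻¹ * Dt.sys.gn Dt.e2 * S := by
  have h := rel (x := Dt.gt) (y := Dt.e2) (p := Dt.e3) (q := Dt.gs) rfl
  rw [mul_assoc, eq_inv_mul_iff_mul_eq]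
  exact h

theorem TC : T * C = B * C * B * S := by
  have h := rel (x := Dt.gt) (y := Dt.e1) (p := Dt.e0) (q := Dt.gs) rfl
  rw [gn_e1] at h
  exact h

/-- homomorphisms out of `HH` -/
noncomputable def hom {K : Type} [Group K] (s t b c : K) (h1 : s * t = t * s) (h2 : s * b = b * t)
    (h3 : t * c = b * c * b * s) : HH →* K :=
  lift (S := Dt.sys) (Dt.ext s t b c) (Dt.ext_inv s t b c) (Dt.ext_rel s t b c h1 h2 h3)

section

variable {K : Type} [Group K] (s t b c : K) (h1 : s * t = t * s) (h2 : s * b = b * t)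
    (h3 : t * c = b * c * b * s)

theorem hom_S : hom s t b c h1 h2 h3 S = s :=
  lift_gn (S := Dt.sys) (Dt.ext s t b c) _ _ Dt.gs

theorem hom_T : hom s t b c h1 h2 h3 T = t :=
  lift_gn (S := Dt.sys) (Dt.ext s t b c) _ _ Dt.gt

theorem hom_B : hom s t b c h1 h2 h3 B = b :=
  lift_gn (S := Dt.sys) (Dt.ext s t b c) _ _ Dt.gb

theorem hom_C : hom s t b c h1 h2 h3 C = c :=
  lift_gn (S := Dt.sys) (Dt.ext s t b c) _ _ Dt.e0

end

theorem gen (N : Subgroup HH) (hS : S ∈ N) (hT : T ∈ N) (hB : B ∈ N) (hC : C ∈ N) (h : HH) :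
    h ∈ N := by
  have k1 : Dt.sys.gn Dt.e1 ∈ N := by
    rw [gn_e1]
    exact N.mul_mem (N.mul_mem hB hC) hB
  have k2 : Dt.sys.gn Dt.e2 ∈ N := by
    rw [gn_e2]
    exact N.mul_mem (N.mul_mem hB k1) hB
  have k3 : Dt.sys.gn Dt.e3 ∈ N := by
    rw [gn_e3]
    exact N.mul_mem (N.mul_mem (N.inv_mem hT) k2) hS
  have key : ∀ x : Dt, Dt.sys.gn x ∈ N := by
    intro x
    cases x
    · exact hS
    · have := N.inv_mem hS
      rwa [S, ← gn_inv'] at this
    · exact hT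
    · have := N.inv_mem hT
      rwa [T, ← gn_inv'] at this
    · exact hB
    · have := N.inv_mem hB
      rwa [B, ← gn_inv'] at this
    · exact hC
    · have := N.inv_mem hC
      rwa [C, ← gn_inv'] at this
    · exact k1
    · have := N.inv_mem k1
      rwa [← gn_inv'] at this
    · exact k2
    · have := N.inv_mem k2
      rwa [← gn_inv'] at this
    · exact k3
    · have := N.inv_mem k3
      rwa [← gn_inv'] at this
  induction h using grp_induction with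
  | h1 => exact N.one_mem
  | h2 x g ih => exact N.mul_mem (key x) ih

end HH

/-- free group of rank three -/
abbrev F3 : Type := FreeGroup (Fin 3)

section

variable (Φ : MulAut F3) (ha : Φ (FreeGroup.of 0) = FreeGroup.of 0)
  (hb : Φ (FreeGroup.of 1) = FreeGroup.of 0 * FreeGroup.of 1)
  (hc : Φ (FreeGroup.of 2) = FreeGroup.of 1 * FreeGroup.of 2 * FreeGroup.of 1)

/-- on the fibre -/
noncomputable def fib : F3 →* HH := FreeGroup.lift ![HH.T * HH.S⁻¹, HH.B, HH.C * HH.B]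

theorem fib0 : fib (FreeGroup.of 0) = HH.T * HH.S⁻¹ := by simp [fib]
theorem fib1 : fib (FreeGroup.of 1) = HH.B := by simp [fib]
theorem fib2 : fib (FreeGroup.of 2) = HH.C * HH.B := by simp [fib]

include ha hb hc in
theorem fib_conj (n : F3) : fib (Φ n) = HH.T * fib n * HH.T⁻¹ := by
  have h : fib.comp Φ.toMonoidHom = (MulAut.conj HH.T).toMonoidHom.comp fib := by
    ext j
    fin_cases j
    · show fib (Φ (FreeGroup.of 0)) = HH.T * fib (FreeGroup.of 0) * HH.T⁻¹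
      have e : HH.S⁻¹ * HH.T = HH.T * HH.S⁻¹ := by
        rw [inv_mul_eq_iff_eq_mul, ← mul_assoc, HH.ST]; group
      rw [ha, fib0, eq_mul_inv_iff_mul_eq, mul_assoc, e]
    · show fib (Φ (FreeGroup.of 1)) = HH.T * fib (FreeGroup.of 1) * HH.T⁻¹
      rw [hb, map_mul, fib0, fib1, eq_mul_inv_iff_mul_eq, mul_assoc, mul_assoc, mul_right_inj,
        inv_mul_eq_iff_eq_mul, HH.SB]
    · show fib (Φ (FreeGroup.of 2)) = HH.T * fib (FreeGroup.of 2) * HH.T⁻¹
      rw [hc, map_mul, map_mul, fib1, fib2, eq_mul_inv_iff_mul_eq, ← mul_assoc, ← mul_assoc,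
        HH.TC]
      rw [mul_assoc _ HH.S, HH.SB, ← mul_assoc]
  exact DFunLike.congr_fun h n

/-- mapping torus to `HH` -/
noncomputable def FF : MT Φ →* HH := MT.lift Φ fib HH.T (fib_conj Φ ha hb hc)

/-- letters of the mapping torus -/
def ga : MT Φ := MT.i Φ (FreeGroup.of 0)
/-- letters of the mapping torus -/
def gb : MT Φ := MT.i Φ (FreeGroup.of 1)
/-- letters of the mapping torus -/
def gc : MT Φ := MT.i Φ (FreeGroup.of 2)

include ha in
theorem ta : MT.t Φ * ga Φ = ga Φ * MT.t Φ := by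
  have h := MT.t_conj Φ (FreeGroup.of 0)
  rw [ha, mul_inv_eq_iff_eq_mul] at h
  exact h

include hb in
theorem tb : MT.t Φ * gb Φ = ga Φ * gb Φ * MT.t Φ := by
  have h := MT.t_conj Φ (FreeGroup.of 1)
  rw [hb, map_mul, mul_inv_eq_iff_eq_mul] at h
  exact h

include hc in
theorem tc : MT.t Φ * gc Φ = gb Φ * gc Φ * gb Φ * MT.t Φ := by
  have h := MT.t_conj Φ (FreeGroup.of 2)
  rw [hc, map_mul, map_mul, mul_inv_eq_iff_eq_mul] at h
  exact h

/-- the inverse homomorphism -/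
noncomputable def EE : HH →* MT Φ :=
  HH.hom ((ga Φ)⁻¹ * MT.t Φ) (MT.t Φ) (gb Φ) (gc Φ * (gb Φ)⁻¹)
    (by rw [← mul_assoc, mul_left_inj, inv_mul_eq_iff_eq_mul, ← mul_assoc, ← ta Φ ha]; group)
    (by rw [mul_assoc, tb Φ hb]; group)
    (by
      have h1 := tb Φ hb
      have h2 := tc Φ hc
      rw [← mul_assoc, h2]
      have e : gb Φ * MT.t Φ * (gb Φ)⁻¹ = (ga Φ)⁻¹ * MT.t Φ := by
        rw [mul_inv_eq_iff_eq_mul, mul_assoc, h1]; group
      calc gb Φ * gc Φ * gb Φ * MT.t Φ * (gb Φ)⁻¹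
          = gb Φ * gc Φ * (gb Φ * MT.t Φ * (gb Φ)⁻¹) := by group
        _ = gb Φ * gc Φ * ((ga Φ)⁻¹ * MT.t Φ) := by rw [e]
        _ = _ := by group)

theorem EE_FF (g : MT Φ) : EE Φ ha hb hc (FF Φ ha hb hc g) = g := by
  have eS : EE Φ ha hb hc HH.S = (ga Φ)⁻¹ * MT.t Φ := HH.hom_S _ _ _ _ _ _ _
  have eT : EE Φ ha hb hc HH.T = MT.t Φ := HH.hom_T _ _ _ _ _ _ _
  have eB : EE Φ ha hb hc HH.B = gb Φ := HH.hom_B _ _ _ _ _ _ _
  have eC : EE Φ ha hb hc HH.C = gc Φ * (gb Φ)⁻¹ := HH.hom_C _ _ _ _ _ _ _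
  refine MT.gen Φ (MonoidHom.eqLocus ((EE Φ ha hb hc).comp (FF Φ ha hb hc)) (MonoidHom.id _)) ?_ ?_ g
  · intro n
    have h : ((EE Φ ha hb hc).comp (FF Φ ha hb hc)).comp (MT.i Φ) = MT.i Φ := by
      apply FreeGroup.ext_hom
      intro j
      fin_cases j
      · show EE Φ ha hb hc (FF Φ ha hb hc (MT.i Φ (FreeGroup.of 0))) = _
        rw [FF, MT.lift_i, fib0, map_mul, map_inv, eT, eS, ga]
        group
        rfl
      · show EE Φ ha hb hc (FF Φ ha hb hc (MT.i Φ (FreeGroup.of 1))) = _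
        rw [FF, MT.lift_i, fib1, eB]
        rfl
      · show EE Φ ha hb hc (FF Φ ha hb hc (MT.i Φ (FreeGroup.of 2))) = _
        rw [FF, MT.lift_i, fib2, map_mul, eB, eC, gc]
        group
        rfl
    exact DFunLike.congr_fun h n
  · show EE Φ ha hb hc (FF Φ ha hb hc (MT.t Φ)) = MT.t Φ
    rw [FF, MT.lift_t, eT]

theorem FF_EE (h : HH) : FF Φ ha hb hc (EE Φ ha hb hc h) = h := by
  have eS : EE Φ ha hb hc HH.S = (ga Φ)⁻¹ * MT.t Φ := HH.hom_S _ _ _ _ _ _ _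
  have eT : EE Φ ha hb hc HH.T = MT.t Φ := HH.hom_T _ _ _ _ _ _ _
  have eB : EE Φ ha hb hc HH.B = gb Φ := HH.hom_B _ _ _ _ _ _ _
  have eC : EE Φ ha hb hc HH.C = gc Φ * (gb Φ)⁻¹ := HH.hom_C _ _ _ _ _ _ _
  have f0 : FF Φ ha hb hc (ga Φ) = HH.T * HH.S⁻¹ := by rw [FF, ga, MT.lift_i, fib0]
  have f1 : FF Φ ha hb hc (gb Φ) = HH.B := by rw [FF, gb, MT.lift_i, fib1]
  have f2 : FF Φ ha hb hc (gc Φ) = HH.C * HH.B := by rw [FF, gc, MT.lift_i, fib2]
  have ft : FF Φ ha hb hc (MT.t Φ) = HH.T := by rw [FF, MT.lift_t]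
  refine HH.gen (MonoidHom.eqLocus ((FF Φ ha hb hc).comp (EE Φ ha hb hc)) (MonoidHom.id _))
    ?_ ?_ ?_ ?_ h
  · show FF Φ ha hb hc (EE Φ ha hb hc HH.S) = HH.S
    rw [eS, map_mul, map_inv, f0, ft]; group
  · show FF Φ ha hb hc (EE Φ ha hb hc HH.T) = HH.T
    rw [eT, ft]
  · show FF Φ ha hb hc (EE Φ ha hb hc HH.B) = HH.B
    rw [eB, f1]
  · show FF Φ ha hb hc (EE Φ ha hb hc HH.C) = HH.C
    rw [eC, map_mul, map_inv, f1, f2]; group

/-- the isomorphism -/
noncomputable def iso : MT Φ ≃* HH where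
  toFun := FF Φ ha hb hc
  invFun := EE Φ ha hb hc
  left_inv := EE_FF Φ ha hb hc
  right_inv := FF_EE Φ ha hb hc
  map_mul' := map_mul _

end

/-- the endomorphism -/
def phi : F3 →* F3 := FreeGroup.lift
  ![FreeGroup.of 0, FreeGroup.of 0 * FreeGroup.of 1,
    FreeGroup.of 1 * FreeGroup.of 2 * FreeGroup.of 1]

/-- the inverse endomorphism -/
def psi : F3 →* F3 := FreeGroup.lift
  ![FreeGroup.of 0, (FreeGroup.of 0)⁻¹ * FreeGroup.of 1,
    (FreeGroup.of 1)⁻¹ * FreeGroup.of 0 * FreeGroup.of 2 * (FreeGroup.of 1)⁻¹ * FreeGroup.of 0]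

theorem psi_phi : psi.comp phi = MonoidHom.id F3 := by
  ext j
  fin_cases j
  · simp [phi, psi]
  · simp [phi, psi]
  · simp [phi, psi]
    group

theorem phi_psi : phi.comp psi = MonoidHom.id F3 := by
  ext j
  fin_cases j
  · simp [phi, psi]
  · simp [phi, psi]
  · simp [phi, psi]
    group

/-- the automorphism `a ↦ a`, `b ↦ a b`, `c ↦ b c b` -/
def Phi : MulAut F3 := MonoidHom.toMulEquiv phi psi psi_phi phi_psi

end Pool.Agent.V1127.FbC
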