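import Pool.Agent.W387.SqMedian
import Pool.Agent.W392.UB.Gam

/-!
A one-vertex cube complex of dimension three whose fundamental group is the mapping torus of
`a ↦ a`, `b ↦ a b`, `c ↦ b c b`.
Squares: `s t = t s`, `s b = b t`, `b⁻¹ c1 = c0 b`, `t c0 = c1 s`, `b⁻¹ c2 = c1 b`,
`s c1 = c2 t`, `t c3 = c2 s`, `s c0 = c3 t`.
-/

set_option autoImplicit false

namespace Pool.Agent.V1127.FbC

open Pool.Agent.W387

/-- darts -/
inductive Dt : Type
  | gs | gsi | gt | gti | gb | gbi | e0 | e0i | e1 | e1i | e2 | e2i | e3 | e3i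
  deriving DecidableEq

namespace Dt

instance : Fintype Dt where
  elems := {gs, gsi, gt, gti, gb, gbi, e0, e0i, e1, e1i, e2, e2i, e3, e3i}
  complete := by
    intro x
    cases x <;> simp

/-- inverse of a dart -/
def inv : Dt → Dt
  | gs => gsi
  | gsi => gs
  | gt => gti
  | gti => gt
  | gb => gbi
  | gbi => gb
  | e0 => e0i
  | e0i => e0
  | e1 => e1i
  | e1i => e1
  | e2 => e2i
  | e2i => e2
  | e3 => e3i
  | e3i => e3

/-- squares -/
def sq : Dt → Dt → Option (Dt × Dt)
  | gs, gt => some (gt, gs)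
  | gs, gti => some (gti, gs)
  | gs, gb => some (gb, gt)
  | gs, e1i => some (e0i, gt)
  | gs, e2 => some (e1, gt)
  | gs, e2i => some (e3i, gt)
  | gs, e3 => some (e0, gt)
  | gsi, gt => some (gt, gsi)
  | gsi, gti => some (gti, gsi)
  | gsi, gb => some (gb, gti)
  | gsi, e0 => some (e3, gti)
  | gsi, e0i => some (e1i, gti)
  | gsi, e1 => some (e2, gti)
  | gsi, e3i => some (e2i, gti)
  | gt, gs => some (gs, gt)
  | gt, gsi => some (gsi, gt)
  | gt, gbi => some (gbi, gs)
  | gt, e1 => some (e0, gs)
  | gt, e2 => some (e3, gs)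
  | gt, e2i => some (e1i, gs)
  | gt, e3i => some (e0i, gs)
  | gti, gs => some (gs, gti)
  | gti, gsi => some (gsi, gti)
  | gti, gbi => some (gbi, gsi)
  | gti, e0 => some (e1, gsi)
  | gti, e0i => some (e3i, gsi)
  | gti, e1i => some (e2i, gsi)
  | gti, e3 => some (e2, gsi)
  | gb, gs => some (gt, gb)
  | gb, gsi => some (gti, gb)
  | gb, e0i => some (e1i, gbi)
  | gb, e1 => some (e0, gbi)
  | gb, e1i => some (e2i, gbi)
  | gb, e2 => some (e1, gbi)
  | gbi, gt => some (gs, gbi)
  | gbi, gti => some (gsi, gbi)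
  | gbi, e0 => some (e1, gb)
  | gbi, e1 => some (e2, gb)
  | gbi, e1i => some (e0i, gb)
  | gbi, e2i => some (e1i, gb)
  | e0, gsi => some (gti, e3)
  | e0, gti => some (gsi, e1)
  | e0, gbi => some (gb, e1)
  | e0i, gsi => some (gti, e1i)
  | e0i, gti => some (gsi, e3i)
  | e0i, gb => some (gbi, e1i)
  | e1, gsi => some (gti, e2)
  | e1, gt => some (gs, e0)
  | e1, gb => some (gbi, e0)
  | e1, gbi => some (gb, e2)
  | e1i, gs => some (gt, e0i)
  | e1i, gti => some (gsi, e2i)
  | e1i, gb => some (gbi, e2i)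
  | e1i, gbi => some (gb, e0i)
  | e2, gs => some (gt, e1)
  | e2, gt => some (gs, e3)
  | e2, gb => some (gbi, e1)
  | e2i, gs => some (gt, e3i)
  | e2i, gt => some (gs, e1i)
  | e2i, gbi => some (gb, e1i)
  | e3, gs => some (gt, e0)
  | e3, gti => some (gsi, e2)
  | e3i, gsi => some (gti, e2i)
  | e3i, gt => some (gs, e0i)
  | _, _ => none

theorem inv_inv : ∀ x : Dt, inv (inv x) = x := by decide

theorem symm_aux : ∀ x y : Dt, (match sq x y with
    | none => true
    | some r => decide (sq y x = some (r.2, r.1))) = true := by decide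

theorem rot_aux : ∀ x y : Dt, (match sq x y with
    | none => true
    | some r => decide (sq (inv x) r.1 = some (y, inv r.2))) = true := by decide

theorem sq_symm {x y p q : Dt} (h : sq x y = some (p, q)) : sq y x = some (q, p) := by
  have h1 := symm_aux x y
  rw [h] at h1
  simpa using h1

theorem sq_rot {x y p q : Dt} (h : sq x y = some (p, q)) : sq (inv x) p = some (y, inv q) := by
  have h1 := rot_aux x y
  rw [h] at h1
  simpa using h1

/-- the cube condition at a corner -/
def cubeB (x y z : Dt) : Bool :=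
  match sq x y, sq y z, sq x z with
  | some r, some s, some u =>
    match sq r.1 u.1, sq r.2 s.1 with
    | some w, some v => decide (w.1 = v.1 ∧ sq u.2 s.2 = some (w.2, v.2))
    | _, _ => false
  | _, _, _ => true

set_option maxRecDepth 100000 in
theorem cube_aux : ∀ x y z : Dt, cubeB x y z = true := by decide +kernel

/-- the square system -/
def sys : SqSys Dt where
  inv := inv
  inv_inv := inv_inv
  sq := sq
  symm := sq_symm
  rot := sq_rot
  irrefl := by decide
  cube := by
    intro a b c b1 a1 c1 b2 c2 a2 h1 h2 h3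
    have h := cube_aux a b c
    unfold cubeB at h
    rw [h1, h2, h3] at h
    simp only at h
    rcases k1 : sq b1 c2 with _ | ⟨w1, w2⟩
    · rw [k1] at h
      simp at h
    · rcases k2 : sq a1 c1 with _ | ⟨v1, v2⟩
      · rw [k1, k2] at h
        simp at h
      · rw [k1, k2] at h
        simp only [decide_eq_true_eq] at h
        obtain ⟨h4, h5⟩ := h
        subst h4
        exact ⟨v2, w2, w1, rfl, rfl, h5⟩

end Dt

end Pool.Agent.V1127.FbC
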