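import Pool.Agent.V1127.KlPos

/-!
The grid, its two parity classes, and the main inequality.
-/

set_option autoImplicit false

namespace Pool.Agent.V1127.Kl

open Finset Function

/-- the grid -/
def Gr (m q : ℕ) : Finset (Fin m → ℕ) := Fintype.piFinset fun _ => range q

/-- the even class -/
def Evn (m Q : ℕ) : Finset (Fin m → ℕ) := (Gr m (Q + 1)).filter fun b => Even (∑ i, b i)

/-- the odd class -/
def Odf (m Q : ℕ) : Finset (Fin m → ℕ) := (Gr m Q).filter fun b => ¬ Even (∑ i, b i)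

theorem mem_Gr {m q : ℕ} {b : Fin m → ℕ} : b ∈ Gr m q ↔ ∀ i, b i < q := by
  rw [Gr, Fintype.mem_piFinset]
  simp only [mem_range]

theorem altsum (m q : ℕ) :
    ∑ b ∈ Gr m q, (-1 : ℝ) ^ (∑ i, b i) = (if Even q then 0 else 1) ^ m := by
  have h := Finset.prod_univ_sum (fun _ : Fin m => range q) (fun _ j => (-1 : ℝ) ^ j)
  rw [Gr]
  have e : ∀ b : Fin m → ℕ, (-1 : ℝ) ^ (∑ i, b i) = ∏ i, (-1 : ℝ) ^ (b i) := fun b =>
    (Finset.prod_pow_eq_pow_sum _ _ _).symm
  rw [sum_congr rfl fun b _ => e b, ← h, Finset.prod_const, Finset.card_univ, Fintype.card_fin,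
    neg_one_geom_sum]

theorem card_split (m q : ℕ) :
    (((Gr m q).filter fun b => Even (∑ i, b i)).card : ℝ) +
      ((Gr m q).filter fun b => ¬ Even (∑ i, b i)).card = (q : ℝ) ^ m := by
  rw [← Nat.cast_add, Finset.card_filter_add_card_filter_not, Gr, Fintype.card_piFinset]
  simp

theorem card_diff (m q : ℕ) :
    (((Gr m q).filter fun b => Even (∑ i, b i)).card : ℝ) -
      ((Gr m q).filter fun b => ¬ Even (∑ i, b i)).card = (if Even q then 0 else 1) ^ m := by
  rw [← altsum, ← Finset.sum_filter_add_sum_filter_not (Gr m q) (fun b => Even (∑ i, b i))]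
  have h1 : ∑ b ∈ (Gr m q).filter (fun b => Even (∑ i, b i)), (-1 : ℝ) ^ (∑ i, b i) =
      ((Gr m q).filter fun b => Even (∑ i, b i)).card := by
    rw [Finset.card_eq_sum_ones, Nat.cast_sum]
    apply sum_congr rfl
    intro b hb
    rw [(mem_filter.1 hb).2.neg_one_pow]
    simp
  have h2 : ∑ b ∈ (Gr m q).filter (fun b => ¬ Even (∑ i, b i)), (-1 : ℝ) ^ (∑ i, b i) =
      -((Gr m q).filter fun b => ¬ Even (∑ i, b i)).card := by
    rw [Finset.card_eq_sum_ones, Nat.cast_sum, ← sum_neg_distrib]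
    apply sum_congr rfl
    intro b hb
    rw [(Nat.not_even_iff_odd.1 (mem_filter.1 hb).2).neg_one_pow]
    simp
  rw [h1, h2]
  ring

theorem zo (m q : ℕ) : (0 : ℝ) ≤ (if Even q then 0 else 1) ^ m ∧
    (if Even q then (0 : ℝ) else 1) ^ m ≤ 1 := by
  split_ifs
  · rcases m with _ | m <;> simp
  · simp

theorem card_Evn_le (m Q : ℕ) : 2 * ((Evn m Q).card : ℝ) ≤ ((Q : ℝ) + 1) ^ m + 1 := by
  have h1 := card_split m (Q + 1)
  have h2 := card_diff m (Q + 1)
  have h3 := (zo m (Q + 1)).2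
  push_cast at h1
  rw [Evn]
  linarith

theorem card_Odf_ge (m Q : ℕ) : (Q : ℝ) ^ m - 1 ≤ 2 * ((Odf m Q).card : ℝ) := by
  have h1 := card_split m Q
  have h2 := card_diff m Q
  have h3 := (zo m Q).2
  rw [Odf]
  linarith

theorem shift_mem {m Q : ℕ} {b : Fin m → ℕ} (hb : b ∈ Odf m Q) (i : Fin m) :
    update b i (b i + 1) ∈ Evn m Q := by
  rw [Odf, mem_filter, mem_Gr] at hb
  rw [Evn, mem_filter, mem_Gr]
  constructor
  · intro j
    by_cases h : j = i
    · subst h; rw [update_self]; have := hb.1 j; omega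
    · rw [update_of_ne h]; have := hb.1 j; omega
  · have e : update b i (b i + 1) = fun j => b j + (Pi.single i 1 : Fin m → ℕ) j := by
      funext j
      by_cases h : j = i
      · subst h; simp
      · rw [update_of_ne h, Pi.single_eq_of_ne h, add_zero]
    rw [e, sum_add_distrib, Finset.sum_pi_single']
    rw [if_pos (mem_univ i)]
    rw [Nat.not_even_iff_odd] at hb
    exact hb.2.add_one

theorem shift_inj {m : ℕ} (i : Fin m) :
    Function.Injective fun b : Fin m → ℕ => update b i (b i + 1) := by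
  intro b b' h
  funext j
  have h1 := congrFun h j
  simp only at h1
  by_cases hj : j = i
  · subst hj
    rw [update_self, update_self] at h1
    omega
  · rwa [update_of_ne hj, update_of_ne hj] at h1

theorem core {m Q : ℕ} {T1 T2 c : ℝ} {lo : ℕ → ℝ} (hc : 0 < c) (hT1 : 0 < T1)
    (hlo : ∀ j, 0 < lo j) (hlo1 : ∀ j, lo j < lo (j + 1)) (hlo2 : ∀ j, 2 * lo j ≤ T1)
    (hT : c * (T2 - T1) = T1) (hT12 : T1 ≤ T2)
    (X P : ℝ → (Fin m → ℕ) → Fin (m + 1) → ℝ)
    (hX : ∀ t, 0 < t → ∀ b j, 0 ≤ X t b j) (hXs : ∀ t, 0 < t → ∀ b, ∑ j, X t b j ≤ 1)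
    (hI0 : ∀ t, 0 < t → ∀ b, P t b 0 ≤ X t b 0 * t)
    (hI : ∀ t, 0 < t → ∀ b, ∀ i : Fin m, P t b i.succ ≤ X t b i.succ * lo (b i))
    (hT0 : ∀ t, 0 < t → ∀ t', 0 < t' → ∀ b, X t' b 0 * t - P t' b 0 ≤ X t b 0 * t - P t b 0)
    (hTi : ∀ t, 0 < t → ∀ b, ∀ i : Fin m, ∀ r, X t (update b i r) i.succ * lo (b i) -
      P t (update b i r) i.succ ≤ X t b i.succ * lo (b i) - P t b i.succ) :
    ∑ b ∈ Evn m Q, ∑ j, P T1 b j + ∑ b ∈ Odf m Q, ∑ j, P T1 b j +
      c * ∑ b ∈ Odf m Q, ∑ j, P T2 b j ≤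
      (Evn m Q).card * T1 + (Odf m Q).card * (c * T2) := by
  have hT2 : 0 < T2 := lt_of_lt_of_le hT1 hT12
  let F : Fin m → (Fin m → ℕ) → ℝ := fun i b => T1 * X T1 b i.succ - P T1 b i.succ
  have hF : ∀ i b, 0 ≤ F i b := by
    intro i b
    have h1 := hI T1 hT1 b i
    have h2 := hX T1 hT1 b i.succ
    have h3 := hlo2 (b i)
    have h4 := hlo (b i)
    show 0 ≤ T1 * X T1 b i.succ - P T1 b i.succ
    nlinarith
  have hev : ∀ b, ∑ j, P T1 b j ≤ T1 - ∑ i, F i b := by
    intro b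
    have h1 := hXs T1 hT1 b
    rw [Fin.sum_univ_succ] at h1 ⊢
    have h2 := hI0 T1 hT1 b
    have h3 : ∑ i, F i b = T1 * ∑ i : Fin m, X T1 b i.succ - ∑ i : Fin m, P T1 b i.succ := by
      rw [mul_sum, ← sum_sub_distrib]
    rw [h3]
    nlinarith
  have hod : ∀ b, ∑ j, P T1 b j + c * ∑ j, P T2 b j ≤ c * T2 + ∑ i : Fin m, P T1 b i.succ := by
    intro b
    have h1 := hXs T2 hT2 b
    rw [Fin.sum_univ_succ] at h1
    rw [Fin.sum_univ_succ, Fin.sum_univ_succ]
    have h2 := hI0 T1 hT1 b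
    have h3 := hT0 T2 hT2 T1 hT1 b
    have h4 : ∑ i : Fin m, P T2 b i.succ ≤ T2 * ∑ i : Fin m, X T2 b i.succ := by
      rw [mul_sum]
      apply sum_le_sum
      intro i _
      have h5 := hI T2 hT2 b i
      have h6 := hX T2 hT2 b i.succ
      have h7 := hlo2 (b i)
      have h8 := hlo (b i)
      nlinarith
    have h9 : P T2 b 0 + ∑ i : Fin m, P T2 b i.succ ≤ T2 - X T1 b 0 * T2 + P T1 b 0 := by
      nlinarith
    have h10 : c * (P T2 b 0 + ∑ i : Fin m, P T2 b i.succ) ≤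
        c * (T2 - X T1 b 0 * T2 + P T1 b 0) := mul_le_mul_of_nonneg_left h9 hc.le
    have h11 : (1 + c) * P T1 b 0 ≤ (1 + c) * (X T1 b 0 * T1) :=
      mul_le_mul_of_nonneg_left h2 (by linarith)
    have h12 : (1 + c) * T1 = c * T2 := by linarith
    have h13 : (1 + c) * (X T1 b 0 * T1) = X T1 b 0 * (c * T2) := by
      rw [← h12]; ring
    linarith
  have hmain : ∀ i : Fin m, ∑ b ∈ Odf m Q, P T1 b i.succ ≤ ∑ b ∈ Evn m Q, F i b := by
    intro i
    have h1 : ∑ b ∈ Odf m Q, P T1 b i.succ ≤ ∑ b ∈ Odf m Q, F i (update b i (b i + 1)) := by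
      apply sum_le_sum
      intro b _
      have e1 : update b i (b i + 1) i = b i + 1 := update_self ..
      have a1 := hTi T1 hT1 b i (b i + 1)
      have a2 := hTi T1 hT1 (update b i (b i + 1)) i (b i)
      have e2 : update (update b i (b i + 1)) i (b i) = b := by
        rw [update_idem, update_eq_self]
      rw [e1, e2] at a2
      have a3 := hI T1 hT1 b i
      have a4 := hX T1 hT1 b i.succ
      have a5 := hX T1 hT1 (update b i (b i + 1)) i.succ
      have a6 := hlo1 (b i)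
      have a7 := hlo2 (b i + 1)
      have a8 := hlo (b i)
      show P T1 b i.succ ≤ T1 * X T1 (update b i (b i + 1)) i.succ -
        P T1 (update b i (b i + 1)) i.succ
      set x := X T1 b i.succ
      set x' := X T1 (update b i (b i + 1)) i.succ
      set p := P T1 b i.succ
      set p' := P T1 (update b i (b i + 1)) i.succ
      set l := lo (b i)
      set l' := lo (b i + 1)
      have a9 : x ≤ x' := by
        by_contra hlt
        rw [not_le] at hlt
        nlinarith [mul_pos (sub_pos.2 hlt) (sub_pos.2 a6)]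
      have a10 : 0 ≤ (T1 - 2 * l') * x' := mul_nonneg (by linarith) a5
      have a11 : 0 ≤ (x' - x) * l' := mul_nonneg (by linarith) (by linarith)
      have a12 : 0 ≤ x * (l' - l) := mul_nonneg a4 (by linarith)
      nlinarith
    have h2 : ∑ b ∈ Odf m Q, F i (update b i (b i + 1)) =
        ∑ b ∈ (Odf m Q).image fun b => update b i (b i + 1), F i b := by
      rw [sum_image]
      intro a _ b _ h
      exact shift_inj i h
    rw [h2] at h1
    refine h1.trans (sum_le_sum_of_subset_of_nonneg ?_ fun b _ _ => hF i b)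
    intro b hb
    obtain ⟨a, ha, rfl⟩ := mem_image.1 hb
    exact shift_mem ha i
  have s1 : ∑ b ∈ Evn m Q, ∑ j, P T1 b j ≤ (Evn m Q).card * T1 - ∑ b ∈ Evn m Q, ∑ i, F i b := by
    rw [← nsmul_eq_mul, ← sum_const, ← sum_sub_distrib]
    exact sum_le_sum fun b _ => hev b
  have s2 : ∑ b ∈ Odf m Q, ∑ j, P T1 b j + c * ∑ b ∈ Odf m Q, ∑ j, P T2 b j ≤
      (Odf m Q).card * (c * T2) + ∑ b ∈ Odf m Q, ∑ i : Fin m, P T1 b i.succ := by
    rw [mul_sum, ← sum_add_distrib, ← nsmul_eq_mul, ← sum_const, ← sum_add_distrib]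
    exact sum_le_sum fun b _ => hod b
  have s3 : ∑ b ∈ Odf m Q, ∑ i : Fin m, P T1 b i.succ ≤ ∑ b ∈ Evn m Q, ∑ i, F i b := by
    rw [sum_comm, sum_comm (s := Evn m Q)]
    exact sum_le_sum fun i _ => hmain i
  linarith

end Pool.Agent.V1127.Kl
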