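import Mathlib

/-!
Single-item auctions with correlated bidders and the k-lookahead mechanism.
-/

set_option autoImplicit false

namespace Pool.Agent.V1127.Kl

open Finset

/-- A (direct) mechanism for the bidders `ι`: allocation probabilities `x` and expected payments
`p`, as functions of the reported valuation vector. -/
structure Mech (ι : Type) where
  x : (ι → ℝ) → ι → ℝ
  p : (ι → ℝ) → ι → ℝ

/-- all valuations are positive -/
def Pos {ι : Type} (v : ι → ℝ) : Prop := ∀ i, 0 < v i

/-- The mechanism is feasible (`x ≥ 0`, `∑ x ≤ 1`), individually rational, and truthful in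
expectation, on all positive valuation vectors: if only bidder `i` misreports (`v'` instead of
`v`), her utility does not increase. -/
structure Mech.Ok {ι : Type} [Fintype ι] (M : Mech ι) : Prop where
  nonneg : ∀ v, Pos v → ∀ i, 0 ≤ M.x v i
  sum_le : ∀ v, Pos v → ∑ i, M.x v i ≤ 1
  ir : ∀ v, Pos v → ∀ i, 0 ≤ M.x v i * v i - M.p v i
  truthful : ∀ v v', Pos v → Pos v' → ∀ i, (∀ j, j ≠ i → v' j = v j) →
    M.x v' i * v i - M.p v' i ≤ M.x v i * v i - M.p v i

/-- A finitely supported joint distribution of the valuations of `n` bidders: the valuation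
vector is `v ω` with probability `w ω`, for `ω` in a finite type. -/
structure Dist (n : ℕ) where
  Ω : Type
  fin : Fintype Ω
  w : Ω → ℝ
  v : Ω → Fin n → ℝ
  w_pos : ∀ ω, 0 < w ω
  sum_w : ∑ ω, w ω = 1
  v_pos : ∀ ω, Pos (v ω)

attribute [instance] Dist.fin

/-- expected revenue of a mechanism -/
noncomputable def Dist.rev {n : ℕ} (D : Dist n) (M : Mech (Fin n)) : ℝ :=
  ∑ ω, D.w ω * ∑ i, M.p (D.v ω) i

/-- the optimal expected revenue -/
noncomputable def Dist.opt {n : ℕ} (D : Dist n) : ℝ :=
  sSup {r | ∃ M : Mech (Fin n), M.Ok ∧ r = D.rev M}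

/-- bidder `j` is ranked before bidder `i`: higher value, ties broken by index -/
def Ahead {n : ℕ} (v : Fin n → ℝ) (j i : Fin n) : Prop := v i < v j ∨ (v j = v i ∧ j < i)

open Classical in
/-- the set of the `k` highest bidders -/
noncomputable def topK {n : ℕ} (k : ℕ) (v : Fin n → ℝ) : Finset (Fin n) :=
  univ.filter fun i => (univ.filter fun j => Ahead v j i).card < k

/-- the valuations inside `K` -/
def inn {n : ℕ} (K : Finset (Fin n)) (v : Fin n → ℝ) : {i // i ∈ K} → ℝ := fun i => v i

/-- the valuations outside `K` -/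
def out {n : ℕ} (K : Finset (Fin n)) (v : Fin n → ℝ) : {i // i ∉ K} → ℝ := fun i => v i

open Classical in
/-- the event that the valuations outside `K` are `u`, and that all the valuations inside `K` are
at least all those outside `K` -/
noncomputable def ev {n : ℕ} (D : Dist n) (K : Finset (Fin n)) (u : {i // i ∉ K} → ℝ) :
    Finset D.Ω :=
  univ.filter fun ω => out K (D.v ω) = u ∧ ∀ i ∈ K, ∀ j ∉ K, D.v ω j ≤ D.v ω i

/-- expected revenue, conditionally on the event `ev D K u`, of a mechanism for the bidders in
`K` -/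
noncomputable def condRev {n : ℕ} (D : Dist n) (K : Finset (Fin n)) (u : {i // i ∉ K} → ℝ)
    (M : Mech {i // i ∈ K}) : ℝ :=
  (∑ ω ∈ ev D K u, D.w ω * ∑ i, M.p (inn K (D.v ω)) i) / ∑ ω ∈ ev D K u, D.w ω

/-- a choice of a mechanism for every set `K` of bidders and all valuations outside `K` -/
abbrev Fam (n : ℕ) : Type :=
  (K : Finset (Fin n)) → ({i // i ∉ K} → ℝ) → Mech {i // i ∈ K}

/-- `L` is a `k`-lookahead mechanism for `D`: whenever `K` is the set of the `k` highest bidders
and `u` is the vector of the other valuations, `L K u` is a truthful, individually rational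
mechanism for `K` of maximal revenue for the conditional distribution. -/
def IsLookahead {n : ℕ} (k : ℕ) (D : Dist n) (L : Fam n) : Prop :=
  ∀ ω : D.Ω, ∀ K : Finset (Fin n), K = topK k (D.v ω) →
    (L K (out K (D.v ω))).Ok ∧ ∀ M : Mech {i // i ∈ K}, M.Ok →
      condRev D K (out K (D.v ω)) M ≤ condRev D K (out K (D.v ω)) (L K (out K (D.v ω)))

/-- total payment when the bidders in `K` are served by `L` and the others get nothing -/
noncomputable def pay {n : ℕ} (L : Fam n) (K : Finset (Fin n)) (v : Fin n → ℝ) : ℝ :=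
  ∑ i, (L K (out K v)).p (inn K v) i

/-- the expected revenue of the `k`-lookahead mechanism `L` -/
noncomputable def laRev {n : ℕ} (k : ℕ) (D : Dist n) (L : Fam n) : ℝ :=
  ∑ ω, D.w ω * pay L (topK k (D.v ω)) (D.v ω)

/-- the ratios of the revenue of `k`-lookahead mechanisms to the optimal revenue -/
def ratios (k : ℕ) : Set ℝ :=
  {r | ∃ (n : ℕ) (D : Dist n) (L : Fam n), IsLookahead k D L ∧ 0 < D.opt ∧
    r = laRev k D L / D.opt}

/-- the approximation ratio of the `k`-lookahead mechanism -/
noncomputable def rho (k : ℕ) : ℝ := sInf (ratios k)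

end Pool.Agent.V1127.Kl
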