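import Pool.Agent.V1127.KlMain

/-!
The bound on the approximation ratio.
-/

set_option autoImplicit false

namespace Pool.Agent.V1127.Kl

open Finset Function

variable {m : ℕ}

/-- total weight -/
noncomputable def Wt (m : ℕ) (c : ℝ) (Q : ℕ) : ℝ :=
  (Evn m Q).card + ((Odf m Q).card + (Odf m Q).card * c)

theorem Evn_pos (m Q : ℕ) : 0 < (Evn m Q).card := by
  rw [card_pos]
  refine ⟨fun _ => 0, ?_⟩
  rw [Evn, mem_filter, mem_Gr]
  exact ⟨fun _ => Nat.succ_pos _, by simp⟩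

theorem Wt_pos (m : ℕ) {c : ℝ} (hc : 0 < c) (Q : ℕ) : 0 < Wt m c Q := by
  unfold Wt
  have : (0 : ℝ) < (Evn m Q).card := by exact_mod_cast Evn_pos m Q
  positivity

theorem tA_pos {c : ℝ} (hc : 0 < c) : 1 < tA c := by unfold tA; linarith

theorem tB_gt {c : ℝ} (hc : 0 < c) : tA c < tB c := by
  unfold tB
  have h1 : 0 < 1 / c := by positivity
  have h2 := tA_pos hc
  nlinarith

theorem ctB {c : ℝ} (hc : 0 < c) : c * tB c = (c + 1) * tA c := by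
  unfold tB
  field_simp

theorem sum_Om {m Q : ℕ} (f : {b // b ∈ Evn m Q} ⊕ ({b // b ∈ Odf m Q} ⊕ {b // b ∈ Odf m Q}) → ℝ)
    (g1 g2 g3 : (Fin m → ℕ) → ℝ) (h1 : ∀ b, f (Sum.inl b) = g1 b.1)
    (h2 : ∀ b, f (Sum.inr (Sum.inl b)) = g2 b.1) (h3 : ∀ b, f (Sum.inr (Sum.inr b)) = g3 b.1) :
    ∑ ω, f ω = ∑ b ∈ Evn m Q, g1 b + (∑ b ∈ Odf m Q, g2 b + ∑ b ∈ Odf m Q, g3 b) := by
  rw [Fintype.sum_sum_type, Fintype.sum_sum_type]
  rw [← Finset.sum_coe_sort (Evn m Q) g1, ← Finset.sum_coe_sort (Odf m Q) g2,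
    ← Finset.sum_coe_sort (Odf m Q) g3]
  rw [sum_congr rfl fun b _ => h1 b, sum_congr rfl fun b _ => h2 b, sum_congr rfl fun b _ => h3 b]

/-- the weights -/
noncomputable def wOm (m : ℕ) (c : ℝ) (Q : ℕ) :
    {b // b ∈ Evn m Q} ⊕ ({b // b ∈ Odf m Q} ⊕ {b // b ∈ Odf m Q}) → ℝ
  | Sum.inl _ => 1 / Wt m c Q
  | Sum.inr (Sum.inl _) => 1 / Wt m c Q
  | Sum.inr (Sum.inr _) => c / Wt m c Q

/-- the profiles -/
noncomputable def vOm (m : ℕ) (c : ℝ) (Q : ℕ) :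
    {b // b ∈ Evn m Q} ⊕ ({b // b ∈ Odf m Q} ⊕ {b // b ∈ Odf m Q}) → Fin (m + 2) → ℝ
  | Sum.inl b => prof c (tA c) b.1
  | Sum.inr (Sum.inl b) => prof c (tA c) b.1
  | Sum.inr (Sum.inr b) => prof c (tB c) b.1

/-- the distribution -/
noncomputable def Ds (m : ℕ) {c : ℝ} (hc : 0 < c) (Q : ℕ) : Dist (m + 2) where
  Ω := {b // b ∈ Evn m Q} ⊕ ({b // b ∈ Odf m Q} ⊕ {b // b ∈ Odf m Q})
  fin := inferInstance
  w := wOm m c Q
  v := vOm m c Q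
  w_pos := by
    have := Wt_pos m hc Q
    rintro (b | b | b)
    · exact div_pos one_pos this
    · exact div_pos one_pos this
    · exact div_pos hc this
  sum_w := by
    have h := Wt_pos m hc Q
    rw [sum_Om (wOm m c Q) (fun _ => 1 / Wt m c Q) (fun _ => 1 / Wt m c Q)
      (fun _ => c / Wt m c Q) (fun _ => rfl) (fun _ => rfl) (fun _ => rfl)]
    rw [sum_const, sum_const, sum_const, nsmul_eq_mul, nsmul_eq_mul, nsmul_eq_mul]
    have e : ((Evn m Q).card : ℝ) * (1 / Wt m c Q) + ((Odf m Q).card * (1 / Wt m c Q) +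
        (Odf m Q).card * (c / Wt m c Q)) =
        ((Evn m Q).card + ((Odf m Q).card + (Odf m Q).card * c)) / Wt m c Q := by
      ring
    rw [e]
    exact div_self h.ne'
  v_pos := by
    have h1 := tA_pos hc
    have h2 := tB_gt hc
    rintro (b | b | b)
    · exact prof_pos hc (by linarith) _
    · exact prof_pos hc (by linarith) _
    · exact prof_pos hc (by linarith) _

theorem Ds_prof {c : ℝ} (hc : 0 < c) (Q : ℕ) (ω : (Ds m hc Q).Ω) :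
    ∃ t, 1 < t ∧ ∃ b : Fin m → ℕ, (Ds m hc Q).v ω = prof c t b := by
  have h1 := tA_pos hc
  have h2 := tB_gt hc
  rcases ω with b | b | b
  · exact ⟨_, h1, _, rfl⟩
  · exact ⟨_, h1, _, rfl⟩
  · exact ⟨_, h1.trans h2, _, rfl⟩

theorem Ds_topK {c : ℝ} (hc : 0 < c) (Q : ℕ) (ω : (Ds m hc Q).Ω) :
    topK (m + 1) ((Ds m hc Q).v ω) = K0 m := by
  obtain ⟨t, ht, b, hb⟩ := Ds_prof hc Q ω
  rw [hb, topK_prof hc ht]

theorem out_prof (c t : ℝ) (b : Fin m → ℕ) : out (K0 m) (prof c t b) = fun _ => 1 := by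
  funext i
  obtain ⟨i, hi⟩ := i
  have h : i = Fin.last (m + 1) := by
    by_contra h
    exact hi (by rw [K0, mem_erase]; exact ⟨h, mem_univ _⟩)
  subst h
  exact prof_last c t b

theorem Ds_ev {c : ℝ} (hc : 0 < c) (Q : ℕ) (ω : (Ds m hc Q).Ω) :
    ev (Ds m hc Q) (K0 m) (out (K0 m) ((Ds m hc Q).v ω)) = univ := by
  classical
  rw [ev, filter_true_of_mem]
  intro ω' _
  obtain ⟨t, ht, b, hb⟩ := Ds_prof hc Q ω
  obtain ⟨t', ht', b', hb'⟩ := Ds_prof hc Q ω'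
  rw [hb, hb', out_prof, out_prof]
  refine ⟨rfl, fun i hi j hj => ?_⟩
  have h : j = Fin.last (m + 1) := by
    by_contra h
    exact hj (by rw [K0, mem_erase]; exact ⟨h, mem_univ _⟩)
  subst h
  rw [prof_last]
  rw [K0, mem_erase] at hi
  obtain ⟨l, rfl⟩ := Fin.exists_castSucc_eq.2 hi.1
  exact (prof_gt hc ht' b' l).le

theorem Ds_sum {c : ℝ} (hc : 0 < c) (Q : ℕ) (g : (Fin (m + 2) → ℝ) → ℝ) :
    ∑ ω, (Ds m hc Q).w ω * g ((Ds m hc Q).v ω) =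
      (∑ b ∈ Evn m Q, g (prof c (tA c) b) + ∑ b ∈ Odf m Q, g (prof c (tA c) b) +
        c * ∑ b ∈ Odf m Q, g (prof c (tB c) b)) / Wt m c Q := by
  have h := sum_Om (fun ω => wOm m c Q ω * g (vOm m c Q ω))
    (fun b => 1 / Wt m c Q * g (prof c (tA c) b)) (fun b => 1 / Wt m c Q * g (prof c (tA c) b))
    (fun b => c / Wt m c Q * g (prof c (tB c) b)) (fun _ => rfl) (fun _ => rfl) (fun _ => rfl)
  refine Eq.trans h ?_
  rw [← mul_sum, ← mul_sum, ← mul_sum]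
  ring

theorem Ds_condRev {c : ℝ} (hc : 0 < c) (Q : ℕ) (ω : (Ds m hc Q).Ω)
    (M : Mech {i // i ∈ K0 m}) :
    condRev (Ds m hc Q) (K0 m) (out (K0 m) ((Ds m hc Q).v ω)) M =
      (∑ b ∈ Evn m Q, ∑ i, M.p (inn (K0 m) (prof c (tA c) b)) i +
      ∑ b ∈ Odf m Q, ∑ i, M.p (inn (K0 m) (prof c (tA c) b)) i +
      c * ∑ b ∈ Odf m Q, ∑ i, M.p (inn (K0 m) (prof c (tB c) b)) i) / Wt m c Q := by
  unfold condRev
  rw [Ds_ev, (Ds m hc Q).sum_w, div_one]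
  exact Ds_sum hc Q fun v => ∑ i, M.p (inn (K0 m) v) i

theorem surj_val (j : Fin m) : ∃ i : {i // i ∈ K0 m}, (i : Fin (m + 2)) = Fin.castSucc j.succ :=
  ⟨⟨_, cs_mem _⟩, rfl⟩

theorem Ls_even {c : ℝ} {Q : ℕ} (u : {i // i ∉ K0 m} → ℝ) {b : Fin m → ℕ}
    (hb : b ∈ Evn m Q) :
    ∑ i, (Ls m c Q (K0 m) u).p (inn (K0 m) (prof c (tA c) b)) i = tA c := by
  have hT : Tv (Subtype.val : {i // i ∈ K0 m} → Fin (m + 2)) c Q
      (inn (K0 m) (prof c (tA c) b)) = tA c := Tv_even hb (fun i => rfl)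
  unfold Ls
  rw [det_sum (i := (⟨Fin.castSucc 0, cs_mem 0⟩ : {i // i ∈ K0 m}))]
  · exact hT
  · refine ⟨rfl, ?_⟩
    rw [hT]
    exact (prof_zero c (tA c) b).ge
  · intro j hj
    exact Subtype.ext hj.1

theorem Ls_odd {c : ℝ} (hc : 0 < c) {Q : ℕ} (u : {i // i ∉ K0 m} → ℝ) {b : Fin m → ℕ}
    (hb : b ∈ Odf m Q) :
    ∑ i, (Ls m c Q (K0 m) u).p (inn (K0 m) (prof c (tA c) b)) i = 0 := by
  have hT : Tv (Subtype.val : {i // i ∈ K0 m} → Fin (m + 2)) c Q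
      (inn (K0 m) (prof c (tA c) b)) = tB c := Tv_odd hc hb (fun i => rfl) surj_val
  unfold Ls
  rw [det_sum0]
  rintro ⟨j, hj⟩ ⟨h1, h2⟩
  rw [hT] at h2
  simp only at h1
  subst h1
  have h3 : inn (K0 m) (prof c (tA c) b) ⟨Fin.castSucc 0, hj⟩ = tA c := prof_zero c (tA c) b
  rw [h3] at h2
  exact absurd h2 (not_le.2 (tB_gt hc))

theorem Ls_odd' {c : ℝ} (hc : 0 < c) {Q : ℕ} (u : {i // i ∉ K0 m} → ℝ) {b : Fin m → ℕ}
    (hb : b ∈ Odf m Q) :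
    ∑ i, (Ls m c Q (K0 m) u).p (inn (K0 m) (prof c (tB c) b)) i = tB c := by
  have hT : Tv (Subtype.val : {i // i ∈ K0 m} → Fin (m + 2)) c Q
      (inn (K0 m) (prof c (tB c) b)) = tB c := Tv_odd hc hb (fun i => rfl) surj_val
  unfold Ls
  rw [det_sum (i := (⟨Fin.castSucc 0, cs_mem 0⟩ : {i // i ∈ K0 m}))]
  · exact hT
  · refine ⟨rfl, ?_⟩
    rw [hT]
    exact (prof_zero c (tB c) b).ge
  · intro j hj
    exact Subtype.ext hj.1

theorem Mf_even {c : ℝ} {Q : ℕ} {b : Fin m → ℕ} (hb : b ∈ Evn m Q) :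
    ∑ i, (Mf m c Q).p (prof c (tA c) b) i = tA c := by
  have hT : Tv (id : Fin (m + 2) → Fin (m + 2)) c Q (prof c (tA c) b) = tA c :=
    Tv_even hb (fun i => rfl)
  unfold Mf
  rw [det_sum (i := Fin.castSucc 0)]
  · rw [if_neg z_ne_last, hT]
  · refine Or.inl ⟨rfl, ?_⟩
    rw [hT, prof_zero]
  · rintro j (hj | hj)
    · exact hj.1
    · exfalso
      apply hj.2.1
      rw [hT, prof_zero]

theorem Mf_odd {c : ℝ} (hc : 0 < c) {Q : ℕ} {b : Fin m → ℕ} (hb : b ∈ Odf m Q) :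
    ∑ i, (Mf m c Q).p (prof c (tA c) b) i = 1 := by
  have hT : Tv (id : Fin (m + 2) → Fin (m + 2)) c Q (prof c (tA c) b) = tB c :=
    Tv_odd hc hb (fun i => rfl) (fun j => ⟨_, rfl⟩)
  unfold Mf
  have hlt : ¬ tB c ≤ tA c := not_le.2 (tB_gt hc)
  rw [det_sum (i := Fin.last (m + 1))]
  · rw [if_pos rfl]
  · refine Or.inr ⟨rfl, ?_, ?_⟩
    · rw [hT, prof_zero]; exact hlt
    · rw [prof_last]
  · rintro j (hj | hj)
    · exfalso
      have h2 := hj.2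
      rw [hT, hj.1, prof_zero] at h2
      exact hlt h2
    · exact hj.1

theorem Mf_odd' {c : ℝ} (hc : 0 < c) {Q : ℕ} {b : Fin m → ℕ} (hb : b ∈ Odf m Q) :
    ∑ i, (Mf m c Q).p (prof c (tB c) b) i = tB c := by
  have hT : Tv (id : Fin (m + 2) → Fin (m + 2)) c Q (prof c (tB c) b) = tB c :=
    Tv_odd hc hb (fun i => rfl) (fun j => ⟨_, rfl⟩)
  unfold Mf
  rw [det_sum (i := Fin.castSucc 0)]
  · rw [if_neg z_ne_last, hT]
  · refine Or.inl ⟨rfl, ?_⟩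
    rw [hT, prof_zero]
  · rintro j (hj | hj)
    · exact hj.1
    · exfalso
      apply hj.2.1
      rw [hT, prof_zero]

theorem Ls_lookahead {c : ℝ} (hc : 0 < c) (Q : ℕ) :
    IsLookahead (m + 1) (Ds m hc Q) (Ls m c Q) := by
  intro ω K hK
  rw [Ds_topK] at hK
  subst hK
  refine ⟨Ls_ok _ _ _ _, fun M hM => ?_⟩
  rw [Ds_condRev, Ds_condRev]
  apply div_le_div_of_nonneg_right _ (Wt_pos m hc Q).le
  refine (core_mech hc hM).trans (le_of_eq ?_)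
  rw [sum_congr rfl fun b hb => Ls_even _ hb, sum_congr rfl fun b hb => Ls_odd hc _ hb,
    sum_congr rfl fun b hb => Ls_odd' hc _ hb]
  rw [sum_const, sum_const, sum_const, nsmul_eq_mul, nsmul_eq_mul, nsmul_eq_mul]
  ring

theorem Ls_rev {c : ℝ} (hc : 0 < c) (Q : ℕ) : laRev (m + 1) (Ds m hc Q) (Ls m c Q) =
    ((Evn m Q).card * tA c + (Odf m Q).card * (c * tB c)) / Wt m c Q := by
  unfold laRev
  have h1 : ∀ ω, (Ds m hc Q).w ω * pay (Ls m c Q) (topK (m + 1) ((Ds m hc Q).v ω))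
      ((Ds m hc Q).v ω) = (Ds m hc Q).w ω * pay (Ls m c Q) (K0 m) ((Ds m hc Q).v ω) := by
    intro ω
    rw [Ds_topK]
  rw [sum_congr rfl fun ω _ => h1 ω, Ds_sum hc Q fun v => pay (Ls m c Q) (K0 m) v]
  congr 1
  unfold pay
  rw [sum_congr rfl fun b hb => Ls_even _ hb, sum_congr rfl fun b hb => Ls_odd hc _ hb,
    sum_congr rfl fun b hb => Ls_odd' hc _ hb]
  rw [sum_const, sum_const, sum_const, nsmul_eq_mul, nsmul_eq_mul, nsmul_eq_mul]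
  ring

theorem Mf_rev {c : ℝ} (hc : 0 < c) (Q : ℕ) : (Ds m hc Q).rev (Mf m c Q) =
    ((Evn m Q).card * tA c + (Odf m Q).card * (c * tB c) + (Odf m Q).card) / Wt m c Q := by
  unfold Dist.rev
  rw [Ds_sum hc Q fun v => ∑ i, (Mf m c Q).p v i]
  congr 1
  rw [sum_congr rfl fun b hb => Mf_even hb, sum_congr rfl fun b hb => Mf_odd hc hb,
    sum_congr rfl fun b hb => Mf_odd' hc hb]
  rw [sum_const, sum_const, sum_const, nsmul_eq_mul, nsmul_eq_mul, nsmul_eq_mul]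
  ring

theorem exists_Q (hm : 1 ≤ m) {c : ℝ} (hc : 0 < c) : ∃ Q : ℕ,
    ((Evn m Q).card : ℝ) ≤ (1 + c) * (Odf m Q).card ∧ (0 : ℝ) < (Odf m Q).card := by
  have h0 : Filter.Tendsto (fun n : ℕ => 1 / (n : ℝ)) Filter.atTop (nhds 0) :=
    tendsto_one_div_atTop_nhds_zero_nat
  have h1 : Filter.Tendsto (fun n : ℕ => (1 + 1 / (n : ℝ)) ^ m + (2 + c) * (1 / (n : ℝ)))
      Filter.atTop (nhds ((1 + 0) ^ m + (2 + c) * 0)) :=
    ((h0.const_add 1).pow m).add (h0.const_mul (2 + c))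
  have h2 : (1 + (0 : ℝ)) ^ m + (2 + c) * 0 < 1 + c := by
    rw [add_zero, one_pow, mul_zero, add_zero]
    linarith
  have h3 := (h1.eventually (gt_mem_nhds h2)).and (Filter.eventually_ge_atTop 2)
  obtain ⟨Q, hQ, hQ2⟩ := h3.exists
  have hQ0 : (2 : ℝ) ≤ Q := by exact_mod_cast hQ2
  have hQpos : (0 : ℝ) < Q := by linarith
  obtain ⟨m', rfl⟩ : ∃ m', m = m' + 1 := ⟨m - 1, by omega⟩
  have h5 : (1 : ℝ) ≤ (Q : ℝ) ^ m' := one_le_pow₀ (by linarith)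
  have h6 : (Q : ℝ) ^ (m' + 1) = Q ^ m' * Q := pow_succ _ _
  have h7 : ((Q : ℝ) + 1) ^ (m' + 1) = (1 + 1 / (Q : ℝ)) ^ (m' + 1) * Q ^ (m' + 1) := by
    rw [← mul_pow]
    congr 1
    field_simp
  have h8 : (2 + c) * (1 / (Q : ℝ)) * Q ^ (m' + 1) = (2 + c) * Q ^ m' := by
    rw [h6]
    field_simp
  have h9 : ((1 + 1 / (Q : ℝ)) ^ (m' + 1) + (2 + c) * (1 / (Q : ℝ))) * Q ^ (m' + 1) ≤
      (1 + c) * Q ^ (m' + 1) := mul_le_mul_of_nonneg_right hQ.le (by positivity)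
  rw [add_mul, ← h7, h8] at h9
  have ha := card_Evn_le (m' + 1) Q
  have hb := card_Odf_ge (m' + 1) Q
  refine ⟨Q, ?_, ?_⟩
  · nlinarith
  · have : (2 : ℝ) ≤ Q ^ (m' + 1) := by rw [h6]; nlinarith
    linarith

theorem ratio_exists (hm : 1 ≤ m) {c : ℝ} (hc : 0 < c) :
    ∃ r ∈ ratios (m + 1), r ≤ 4 / 5 + c := by
  obtain ⟨Q, h1, h2⟩ := exists_Q hm hc
  have hW := Wt_pos m hc Q
  have hopt := rev_le_opt (Ds m hc Q) (Mf_ok (m := m) c Q)
  rw [Mf_rev hc Q] at hopt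
  have hA := tA_pos hc
  have hB := tB_gt hc
  set E : ℝ := ((Evn m Q).card : ℝ) with hE
  set O : ℝ := ((Odf m Q).card : ℝ) with hO
  have hE0 : 0 < E := by rw [hE]; exact_mod_cast Evn_pos m Q
  have hR0 : 0 < E * tA c + O * (c * tB c) := by
    have : 0 < tA c := by linarith
    have : 0 < tB c := by linarith
    positivity
  have hR : E * tA c + O * (c * tB c) ≤ 4 * (1 + c) ^ 2 * O := by
    rw [ctB hc]
    have e : 4 * (1 + c) ^ 2 * O = ((1 + c) * O) * tA c + O * ((c + 1) * tA c) := by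
      unfold tA; ring
    rw [e]
    have := mul_le_mul_of_nonneg_right h1 (by linarith : 0 ≤ tA c)
    linarith
  have hpos : 0 < (Ds m hc Q).opt := lt_of_lt_of_le (div_pos (by linarith) hW) hopt
  refine ⟨_, ⟨m + 2, Ds m hc Q, Ls m c Q, Ls_lookahead hc Q, hpos, rfl⟩, ?_⟩
  rw [div_le_iff₀ hpos, Ls_rev hc Q]
  refine le_trans ?_ (mul_le_mul_of_nonneg_left hopt (by linarith))
  rw [← mul_div_assoc]
  apply div_le_div_of_nonneg_right _ hW.le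
  rw [← hE, ← hO]
  set R := E * tA c + O * (c * tB c)
  by_cases h3 : 1 / 5 - c ≤ 0
  · nlinarith
  · rw [not_le] at h3
    have h4 : R * (1 / 5 - c) ≤ 4 * (1 + c) ^ 2 * O * (1 / 5 - c) :=
      mul_le_mul_of_nonneg_right hR h3.le
    have h5 : 4 * (1 + c) ^ 2 * (1 / 5 - c) ≤ 4 / 5 + c := by
      nlinarith [mul_pos hc hc, mul_pos (mul_pos hc hc) hc]
    have h6 : 4 * (1 + c) ^ 2 * (1 / 5 - c) * O ≤ (4 / 5 + c) * O :=
      mul_le_mul_of_nonneg_right h5 h2.le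
    nlinarith

theorem rho_le {k : ℕ} (hk : 2 ≤ k) : rho k ≤ 4 / 5 := by
  obtain ⟨m, rfl⟩ : ∃ m, k = m + 1 := ⟨k - 1, by omega⟩
  apply le_of_forall_pos_le_add
  intro c hc
  obtain ⟨r, hr, hr2⟩ := ratio_exists (m := m) (by omega) hc
  exact (csInf_le (bddBelow_ratios _) hr).trans hr2

theorem rho_glb {k : ℕ} (hk : 2 ≤ k) : IsGLB (ratios k) (rho k) := by
  obtain ⟨m, rfl⟩ : ∃ m, k = m + 1 := ⟨k - 1, by omega⟩
  obtain ⟨r, hr, _⟩ := ratio_exists (m := m) (by omega) one_pos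
  exact isGLB_csInf ⟨r, hr⟩ (bddBelow_ratios _)

theorem not_tendsto : ¬ Filter.Tendsto rho Filter.atTop (nhds 1) := by
  intro h
  have h1 := (h.eventually (lt_mem_nhds (show (4 / 5 : ℝ) < 1 by norm_num))).and
    (Filter.eventually_ge_atTop 2)
  obtain ⟨k, hk, hk2⟩ := h1.exists
  exact absurd (rho_le hk2) (not_le.2 hk)

end Pool.Agent.V1127.Kl
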