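import Pool.Agent.V1127.KlCore

/-!
The example distributions and the bound on the approximation ratio.
-/

set_option autoImplicit false

namespace Pool.Agent.V1127.Kl

open Finset Function

/-- low values -/
noncomputable def lo (c : ℝ) (j : ℕ) : ℝ := 1 + c * (((j : ℝ) + 1) / ((j : ℝ) + 2))

theorem lo_gt {c : ℝ} (hc : 0 < c) (j : ℕ) : 1 < lo c j := by
  unfold lo
  have : 0 < c * (((j : ℝ) + 1) / ((j : ℝ) + 2)) := by positivity
  linarith

theorem lo_lt {c : ℝ} (hc : 0 < c) (j : ℕ) : lo c j < lo c (j + 1) := by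
  unfold lo
  have h : ((j : ℝ) + 1) / ((j : ℝ) + 2) < (((j + 1 : ℕ) : ℝ) + 1) / (((j + 1 : ℕ) : ℝ) + 2) := by
    rw [div_lt_div_iff₀ (by positivity) (by positivity)]
    push_cast
    nlinarith
  have := mul_lt_mul_of_pos_left h hc
  linarith

theorem lo_le {c : ℝ} (hc : 0 < c) (j : ℕ) : 2 * lo c j ≤ 2 * (1 + c) := by
  unfold lo
  have h : ((j : ℝ) + 1) / ((j : ℝ) + 2) ≤ 1 := by
    rw [div_le_one (by positivity)]
    linarith
  nlinarith

theorem lo_inj {c : ℝ} (hc : 0 < c) : Function.Injective (lo c) :=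
  (strictMono_nat_of_lt_succ (lo_lt hc)).injective

/-- the threshold for the even class -/
noncomputable def tA (c : ℝ) : ℝ := 2 * (1 + c)

/-- the threshold for the odd class -/
noncomputable def tB (c : ℝ) : ℝ := (1 + 1 / c) * tA c

variable {m : ℕ}

/-- the valuation profile: first bidder `t`, bidders `1..m` low values given by `b`, last
bidder `1` -/
noncomputable def prof (c t : ℝ) (b : Fin m → ℕ) : Fin (m + 2) → ℝ :=
  Fin.snoc (α := fun _ => ℝ) (Fin.cons (α := fun _ => ℝ) t fun i => lo c (b i)) 1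

theorem prof_last (c t : ℝ) (b : Fin m → ℕ) : prof c t b (Fin.last (m + 1)) = 1 := by
  unfold prof
  rw [Fin.snoc_last]

theorem prof_zero (c t : ℝ) (b : Fin m → ℕ) : prof c t b (Fin.castSucc 0) = t := by
  unfold prof
  rw [Fin.snoc_castSucc, Fin.cons_zero]

theorem prof_succ (c t : ℝ) (b : Fin m → ℕ) (i : Fin m) :
    prof c t b (Fin.castSucc i.succ) = lo c (b i) := by
  unfold prof
  rw [Fin.snoc_castSucc, Fin.cons_succ]

theorem prof_gt {c : ℝ} (hc : 0 < c) {t : ℝ} (ht : 1 < t) (b : Fin m → ℕ) (j : Fin (m + 1)) :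
    1 < prof c t b j.castSucc := by
  refine Fin.cases ?_ (fun i => ?_) j
  · rw [prof_zero]; exact ht
  · rw [prof_succ]; exact lo_gt hc _

theorem prof_pos {c : ℝ} (hc : 0 < c) {t : ℝ} (ht : 0 < t) (b : Fin m → ℕ) :
    Pos (prof c t b) := by
  intro i
  refine Fin.lastCases ?_ (fun j => ?_) i
  · rw [prof_last]; norm_num
  · refine Fin.cases ?_ (fun i => ?_) j
    · rw [prof_zero]; exact ht
    · rw [prof_succ]; exact lt_trans one_pos (lo_gt hc _)

/-- the set of all the bidders but the last -/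
def K0 (m : ℕ) : Finset (Fin (m + 2)) := univ.erase (Fin.last (m + 1))

theorem cs_mem (j : Fin (m + 1)) : j.castSucc ∈ K0 m := by
  rw [K0, mem_erase]
  exact ⟨Fin.castSucc_ne_last j, mem_univ _⟩

theorem topK_prof {c : ℝ} (hc : 0 < c) {t : ℝ} (ht : 1 < t) (b : Fin m → ℕ) :
    topK (m + 1) (prof c t b) = K0 m := by
  classical
  ext i
  rw [topK, mem_filter]
  refine Fin.lastCases ?_ (fun j => ?_) i
  · constructor
    · rintro ⟨_, h⟩
      exfalso
      have h1 : K0 m ⊆ univ.filter fun j => Ahead (prof c t b) j (Fin.last (m + 1)) := by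
        intro j hj
        rw [mem_filter]
        refine ⟨mem_univ _, Or.inl ?_⟩
        rw [K0, mem_erase] at hj
        obtain ⟨l, rfl⟩ := Fin.exists_castSucc_eq.2 hj.1
        rw [prof_last]
        exact prof_gt hc ht b l
      have h2 := card_le_card h1
      have h3 : (K0 m).card = m + 1 := by
        rw [K0, card_erase_of_mem (mem_univ _), card_univ, Fintype.card_fin]
        rfl
      omega
    · intro h
      rw [K0, mem_erase] at h
      exact absurd rfl h.1
  · constructor
    · intro _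
      exact cs_mem j
    · intro _
      refine ⟨mem_univ _, ?_⟩
      have h1 : (univ.filter fun l => Ahead (prof c t b) l j.castSucc) ⊆
          (K0 m).erase j.castSucc := by
        intro l hl
        rw [mem_filter] at hl
        rw [mem_erase, K0, mem_erase]
        refine ⟨?_, ?_, mem_univ _⟩
        · rintro rfl
          rcases hl.2 with h | h
          · exact lt_irrefl _ h
          · exact lt_irrefl _ h.2
        · rintro rfl
          have h5 := prof_gt hc ht b j
          rcases hl.2 with h | h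
          · rw [prof_last] at h; linarith
          · rw [prof_last] at h; linarith [h.1]
      have h2 := card_le_card h1
      have h3 : (K0 m).card = m + 1 := by
        rw [K0, card_erase_of_mem (mem_univ _), card_univ, Fintype.card_fin]
        rfl
      rw [card_erase_of_mem (cs_mem j), h3] at h2
      omega

/-- the bidders of `K0` -/
noncomputable def e0 (m : ℕ) : Fin (m + 1) ≃ {i // i ∈ K0 m} :=
  Equiv.ofBijective (fun j => ⟨j.castSucc, cs_mem j⟩) (by
    constructor
    · intro a b h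
      exact Fin.castSucc_injective _ (congrArg Subtype.val h)
    · rintro ⟨i, hi⟩
      rw [K0, mem_erase] at hi
      obtain ⟨l, rfl⟩ := Fin.exists_castSucc_eq.2 hi.1
      exact ⟨l, rfl⟩)

theorem e0_val (j : Fin (m + 1)) : ((e0 m j : {i // i ∈ K0 m}) : Fin (m + 2)) = j.castSucc := rfl

theorem inn_e0 (v : Fin (m + 2) → ℝ) (j : Fin (m + 1)) : inn (K0 m) v (e0 m j) = v j.castSucc :=
  rfl

theorem inn_pos {n : ℕ} {K : Finset (Fin n)} {v : Fin n → ℝ} (h : Pos v) : Pos (inn K v) :=
  fun i => h i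

theorem core_mech {Q : ℕ} {c : ℝ} (hc : 0 < c) {M : Mech {i // i ∈ K0 m}} (hM : M.Ok) :
    ∑ b ∈ Evn m Q, ∑ i, M.p (inn (K0 m) (prof c (tA c) b)) i +
      ∑ b ∈ Odf m Q, ∑ i, M.p (inn (K0 m) (prof c (tA c) b)) i +
      c * ∑ b ∈ Odf m Q, ∑ i, M.p (inn (K0 m) (prof c (tB c) b)) i ≤
      (Evn m Q).card * tA c + (Odf m Q).card * (c * tB c) := by
  have hA : 0 < tA c := by unfold tA; linarith
  have hAB : tA c ≤ tB c := by
    unfold tB
    have : 0 < 1 / c := by positivity
    nlinarith
  have hcT : c * (tB c - tA c) = tA c := by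
    unfold tB
    field_simp
    ring
  have h := core (m := m) (Q := Q) (T1 := tA c) (T2 := tB c) (c := c) (lo := lo c) hc hA
    (fun j => lt_trans one_pos (lo_gt hc j)) (lo_lt hc) (fun j => lo_le hc j) hcT hAB
    (fun t b j => M.x (inn (K0 m) (prof c t b)) (e0 m j))
    (fun t b j => M.p (inn (K0 m) (prof c t b)) (e0 m j))
    (fun t ht b j => hM.nonneg _ (inn_pos (prof_pos hc ht b)) _)
    (fun t ht b => by
      rw [Equiv.sum_comp (e0 m) fun i => M.x (inn (K0 m) (prof c t b)) i]
      exact hM.sum_le _ (inn_pos (prof_pos hc ht b)))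
    (fun t ht b => by
      have := hM.ir _ (inn_pos (prof_pos hc ht b)) (e0 m 0)
      rw [inn_e0, prof_zero] at this
      linarith)
    (fun t ht b i => by
      have := hM.ir _ (inn_pos (prof_pos hc ht b)) (e0 m i.succ)
      rw [inn_e0, prof_succ] at this
      linarith)
    (fun t ht t' ht' b => by
      have := hM.truthful _ _ (inn_pos (prof_pos hc ht b)) (inn_pos (prof_pos hc ht' b))
        (e0 m 0) (fun j hj => by
          obtain ⟨l, rfl⟩ := (e0 m).surjective j
          rw [inn_e0, inn_e0]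
          have hl : l ≠ 0 := fun h => hj (by rw [h])
          obtain ⟨i, rfl⟩ := Fin.exists_succ_eq.2 hl
          rw [prof_succ, prof_succ])
      rw [inn_e0, prof_zero] at this
      exact this)
    (fun t ht b i r => by
      have := hM.truthful _ _ (inn_pos (prof_pos hc ht b))
        (inn_pos (prof_pos hc ht (update b i r)))
        (e0 m i.succ) (fun j hj => by
          obtain ⟨l, rfl⟩ := (e0 m).surjective j
          rw [inn_e0, inn_e0]
          by_cases hl : l = 0
          · subst hl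
            rw [prof_zero, prof_zero]
          · obtain ⟨i', rfl⟩ := Fin.exists_succ_eq.2 hl
            rw [prof_succ, prof_succ, update_of_ne]
            rintro rfl
            exact hj rfl)
      rw [inn_e0, prof_succ] at this
      exact this)
  have e : ∀ t : ℝ, ∀ b : Fin m → ℕ, ∑ j, M.p (inn (K0 m) (prof c t b)) (e0 m j) =
      ∑ i, M.p (inn (K0 m) (prof c t b)) i := fun t b =>
    Equiv.sum_comp (e0 m) fun i => M.p (inn (K0 m) (prof c t b)) i
  simp only [e] at h
  exact h

section mechs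

variable {ι : Type} (e : ι → Fin (m + 2)) (c : ℝ) (Q : ℕ)

/-- the reports of the low bidders are in the even class -/
def evl (v : ι → ℝ) : Prop :=
  ∃ b ∈ Evn m Q, ∀ i, e i ≠ Fin.castSucc 0 → e i ≠ Fin.last (m + 1) → v i = prof c 0 b (e i)

open Classical in
/-- the price for the first bidder -/
noncomputable def Tv (v : ι → ℝ) : ℝ := if evl e c Q v then tA c else tB c

variable {e c Q}

theorem Tv_agree {v v' : ι → ℝ} {i : ι} (hi : e i = Fin.castSucc 0 ∨ e i = Fin.last (m + 1))
    (h : ∀ j, j ≠ i → v' j = v j) : Tv e c Q v' = Tv e c Q v := by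
  have : evl e c Q v' ↔ evl e c Q v := by
    constructor
    · rintro ⟨b, hb, h1⟩
      refine ⟨b, hb, fun j a1 a2 => ?_⟩
      rw [← h1 j a1 a2, h j]
      rintro rfl
      rcases hi with hi | hi
      · exact a1 hi
      · exact a2 hi
    · rintro ⟨b, hb, h1⟩
      refine ⟨b, hb, fun j a1 a2 => ?_⟩
      rw [← h1 j a1 a2, h j]
      rintro rfl
      rcases hi with hi | hi
      · exact a1 hi
      · exact a2 hi
  unfold Tv
  by_cases h2 : evl e c Q v
  · rw [if_pos h2, if_pos (this.2 h2)]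
  · rw [if_neg h2, if_neg fun h3 => h2 (this.1 h3)]

theorem Tv_even {t : ℝ} {b : Fin m → ℕ} (hb : b ∈ Evn m Q) {v : ι → ℝ}
    (hv : ∀ i, v i = prof c t b (e i)) : Tv e c Q v = tA c := by
  apply if_pos
  refine ⟨b, hb, fun i h1 h2 => ?_⟩
  rw [hv]
  obtain ⟨l, hl⟩ := Fin.exists_castSucc_eq.2 h2
  rw [← hl] at h1 ⊢
  have hl0 : l ≠ 0 := fun h => h1 (by rw [h])
  obtain ⟨i', rfl⟩ := Fin.exists_succ_eq.2 hl0
  rw [prof_succ, prof_succ]

theorem Tv_odd (hc : 0 < c) {t : ℝ} {b : Fin m → ℕ} (hb : b ∈ Odf m Q) {v : ι → ℝ}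
    (hv : ∀ i, v i = prof c t b (e i)) (hs : ∀ j : Fin m, ∃ i, e i = Fin.castSucc j.succ) :
    Tv e c Q v = tB c := by
  apply if_neg
  rintro ⟨b', hb', h1⟩
  have hbb : b' = b := by
    funext j
    obtain ⟨i, hi⟩ := hs j
    have h2 := h1 i (by
      rw [hi]
      intro h
      exact Fin.succ_ne_zero j (Fin.castSucc_injective _ h)) (by
      rw [hi]; exact Fin.castSucc_ne_last _)
    rw [hv, hi, prof_succ, prof_succ] at h2
    exact (lo_inj hc h2).symm
  subst hbb
  rw [Odf, mem_filter] at hb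
  rw [Evn, mem_filter] at hb'
  exact hb.2 hb'.2

end mechs

theorem det_sum {ι : Type} [Fintype ι] {win : (ι → ℝ) → ι → Prop} {pr : (ι → ℝ) → ι → ℝ}
    {v : ι → ℝ} {i : ι} (hi : win v i) (h4 : ∀ j, win v j → j = i) :
    ∑ j, (detM win pr).p v j = pr v i := by
  rw [sum_eq_single i]
  · exact if_pos hi
  · intro j _ hj
    exact if_neg fun h => hj (h4 j h)
  · intro h; exact absurd (mem_univ i) h

theorem det_sum0 {ι : Type} [Fintype ι] {win : (ι → ℝ) → ι → Prop} {pr : (ι → ℝ) → ι → ℝ}
    {v : ι → ℝ} (h : ∀ j, ¬ win v j) : ∑ j, (detM win pr).p v j = 0 := by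
  apply sum_eq_zero
  intro j _
  exact if_neg (h j)

/-- the lookahead family -/
noncomputable def Ls (m : ℕ) (c : ℝ) (Q : ℕ) : Fam (m + 2) := fun K _ =>
  detM (fun v i => (i : Fin (m + 2)) = Fin.castSucc 0 ∧
    Tv (Subtype.val : {i // i ∈ K} → Fin (m + 2)) c Q v ≤ v i)
    fun v _ => Tv (Subtype.val : {i // i ∈ K} → Fin (m + 2)) c Q v

theorem Ls_ok (c : ℝ) (Q : ℕ) (K : Finset (Fin (m + 2))) (u : {i // i ∉ K} → ℝ) :
    (Ls m c Q K u).Ok := by
  apply detM_ok
  · intro v v' i h hw
    exact Tv_agree (Or.inl hw.1) h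
  · intro v i hw
    exact hw.2
  · intro v v' i h hw
    rcases le_total (v i) (Tv (Subtype.val : {i // i ∈ K} → Fin (m + 2)) c Q v) with h1 | h1
    · exact Or.inl h1
    · exact Or.inr ⟨hw.1, h1⟩
  · intro v i j hi hj
    exact Subtype.ext (hi.1.trans hj.1.symm)

/-- the full mechanism -/
noncomputable def Mf (m : ℕ) (c : ℝ) (Q : ℕ) : Mech (Fin (m + 2)) :=
  detM (fun v i => (i = Fin.castSucc 0 ∧ Tv (id : Fin (m + 2) → Fin (m + 2)) c Q v ≤ v i) ∨
    (i = Fin.last (m + 1) ∧
      ¬ Tv (id : Fin (m + 2) → Fin (m + 2)) c Q v ≤ v (Fin.castSucc 0) ∧ 1 ≤ v i))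
    fun v i => if i = Fin.last (m + 1) then 1 else Tv (id : Fin (m + 2) → Fin (m + 2)) c Q v

theorem z_ne_last : (Fin.castSucc 0 : Fin (m + 2)) ≠ Fin.last (m + 1) := Fin.castSucc_ne_last 0

theorem Mf_ok (c : ℝ) (Q : ℕ) : (Mf m c Q).Ok := by
  apply detM_ok
  · intro v v' i h hw
    rcases hw with hw | hw
    · rw [if_neg (by rw [hw.1]; exact z_ne_last), if_neg (by rw [hw.1]; exact z_ne_last)]
      exact Tv_agree (Or.inl hw.1) h
    · rw [if_pos hw.1, if_pos hw.1]
  · intro v i hw
    rcases hw with hw | hw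
    · rw [if_neg (by rw [hw.1]; exact z_ne_last)]
      exact hw.2
    · rw [if_pos hw.1]
      exact hw.2.2
  · intro v v' i h hw
    rcases hw with hw | hw
    · rw [if_neg (by rw [hw.1]; exact z_ne_last)]
      rcases le_total (v i) (Tv (id : Fin (m + 2) → Fin (m + 2)) c Q v) with h1 | h1
      · exact Or.inl h1
      · exact Or.inr (Or.inl ⟨hw.1, h1⟩)
    · rw [if_pos hw.1]
      rcases le_total (v i) 1 with h1 | h1
      · exact Or.inl h1
      · refine Or.inr (Or.inr ⟨hw.1, ?_, h1⟩)
        have h2 := hw.2.1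
        rw [Tv_agree (e := id) (Or.inr hw.1) h, h] at h2
        · exact h2
        · rw [hw.1]; exact z_ne_last
  · intro v i j hi hj
    rcases hi with hi | hi <;> rcases hj with hj | hj
    · rw [hi.1, hj.1]
    · exact absurd (by rw [← hi.1]; exact hi.2) hj.2.1
    · exact absurd (by rw [← hj.1]; exact hj.2) hi.2.1
    · rw [hi.1, hj.1]

end Pool.Agent.V1127.Kl
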