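import Pool.Agent.V1127.KlDefs

/-!
Lookahead mechanisms have nonnegative payments on the support; mechanisms have bounded revenue.
-/

set_option autoImplicit false

namespace Pool.Agent.V1127.Kl

open Finset

theorem mem_ev {n : ℕ} (k : ℕ) (D : Dist n) (ω : D.Ω) :
    ω ∈ ev D (topK k (D.v ω)) (out (topK k (D.v ω)) (D.v ω)) := by
  classical
  rw [ev, mem_filter]
  refine ⟨mem_univ _, rfl, fun i hi j hj => ?_⟩
  by_contra hlt
  rw [not_le] at hlt
  rw [topK, mem_filter] at hi hj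
  apply hj
  refine ⟨mem_univ _, lt_of_le_of_lt ?_ hi.2⟩
  apply card_le_card
  intro l hl
  rw [mem_filter] at hl ⊢
  refine ⟨mem_univ _, ?_⟩
  rcases hl.2 with h | ⟨h, _⟩
  · exact Or.inl (hlt.trans h)
  · exact Or.inl (by rw [h]; exact hlt)

/-- the line through `v0` in direction `i` -/
def OnLine {ι : Type} (v0 : ι → ℝ) (i : ι) (v : ι → ℝ) (j : ι) : Prop :=
  j = i ∧ ∀ l, l ≠ i → v l = v0 l

open Classical in
/-- raise the payment of bidder `i` on the line through `v0` -/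
noncomputable def raise {ι : Type} (M : Mech ι) (v0 : ι → ℝ) (i : ι) (c : ℝ) : Mech ι :=
  ⟨M.x, fun v j => if OnLine v0 i v j then M.p v j + c else M.p v j⟩

theorem raise_x {ι : Type} (M : Mech ι) (v0 : ι → ℝ) (i : ι) (c : ℝ) (v : ι → ℝ) (j : ι) :
    (raise M v0 i c).x v j = M.x v j := rfl

theorem raise_p {ι : Type} (M : Mech ι) {v0 : ι → ℝ} {i : ι} (c : ℝ) {v : ι → ℝ} {j : ι}
    (h : OnLine v0 i v j) : (raise M v0 i c).p v j = M.p v j + c := if_pos h

theorem raise_p' {ι : Type} (M : Mech ι) {v0 : ι → ℝ} {i : ι} (c : ℝ) {v : ι → ℝ} {j : ι}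
    (h : ¬ OnLine v0 i v j) : (raise M v0 i c).p v j = M.p v j := if_neg h

theorem raise_ok {ι : Type} [Fintype ι] {M : Mech ι} (hM : M.Ok) {v0 : ι → ℝ} (hv0 : Pos v0)
    (i : ι) : (raise M v0 i (-M.p v0 i)).Ok := by
  refine ⟨hM.nonneg, hM.sum_le, ?_, ?_⟩
  · intro v hv j
    rw [raise_x]
    by_cases h : OnLine v0 i v j
    · rw [raise_p _ _ h]
      obtain ⟨rfl, hl⟩ := h
      have h1 := hM.truthful v v0 hv hv0 j (fun l h => (hl l h).symm)
      have h2 := mul_nonneg (hM.nonneg v0 hv0 j) (hv j).le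
      linarith
    · rw [raise_p' _ _ h]
      exact hM.ir v hv j
  · intro v v' hv hv' j hvv
    rw [raise_x, raise_x]
    have h1 := hM.truthful v v' hv hv' j hvv
    have e : OnLine v0 i v' j ↔ OnLine v0 i v j := by
      constructor
      · rintro ⟨rfl, h⟩
        exact ⟨rfl, fun l hl => by rw [← h l hl, hvv l hl]⟩
      · rintro ⟨rfl, h⟩
        exact ⟨rfl, fun l hl => by rw [hvv l hl, h l hl]⟩
    by_cases hline : OnLine v0 i v j
    · rw [raise_p _ _ hline, raise_p _ _ (e.2 hline)]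
      linarith
    · rw [raise_p' _ _ hline, raise_p' _ _ (fun h => hline (e.1 h))]
      exact h1

theorem opt_pay_nonneg {n : ℕ} {D : Dist n} {K : Finset (Fin n)} {u : {i // i ∉ K} → ℝ}
    {M : Mech {i // i ∈ K}} (hM : M.Ok)
    (hmax : ∀ M' : Mech {i // i ∈ K}, M'.Ok → condRev D K u M' ≤ condRev D K u M)
    {ω : D.Ω} (hω : ω ∈ ev D K u) (i : {i // i ∈ K}) : 0 ≤ M.p (inn K (D.v ω)) i := by
  by_contra hneg
  rw [not_le] at hneg
  have hv0pos : Pos (inn K (D.v ω)) := fun j => D.v_pos ω j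
  have hle : ∀ v j, M.p v j ≤ (raise M (inn K (D.v ω)) i (-M.p (inn K (D.v ω)) i)).p v j := by
    intro v j
    by_cases h : OnLine (inn K (D.v ω)) i v j
    · rw [raise_p _ _ h]; linarith
    · rw [raise_p' _ _ h]
  have h1 := hmax _ (raise_ok hM hv0pos i)
  have hden : 0 < ∑ ω ∈ ev D K u, D.w ω := sum_pos (fun ω _ => D.w_pos ω) ⟨ω, hω⟩
  have h2 : condRev D K u M <
      condRev D K u (raise M (inn K (D.v ω)) i (-M.p (inn K (D.v ω)) i)) := by
    unfold condRev
    apply div_lt_div_of_pos_right _ hden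
    apply sum_lt_sum
    · intro ω' _
      exact mul_le_mul_of_nonneg_left (sum_le_sum fun j _ => hle _ j) (D.w_pos ω').le
    · refine ⟨ω, hω, mul_lt_mul_of_pos_left ?_ (D.w_pos ω)⟩
      apply sum_lt_sum (fun j _ => hle _ j)
      refine ⟨i, mem_univ _, ?_⟩
      rw [raise_p _ _ ⟨rfl, fun l _ => rfl⟩]
      linarith
  exact absurd h1 (not_le.2 h2)

theorem laRev_nonneg {n : ℕ} {k : ℕ} {D : Dist n} {L : Fam n} (hL : IsLookahead k D L) :
    0 ≤ laRev k D L := by
  apply sum_nonneg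
  intro ω _
  apply mul_nonneg (D.w_pos ω).le
  apply sum_nonneg
  intro i _
  obtain ⟨h1, h2⟩ := hL ω _ rfl
  exact opt_pay_nonneg h1 h2 (mem_ev k D ω) i

theorem ratios_nonneg {k : ℕ} {r : ℝ} (hr : r ∈ ratios k) : 0 ≤ r := by
  obtain ⟨n, D, L, hL, hopt, rfl⟩ := hr
  exact div_nonneg (laRev_nonneg hL) hopt.le

theorem bddBelow_ratios (k : ℕ) : BddBelow (ratios k) := ⟨0, fun _ hr => ratios_nonneg hr⟩

theorem rev_le {n : ℕ} (D : Dist n) {M : Mech (Fin n)} (hM : M.Ok) :
    D.rev M ≤ ∑ ω, D.w ω * ∑ i, D.v ω i := by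
  classical
  apply sum_le_sum
  intro ω _
  apply mul_le_mul_of_nonneg_left _ (D.w_pos ω).le
  apply sum_le_sum
  intro i _
  have h1 := hM.ir _ (D.v_pos ω) i
  have h2 : M.x (D.v ω) i ≤ 1 :=
    (single_le_sum (fun j _ => hM.nonneg _ (D.v_pos ω) j) (mem_univ i)).trans
      (hM.sum_le _ (D.v_pos ω))
  have h3 := D.v_pos ω i
  nlinarith

theorem bddAbove_rev {n : ℕ} (D : Dist n) :
    BddAbove {r | ∃ M : Mech (Fin n), M.Ok ∧ r = D.rev M} := by
  refine ⟨∑ ω, D.w ω * ∑ i, D.v ω i, ?_⟩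
  rintro r ⟨M, hM, rfl⟩
  exact rev_le D hM

theorem rev_le_opt {n : ℕ} (D : Dist n) {M : Mech (Fin n)} (hM : M.Ok) : D.rev M ≤ D.opt :=
  le_csSup (bddAbove_rev D) ⟨M, hM, rfl⟩

open Classical in
/-- a deterministic mechanism given by winning sets and prices -/
noncomputable def detM {ι : Type} (win : (ι → ℝ) → ι → Prop) (pr : (ι → ℝ) → ι → ℝ) : Mech ι :=
  ⟨fun v i => if win v i then 1 else 0, fun v i => if win v i then pr v i else 0⟩

open Classical in
theorem detM_ok {ι : Type} [Fintype ι] {win : (ι → ℝ) → ι → Prop} {pr : (ι → ℝ) → ι → ℝ}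
    (h1 : ∀ v v' i, (∀ j, j ≠ i → v' j = v j) → win v' i → pr v' i = pr v i)
    (h2 : ∀ v i, win v i → pr v i ≤ v i)
    (h3 : ∀ v v' i, (∀ j, j ≠ i → v' j = v j) → win v' i → v i ≤ pr v i ∨ win v i)
    (h4 : ∀ v i j, win v i → win v j → i = j) : (detM win pr).Ok := by
  refine ⟨?_, ?_, ?_, ?_⟩
  · intro v _ i
    show (0 : ℝ) ≤ if _ then 1 else 0
    split_ifs <;> norm_num
  · intro v _
    show ∑ i, (if win v i then (1 : ℝ) else 0) ≤ 1
    by_cases h : ∃ i, win v i
    · obtain ⟨i, hi⟩ := h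
      rw [sum_eq_single i, if_pos hi]
      · intro j _ hj
        rw [if_neg fun h => hj (h4 v j i h hi)]
      · intro h; exact absurd (mem_univ i) h
    · rw [sum_eq_zero]
      · norm_num
      · intro j _
        rw [if_neg fun hj => h ⟨j, hj⟩]
  · intro v _ i
    show 0 ≤ (if win v i then (1 : ℝ) else 0) * v i - if win v i then pr v i else 0
    split_ifs with h
    · have := h2 v i h; linarith
    · linarith
  · intro v v' _ _ i hvv
    show (if win v' i then (1 : ℝ) else 0) * v i - (if win v' i then pr v' i else 0) ≤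
      (if win v i then (1 : ℝ) else 0) * v i - if win v i then pr v i else 0
    by_cases ha : win v' i
    · rw [if_pos ha, if_pos ha, h1 v v' i hvv ha]
      by_cases hb : win v i
      · rw [if_pos hb, if_pos hb]
      · rw [if_neg hb, if_neg hb]
        have := (h3 v v' i hvv ha).resolve_right hb
        linarith
    · rw [if_neg ha, if_neg ha]
      by_cases hb : win v i
      · rw [if_pos hb, if_pos hb]
        have := h2 v i hb
        linarith
      · rw [if_neg hb, if_neg hb]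

end Pool.Agent.V1127.Kl
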