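import Mathlib

/-!
Property (PH): definitions.
-/

set_option autoImplicit false

namespace Pool.Agent.V1127.Ph

/-- an action by isometries of `G` on a geodesic metric space which is Gromov-hyperbolic (four point
condition) -/
structure HypAct (G : Type) [Group G] where
  X : Type
  metric : MetricSpace X
  action : MulAction G X
  isometric : ∀ (g : G) (x y : X), dist (g • x) (g • y) = dist x y
  geodesic : ∀ x y : X, ∃ γ : ℝ → X, γ 0 = x ∧ γ (dist x y) = y ∧
    ∀ s ∈ Set.Icc 0 (dist x y), ∀ t ∈ Set.Icc 0 (dist x y), dist (γ s) (γ t) = |s - t|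
  hyperbolic : ∃ δ : ℝ, ∀ x y z w : X,
    dist x y + dist z w ≤ max (dist x z + dist y w) (dist x w + dist y z) + δ

attribute [instance] HypAct.metric HypAct.action

namespace HypAct

variable {G : Type} [Group G] (A : HypAct G)

/-- some orbit is coarsely dense -/
def Cobounded : Prop := ∃ (x : A.X) (R : ℝ), ∀ y : A.X, ∃ g : G, dist y (g • x) ≤ R

/-- loxodromic elements: the orbits of `g` are quasi-isometrically embedded -/
def Lox (g : G) : Prop := ∃ x : A.X, ∃ c > 0, ∀ n : ℕ, c * n ≤ dist x (g ^ n • x)

/-- the Gromov product -/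
noncomputable def gp (o x y : A.X) : ℝ := (dist o x + dist o y - dist x y) / 2

/-- the Gromov products of the terms of the two sequences tend to infinity; if this holds for
`u, u`, the sequence `u` converges to a point of the boundary at infinity, and two such sequences
have the same limit if it holds for `u, v` -/
def Conv (u v : ℕ → A.X) : Prop :=
  ∀ (o : A.X) (K : ℝ), ∃ N : ℕ, ∀ i ≥ N, ∀ j ≥ N, K ≤ A.gp o (u i) (v j)

/-- `g` fixes the boundary point which is the limit of `u` -/
def Fixes (g : G) (u : ℕ → A.X) : Prop := A.Conv (fun n => g • u n) u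

/-- there is a loxodromic element, and all loxodromic elements have the same fixed points in the
boundary -/
def Lineal : Prop := (∃ g, A.Lox g) ∧ ∀ g h, A.Lox g → A.Lox h → ∀ u : ℕ → A.X, A.Conv u u →
  (A.Fixes g u ↔ A.Fixes h u)

/-- the action is not lineal, there is a loxodromic element, and any two loxodromic elements share a
common fixed point in the boundary -/
def Focal : Prop := ¬ A.Lineal ∧ (∃ g, A.Lox g) ∧ ∀ g h, A.Lox g → A.Lox h →
  ∃ u : ℕ → A.X, A.Conv u u ∧ A.Fixes g u ∧ A.Fixes h u

/-- the action of a group through an isomorphism -/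
def comap {G' : Type} [Group G'] (e : G' ≃* G) : HypAct G' where
  X := A.X
  metric := A.metric
  action := MulAction.compHom A.X e.toMonoidHom
  isometric g x y := A.isometric (e g) x y
  geodesic := A.geodesic
  hyperbolic := A.hyperbolic

end HypAct

/-- property (PH') with all the actions of the given kind: finitely many cobounded actions on
hyperbolic spaces, such that the diagonal action on the product is metrically proper -/
def PH' (G : Type) [Group G] (kind : HypAct G → Prop) : Prop :=
  ∃ (n : ℕ) (A : Fin n → HypAct G), (∀ i, (A i).Cobounded ∧ kind (A i)) ∧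
    ∀ (p : ∀ i, (A i).X) (R : ℝ), {g : G | ∑ i, dist (p i) (g • p i) ≤ R}.Finite

/-- property (PH) from focal and lineal actions -/
def PHFocalLineal (G : Type) [Group G] : Prop :=
  ∃ G₀ : Subgroup G, G₀.FiniteIndex ∧ PH' G₀ fun A => A.Focal ∨ A.Lineal

/-- amenability: a finitely additive, left invariant probability measure on all subsets -/
def Amenable (G : Type) [Group G] : Prop :=
  ∃ μ : Set G → ℝ, (∀ S, 0 ≤ μ S) ∧ μ Set.univ = 1 ∧
    (∀ S T, Disjoint S T → μ (S ∪ T) = μ S + μ T) ∧ ∀ (g : G) S, μ ((fun x => g * x) '' S) = μ S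

end Pool.Agent.V1127.Ph
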