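import Pool.Agent.V1127.PhNorm

/-!
Rough geodesics, properness, and the ends of the two actions of the free group of rank two.
-/

set_option autoImplicit false

namespace Pool.Agent.V1127.Ph

/-- going up -/
def up (s k : ℤ) : F2 := tt ^ (s * k)

theorem up_add (s k l : ℤ) : up s (k + l) = up s k * up s l := by
  unfold up
  rw [← zpow_add, mul_add]

theorem up_zero (s : ℤ) : up s 0 = 1 := by unfold up; rw [mul_zero, zpow_zero]

theorem ht_up {s : ℤ} (hs : s * s = 1) (k : ℤ) : s * ht (up s k) = k := by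
  unfold up
  rw [ht_zpow, ht_t, mul_one, ← mul_assoc, hs, one_mul]

theorem HH_up {s : ℤ} (hs : s * s = 1) (k : ℤ) : HH s (up s k) = (4 : ℝ) ^ k := by
  unfold HH
  rw [ht_up hs]

theorem HH_one (s : ℤ) : HH s 1 = 1 := by
  unfold HH; rw [ht_one, mul_zero, zpow_zero]

theorem D0_one (s : ℤ) (g : F2) : D0 s 1 g = rho s g := by
  unfold D0
  rw [ht_one, mul_zero, zpow_zero, one_mul, inv_one, one_mul]

theorem D0_up (s k : ℤ) (g : F2) : D0 s g (g * up s k) = 0 := by
  have := D0_inv s g 1 (up s k)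
  rw [mul_one] at this
  rw [this, D0_one]
  unfold up
  rw [rho_t_zpow, mul_zero]

theorem lg_one : lg 1 = 0 := Real.logb_one

theorem dd_up {s : ℤ} (hs : s * s = 1) (k : ℤ) (g : F2) : dd s g (g * up s k) = |(k : ℝ)| := by
  have h := dd_inv s g 1 (up s k)
  rw [mul_one] at h
  rw [h]
  unfold dd ff
  have h2 := D0_up s k 1
  rw [one_mul] at h2
  rw [h2, HH_one, HH_up hs, zero_add, lg_one, lg_zpow]
  rcases le_total 0 k with hk | hk
  · have h1 : (1 : ℝ) ≤ 4 ^ k := one_le_zpow₀ (by norm_num) hk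
    rw [max_eq_right h1, lg_zpow, abs_of_nonneg (by exact_mod_cast hk)]
    ring
  · have h1 : (4 : ℝ) ^ k ≤ 1 := zpow_le_one_of_nonpos₀ (by norm_num) hk
    rw [max_eq_left h1, lg_one, abs_of_nonpos (by exact_mod_cast hk)]
    ring

theorem dd_up' {s : ℤ} (hs : s * s = 1) (k l : ℤ) (g : F2) :
    dd s (g * up s k) (g * up s l) = |(l : ℝ) - k| := by
  have h := dd_up hs (l - k) (g * up s k)
  rw [mul_assoc, ← up_add] at h
  have e : k + (l - k) = l := by ring
  rw [e] at h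
  rw [h]
  push_cast
  rfl

theorem exists_top (ρ : ℝ) (n : ℤ) : ∃ m : ℕ, ρ ≤ (4 : ℝ) ^ m ∧ n ≤ m ∧
    (m = 0 ∨ (m : ℤ) = n ∨ (4 : ℝ) ^ ((m : ℤ) - 1) < ρ) := by
  classical
  have hex : ∃ m : ℕ, ρ ≤ (4 : ℝ) ^ m ∧ n ≤ m := by
    obtain ⟨a, ha⟩ := pow_unbounded_of_one_lt ρ (show (1 : ℝ) < 4 by norm_num)
    refine ⟨max a n.toNat, ?_, ?_⟩
    · exact ha.le.trans (pow_le_pow_right₀ (by norm_num) (le_max_left _ _))
    · have := Int.self_le_toNat n
      have h2 := le_max_right a n.toNat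
      omega
  obtain ⟨h1, h2⟩ := Nat.find_spec hex
  refine ⟨Nat.find hex, h1, h2, ?_⟩
  rcases Nat.eq_zero_or_pos (Nat.find hex) with h0 | h0
  · exact Or.inl h0
  · right
    have h3 := Nat.find_min hex (m := Nat.find hex - 1) (by omega)
    rw [not_and_or] at h3
    rcases h3 with h3 | h3
    · right
      rw [not_le] at h3
      have e : ((Nat.find hex : ℕ) : ℤ) - 1 = ((Nat.find hex - 1 : ℕ) : ℤ) := by omega
      rw [e, zpow_natCast]
      exact h3
    · left
      omega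

/-- rough geodesics from the identity -/
theorem rough_one {s : ℤ} (hs : s * s = 1) (h : F2) (σ : ℝ) (h0 : 0 ≤ σ) (hσ : σ ≤ dd s 1 h) :
    ∃ z, dd s 1 z ≤ σ + 4 ∧ dd s z h ≤ dd s 1 h - σ + 4 := by
  obtain ⟨m, hm1, hm2, hm3⟩ := exists_top (rho s h) (s * ht h)
  set n : ℤ := s * ht h with hn
  have hHh : HH s h = (4 : ℝ) ^ n := rfl
  have e0 : dd s 1 h = 2 * lg (rho s h + max 1 ((4 : ℝ) ^ n)) - n := by
    unfold dd ff
    rw [D0_one, HH_one, hHh, lg_one, lg_zpow]
    ring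
  have hρ := rho_nonneg s h
  have h4n : (0 : ℝ) < (4 : ℝ) ^ n := by positivity
  have lb : 2 * (m : ℝ) - 2 - n ≤ dd s 1 h := by
    rw [e0]
    have : (m : ℝ) - 1 ≤ lg (rho s h + max 1 ((4 : ℝ) ^ n)) := by
      rcases hm3 with h1 | h1 | h1
      · have := lg_le one_pos (show (1 : ℝ) ≤ rho s h + max 1 ((4 : ℝ) ^ n) by
          have := le_max_left (1 : ℝ) ((4 : ℝ) ^ n)
          linarith)
        rw [lg_one] at this
        rw [h1]
        push_cast
        linarith
      · have := lg_le h4n (show (4 : ℝ) ^ n ≤ rho s h + max 1 ((4 : ℝ) ^ n) by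
          have := le_max_right (1 : ℝ) ((4 : ℝ) ^ n)
          linarith)
        rw [lg_zpow, ← h1] at this
        push_cast at this
        rw [← h1]
        linarith
      · have := lg_le (show (0 : ℝ) < (4 : ℝ) ^ ((m : ℤ) - 1) by positivity)
          (show (4 : ℝ) ^ ((m : ℤ) - 1) ≤ rho s h + max 1 ((4 : ℝ) ^ n) by
            have := le_max_left (1 : ℝ) ((4 : ℝ) ^ n)
            linarith)
        rw [lg_zpow] at this
        push_cast at this
        exact this
    linarith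
  have h4m : (0 : ℝ) < (4 : ℝ) ^ m := by positivity
  have h1m : (1 : ℝ) ≤ (4 : ℝ) ^ m := one_le_pow₀ (by norm_num)
  have lgm : lg ((4 : ℝ) ^ m) = m := by
    have := lg_zpow (m : ℤ)
    rw [zpow_natCast] at this
    push_cast at this
    exact this
  have hnm : (4 : ℝ) ^ n ≤ (4 : ℝ) ^ m := by
    rw [← zpow_natCast]
    exact zpow_le_zpow_right₀ (by norm_num) hm2
  have lg2 : lg (2 * (4 : ℝ) ^ m) = 1 / 2 + m := by
    rw [lg_mul (by norm_num) h4m, lg_two, lgm]
  have mid : dd s (up s m) h ≤ m - n + 1 := by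
    unfold dd
    have h1 : D0 s (up s m) h ≤ rho s h := by
      have h2 := D0_tri s (up s m) 1 h
      have h3 := D0_up s m 1
      rw [one_mul] at h3
      rw [D0_symm s (up s m) 1, h3, D0_one, zero_add] at h2
      exact h2
    have h2 : ff s (up s m) h ≤ 2 * (4 : ℝ) ^ m := by
      unfold ff
      rw [HH_up hs, hHh, zpow_natCast, max_eq_left hnm]
      linarith
    have h3 := lg_le (ff_pos _ _ _) h2
    rw [lg2] at h3
    rw [HH_up hs, hHh, lg_zpow, lg_zpow]
    push_cast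
    linarith
  have mid2 : dd s 1 (h * up s (m - n)) ≤ m + 1 := by
    unfold dd
    have h1 : D0 s 1 (h * up s (m - n)) ≤ rho s h := by
      have h2 := D0_tri s 1 h (h * up s (m - n))
      rw [D0_up, D0_one, D0_one, add_zero] at h2
      rw [D0_one]
      exact h2
    have e : HH s (h * up s (m - n)) = (4 : ℝ) ^ m := by
      rw [HH_mul, hHh, HH_up hs, ← zpow_add₀ (by norm_num : (4 : ℝ) ≠ 0)]
      have : n + (m - n) = m := by ring
      rw [this, zpow_natCast]
    have h2 : ff s 1 (h * up s (m - n)) ≤ 2 * (4 : ℝ) ^ m := by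
      unfold ff
      rw [e, HH_one, max_eq_right h1m]
      linarith
    have h3 := lg_le (ff_pos _ _ _) h2
    rw [lg2] at h3
    rw [e, HH_one, lg_one, lgm]
    linarith
  have hup0 : ∀ l : ℤ, dd s 1 (up s l) = |(l : ℝ)| := fun l => by
    have := dd_up hs l 1
    rwa [one_mul] at this
  rcases le_or_gt σ m with hc | hc
  · -- going up
    have k1 := Nat.floor_le h0
    have k2 := Nat.lt_floor_add_one σ
    set k := ⌊σ⌋₊ with hk
    refine ⟨up s k, ?_, ?_⟩
    · rw [hup0]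
      push_cast
      rw [abs_of_nonneg (Nat.cast_nonneg k)]
      linarith
    · have h1 := dd_tri s (up s k) (up s m) h
      have h2 := dd_up' hs k m 1
      rw [one_mul, one_mul] at h2
      push_cast at h2
      rw [abs_of_nonneg (by linarith)] at h2
      rw [h2] at h1
      linarith
  · set j : ℤ := max 0 ⌊2 * (m : ℝ) - n - σ⌋ with hj
    have hj0 : 0 ≤ j := le_max_left _ _
    have hj1 : (⌊2 * (m : ℝ) - n - σ⌋ : ℤ) ≤ j := le_max_right _ _
    have hmn : (0 : ℝ) ≤ (m : ℝ) - n := by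
      have : (n : ℝ) ≤ m := by exact_mod_cast hm2
      linarith
    have hf := Int.floor_le (2 * (m : ℝ) - n - σ)
    have hf2 := Int.lt_floor_add_one (2 * (m : ℝ) - n - σ)
    have hj2 : (j : ℝ) ≤ m - n := by
      rcases max_cases (0 : ℤ) ⌊2 * (m : ℝ) - n - σ⌋ with hm | hm
      · rw [hj, hm.1]; push_cast; linarith
      · rw [hj, hm.1]; linarith
    have hj3 : (j : ℝ) ≤ dd s 1 h - σ + 4 := by
      rcases max_cases (0 : ℤ) ⌊2 * (m : ℝ) - n - σ⌋ with hm | hm
      · rw [hj, hm.1]; push_cast; linarith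
      · rw [hj, hm.1]; linarith
    have hj1' : ((⌊2 * (m : ℝ) - n - σ⌋ : ℤ) : ℝ) ≤ j := by exact_mod_cast hj1
    refine ⟨h * up s j, ?_, ?_⟩
    · have h1 := dd_tri s 1 (h * up s (m - n)) (h * up s j)
      have h2 := dd_up' hs (m - n) j h
      push_cast at h2
      rw [abs_of_nonpos (by linarith)] at h2
      rw [h2] at h1
      linarith
    · rw [dd_symm, dd_up hs, abs_of_nonneg (by exact_mod_cast hj0)]
      exact hj3

theorem rough {s : ℤ} (hs : s * s = 1) (x y : F2) (σ : ℝ) (h0 : 0 ≤ σ) (hσ : σ ≤ dd s x y) :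
    ∃ z, dd s x z ≤ σ + 4 ∧ dd s z y ≤ dd s x y - σ + 4 := by
  have e : dd s 1 (x⁻¹ * y) = dd s x y := by
    rw [← dd_inv s x 1, mul_one, mul_inv_cancel_left]
  rw [← e] at hσ
  obtain ⟨z, h1, h2⟩ := rough_one hs (x⁻¹ * y) σ h0 hσ
  refine ⟨x * z, ?_, ?_⟩
  · rw [← dd_inv s x 1, mul_one] at h1
    exact h1
  · rw [← dd_inv s x z, mul_inv_cancel_left, e] at h2
    exact h2

/-! ### properness -/

theorem dd_one (s : ℤ) (g : F2) :
    dd s 1 g = 2 * lg (rho s g + max 1 ((4 : ℝ) ^ (s * ht g))) - ((s * ht g : ℤ) : ℝ) := by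
  unfold dd ff
  have : HH s g = (4 : ℝ) ^ (s * ht g) := rfl
  rw [D0_one, HH_one, this, lg_one, lg_zpow]
  ring

theorem bounds {s : ℤ} {g : F2} {R : ℝ} (h : dd s 1 g ≤ R) :
    |((s * ht g : ℤ) : ℝ)| ≤ R ∧ rho s g ≤ (4 : ℝ) ^ R := by
  rw [dd_one] at h
  set n : ℤ := s * ht g
  have hρ := rho_nonneg s g
  have h4n : (0 : ℝ) < (4 : ℝ) ^ n := by positivity
  have m1 := le_max_left (1 : ℝ) ((4 : ℝ) ^ n)
  have m2 := le_max_right (1 : ℝ) ((4 : ℝ) ^ n)
  have l1 := lg_le one_pos (show (1 : ℝ) ≤ rho s g + max 1 ((4 : ℝ) ^ n) by linarith)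
  have l2 := lg_le h4n (show (4 : ℝ) ^ n ≤ rho s g + max 1 ((4 : ℝ) ^ n) by linarith)
  rw [lg_one] at l1
  rw [lg_zpow] at l2
  have hn : |((n : ℤ) : ℝ)| ≤ R := by
    rw [abs_le]
    constructor <;> linarith
  refine ⟨hn, ?_⟩
  have hn2 := (abs_le.1 hn).2
  have l3 : lg (rho s g + max 1 ((4 : ℝ) ^ n)) ≤ R := by linarith
  have l4 : rho s g + max 1 ((4 : ℝ) ^ n) ≤ (4 : ℝ) ^ R := by
    rwa [lg, Real.logb_le_iff_le_rpow (by norm_num) (by linarith)] at l3
  linarith

/-- the list of the horizontal letters with their heights -/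
def enc : ℤ → List (Fin 2 × Bool) → List (ℤ × Bool)
  | _, [] => []
  | i, a :: L => (if a.1 = 0 then [(i, a.2)] else []) ++ enc (i + dn a) L

/-- decoding one letter -/
def dec1 (p : ℤ × Bool) : F2 := tt ^ p.1 * FreeGroup.mk [(0, p.2)] * (tt ^ p.1)⁻¹

theorem dec_enc : ∀ (L : List (Fin 2 × Bool)) (i : ℤ),
    tt ^ i * FreeGroup.mk L = ((enc i L).map dec1).prod * tt ^ (i + dnL L)
  | [], i => by
    show tt ^ i * 1 = 1 * tt ^ (i + 0)
    rw [mul_one, one_mul, add_zero]
  | a :: L, i => by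
    have e : (FreeGroup.mk (a :: L) : F2) = FreeGroup.mk [a] * FreeGroup.mk L := by
      rw [FreeGroup.mul_mk]; rfl
    rw [e, enc, List.map_append, List.prod_append, dnL_cons]
    have ih := dec_enc L (i + dn a)
    have e3 : i + (dn a + dnL L) = i + dn a + dnL L := by ring
    rw [e3, mul_assoc (List.map dec1 _).prod, ← ih]
    obtain ⟨j, b⟩ := a
    have hj : j = 0 ∨ j = 1 := by omega
    rcases hj with rfl | rfl
    · have hd : dn ((0 : Fin 2), b) = 0 := rfl
      rw [hd, add_zero]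
      simp only [if_true, List.map_cons, List.map_nil, List.prod_cons, List.prod_nil, mul_one,
        dec1]
      group
    · have e4 : (FreeGroup.mk [((1 : Fin 2), b)] : F2) = tt ^ dn ((1 : Fin 2), b) := by
        cases b
        · have : dn ((1 : Fin 2), false) = -1 := rfl
          rw [this, zpow_neg_one]
          rfl
        · have : dn ((1 : Fin 2), true) = 1 := rfl
          rw [this, zpow_one]
          rfl
      have h10 : ¬ ((1 : Fin 2) = 0) := by decide
      simp only [h10, if_false, List.map_nil, List.prod_nil, one_mul]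
      rw [e4, ← mul_assoc, ← zpow_add]

theorem cc_enc (s : ℤ) : ∀ (L : List (Fin 2 × Bool)) (i : ℤ),
    cc s i L = ((enc i L).map fun p => (4 : ℝ) ^ (s * p.1)).sum
  | [], i => rfl
  | a :: L, i => by
    rw [cc, enc, List.map_append, List.sum_append, cc_enc s L]
    congr 1
    split_ifs
    · simp
    · simp

theorem sum_ge {l : List (ℤ × Bool)} {s : ℤ} {p : ℤ × Bool} (hp : p ∈ l) :
    (4 : ℝ) ^ (s * p.1) ≤ (l.map fun p => (4 : ℝ) ^ (s * p.1)).sum := by
  apply List.single_le_sum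
  · intro x hx
    obtain ⟨q, _, rfl⟩ := List.mem_map.1 hx
    positivity
  · exact List.mem_map.2 ⟨p, hp, rfl⟩

theorem len_le (l : List (ℤ × Bool)) : (l.length : ℝ) ≤
    (l.map fun p => (4 : ℝ) ^ (1 * p.1)).sum + (l.map fun p => (4 : ℝ) ^ (-1 * p.1)).sum := by
  induction l with
  | nil => simp
  | cons p l ih =>
    simp only [List.length_cons, List.map_cons, List.sum_cons]
    push_cast
    have h1 : (1 : ℝ) ≤ (4 : ℝ) ^ (1 * p.1) + (4 : ℝ) ^ (-1 * p.1) := by
      rcases le_total 0 p.1 with h | h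
      · have : (1 : ℝ) ≤ (4 : ℝ) ^ (1 * p.1) := one_le_zpow₀ (by norm_num) (by omega)
        have h2 : (0 : ℝ) < (4 : ℝ) ^ (-1 * p.1) := by positivity
        linarith
      · have : (1 : ℝ) ≤ (4 : ℝ) ^ (-1 * p.1) := one_le_zpow₀ (by norm_num) (by omega)
        have h2 : (0 : ℝ) < (4 : ℝ) ^ (1 * p.1) := by positivity
        linarith
    linarith

theorem fin_lists {α : Type} {S : Set α} (hS : S.Finite) (n : ℕ) :
    {l : List α | l.length ≤ n ∧ ∀ x ∈ l, x ∈ S}.Finite := by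
  have : Finite S := hS
  have h := (List.finite_length_le S n).image (List.map Subtype.val)
  apply h.subset
  rintro l ⟨h1, h2⟩
  refine ⟨l.pmap (fun x hx => ⟨x, hx⟩) h2, ?_, ?_⟩
  · show (l.pmap _ h2).length ≤ n
    rw [List.length_pmap]
    exact h1
  · rw [List.map_pmap]
    simp

theorem proper (R : ℝ) : {g : F2 | dd 1 1 g ≤ R ∧ dd (-1) 1 g ≤ R}.Finite := by
  obtain ⟨M, hM⟩ := pow_unbounded_of_one_lt ((4 : ℝ) ^ R) (show (1 : ℝ) < 4 by norm_num)
  obtain ⟨N, hN⟩ := exists_nat_gt ((4 : ℝ) ^ R + (4 : ℝ) ^ R)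
  obtain ⟨B, hB⟩ := exists_nat_gt R
  have hfin := fin_lists (((Set.finite_Icc (-(M : ℤ)) M).prod (Set.finite_univ (α := Bool)))) N
  have hfin2 := (hfin.prod (Set.finite_Icc (-(B : ℤ)) B)).image
    fun q : List (ℤ × Bool) × ℤ => (q.1.map dec1).prod * tt ^ q.2
  apply hfin2.subset
  rintro g ⟨h1, h2⟩
  obtain ⟨b1, b2⟩ := bounds h1
  obtain ⟨_, b4⟩ := bounds h2
  refine ⟨(enc 0 g.toWord, ht g), ⟨⟨?_, ?_⟩, ?_⟩, ?_⟩
  · have h3 := len_le (enc 0 g.toWord)
    rw [← cc_enc, ← cc_enc] at h3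
    have h4 : rho 1 g = cc 1 0 g.toWord := rfl
    have h5 : rho (-1) g = cc (-1) 0 g.toWord := rfl
    rw [← h4, ← h5] at h3
    have h6 : ((enc 0 g.toWord).length : ℝ) < N := by linarith
    have h7 : (enc 0 g.toWord).length < N := by exact_mod_cast h6
    exact h7.le
  · intro p hp
    have h3 := sum_ge (s := 1) hp
    have h4 := sum_ge (s := -1) hp
    rw [← cc_enc] at h3 h4
    have h5 : rho 1 g = cc 1 0 g.toWord := rfl
    have h6 : rho (-1) g = cc (-1) 0 g.toWord := rfl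
    rw [← h5] at h3
    rw [← h6] at h4
    have h7 : (4 : ℝ) ^ (1 * p.1) < (4 : ℝ) ^ (M : ℤ) := by
      rw [zpow_natCast]; linarith
    have h8 : (4 : ℝ) ^ (-1 * p.1) < (4 : ℝ) ^ (M : ℤ) := by
      rw [zpow_natCast]; linarith
    rw [zpow_lt_zpow_iff_right₀ (by norm_num)] at h7 h8
    refine ⟨?_, trivial⟩
    show -(M : ℤ) ≤ p.1 ∧ p.1 ≤ M
    omega
  · rw [one_mul] at b1
    rw [abs_le] at b1
    show -(B : ℤ) ≤ ht g ∧ ht g ≤ B
    have h3 : ((ht g : ℤ) : ℝ) < ((B : ℤ) : ℝ) := by push_cast; linarith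
    have h4 : ((-(B : ℤ) : ℤ) : ℝ) < ((ht g : ℤ) : ℝ) := by push_cast; linarith
    have h5 : ht g < B := by exact_mod_cast h3
    have h6 : -(B : ℤ) < ht g := by exact_mod_cast h4
    omega
  · have h3 := dec_enc g.toWord 0
    rw [zpow_zero, one_mul, FreeGroup.mk_toWord, zero_add, dnL_toWord] at h3
    exact h3.symm

end Pool.Agent.V1127.Ph
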