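import Mathlib

/-!
The injective hull of a hyperbolic, roughly geodesic pseudometric space.
-/

set_option autoImplicit false

namespace Pool.Agent.V1127.Ph

open Filter Topology

/-- a pseudometric given by a function -/
structure PM (X : Type) where
  d : X → X → ℝ
  self : ∀ x, d x x = 0
  symm : ∀ x y, d x y = d y x
  tri : ∀ x y z, d x z ≤ d x y + d y z
  pt : X

variable {X : Type} (P : PM X)

theorem PM.nonneg (x y : X) : 0 ≤ P.d x y := by
  have h := P.tri x y x
  rw [P.self, P.symm y x] at h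
  linarith

/-- functions above the metric -/
def PM.Dl (f : X → ℝ) : Prop := ∀ x y, P.d x y ≤ f x + f y

/-- minimal functions above the metric -/
def PM.Ex (f : X → ℝ) : Prop := P.Dl f ∧ ∀ x, ∀ ε > 0, ∃ z, f x + f z ≤ P.d x z + ε

variable {P}

theorem PM.Dl.nonneg {f : X → ℝ} (h : P.Dl f) (x : X) : 0 ≤ f x := by
  have := h x x
  rw [P.self] at this
  linarith

theorem PM.Ex.lip {f : X → ℝ} (h : P.Ex f) (x z : X) : f z ≤ P.d x z + f x := by
  by_contra hc
  push Not at hc
  obtain ⟨w, hw⟩ := h.2 z ((f z - (P.d x z + f x)) / 2) (by linarith)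
  have h1 := h.1 x w
  have h2 := P.tri z x w
  rw [P.symm z x] at h2
  linarith

theorem PM.Ex.bound {f g : X → ℝ} (hf : P.Ex f) (hg : P.Ex g) (x z : X) :
    |f z - g z| ≤ f x + g x := by
  have h1 := hf.lip x z
  have h2 := hg.lip x z
  have h3 := hf.1 x z
  have h4 := hg.1 x z
  rw [abs_le]
  constructor <;> linarith

variable (P)

/-- the injective hull -/
def PM.E : Type := {f : X → ℝ // P.Ex f}

variable {P}

theorem PM.bdd (f g : P.E) : BddAbove (Set.range fun z => |f.1 z - g.1 z|) := by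
  refine ⟨f.1 P.pt + g.1 P.pt, ?_⟩
  rintro _ ⟨z, rfl⟩
  exact f.2.bound g.2 P.pt z

noncomputable instance : Dist P.E := ⟨fun f g => ⨆ z, |f.1 z - g.1 z|⟩

theorem PM.le_dist (f g : P.E) (z : X) : |f.1 z - g.1 z| ≤ dist f g := le_ciSup (PM.bdd f g) z

theorem PM.dist_le (f g : P.E) {c : ℝ} (h : ∀ z, |f.1 z - g.1 z| ≤ c) : dist f g ≤ c := by
  have : Nonempty X := ⟨P.pt⟩
  exact ciSup_le h

theorem PM.dist_comm' (f g : P.E) : dist f g = dist g f := by
  show (⨆ z, |f.1 z - g.1 z|) = ⨆ z, |g.1 z - f.1 z|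
  congr 1
  funext z
  exact abs_sub_comm _ _

noncomputable instance : MetricSpace P.E where
  dist_self f := by
    apply le_antisymm
    · apply PM.dist_le
      intro z
      simp
    · exact le_trans (abs_nonneg _) (PM.le_dist f f P.pt)
  dist_comm f g := PM.dist_comm' f g
  dist_triangle f g h := by
    apply PM.dist_le
    intro z
    have e1 := PM.le_dist f g z
    have e2 := PM.le_dist g h z
    calc |f.1 z - h.1 z| = |(f.1 z - g.1 z) + (g.1 z - h.1 z)| := by ring_nf
      _ ≤ |f.1 z - g.1 z| + |g.1 z - h.1 z| := abs_add_le _ _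
      _ ≤ _ := by linarith
  eq_of_dist_eq_zero := by
    intro f g hfg
    apply Subtype.ext
    funext z
    have := PM.le_dist f g z
    rw [hfg] at this
    have h2 := abs_nonneg (f.1 z - g.1 z)
    have h3 : |f.1 z - g.1 z| = 0 := le_antisymm this h2
    rw [abs_eq_zero] at h3
    linarith

variable (P)

/-- the point of the hull given by a point of the space -/
def PM.hat (x : X) : P.E := ⟨fun y => P.d x y, by
  refine ⟨fun y z => ?_, fun y ε hε => ⟨x, ?_⟩⟩
  · have := P.tri y x z
    rw [P.symm y x] at this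
    exact this
  · show P.d x y + P.d x x ≤ P.d y x + ε
    rw [P.self, P.symm x y]
    linarith⟩

theorem PM.hat_val (x y : X) : (P.hat x).1 y = P.d x y := rfl

theorem PM.dist_hat (x : X) (f : P.E) : dist (P.hat x) f = f.1 x := by
  apply le_antisymm
  · apply PM.dist_le
    intro z
    rw [P.hat_val]
    have h1 := f.2.lip x z
    have h2 := f.2.1 x z
    rw [abs_le]
    constructor <;> linarith
  · have := PM.le_dist (P.hat x) f x
    rw [P.hat_val, P.self, zero_sub, abs_neg, abs_of_nonneg (f.2.1.nonneg x)] at this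
    exact this

theorem PM.dist_hat' (x y : X) : dist (P.hat x) (P.hat y) = P.d x y := by
  rw [P.dist_hat, P.hat_val, P.symm]

variable {P}

/-- a point of the hull lies almost between a given one and some point of the space -/
theorem PM.between (f y : P.E) {ε : ℝ} (hε : 0 < ε) : ∃ u, dist f y + f.1 u ≤ y.1 u + ε := by
  have : Nonempty X := ⟨P.pt⟩
  obtain ⟨u, hu⟩ := exists_lt_of_lt_ciSup (show dist f y - ε / 2 < ⨆ z, |f.1 z - y.1 z| by
    have : dist f y = ⨆ z, |f.1 z - y.1 z| := rfl
    rw [← this]; linarith)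
  rcases abs_cases (f.1 u - y.1 u) with h | h
  · rw [h.1] at hu
    obtain ⟨v, hv⟩ := f.2.2 u (ε / 2) (by linarith)
    have h1 := y.2.1 u v
    exact ⟨v, by linarith⟩
  · rw [h.1] at hu
    exact ⟨u, by linarith⟩

/-- the four point inequality for a quadruple -/
def A4 {T : Type} [MetricSpace T] (δ : ℝ) (a b c e : T) : Prop :=
  dist a b + dist c e ≤ max (dist a c + dist b e) (dist a e + dist b c) + δ

theorem A4.swap {T : Type} [MetricSpace T] {δ : ℝ} {a b c e : T} (h : A4 δ a b c e) :
    A4 δ b a c e := by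
  unfold A4 at *
  rw [dist_comm b a, max_comm, add_comm (dist b e), add_comm (dist b c)]
  exact h

theorem A4.swap2 {T : Type} [MetricSpace T] {δ : ℝ} {a b c e : T} (h : A4 δ a b c e) :
    A4 δ c e a b := by
  unfold A4 at *
  rw [dist_comm c a, dist_comm e b, dist_comm c b, dist_comm e a, add_comm (dist c e),
    add_comm (dist b c)]
  exact h

theorem A4.rep {δ : ℝ} (f : P.E) {b c e : P.E} (h : ∀ u, A4 δ (P.hat u) b c e) :
    A4 δ f b c e := by
  unfold A4
  by_contra hc
  push Not at hc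
  set m := max (dist f c + dist b e) (dist f e + dist b c) + δ with hm
  obtain ⟨u, hu⟩ := PM.between f b (ε := (dist f b + dist c e - m) / 2) (by linarith)
  have h1 := h u
  unfold A4 at h1
  rw [P.dist_hat, P.dist_hat, P.dist_hat] at h1
  have h2 : c.1 u ≤ dist f c + f.1 u := by
    have := PM.le_dist f c u
    rw [abs_le] at this
    linarith
  have h3 : e.1 u ≤ dist f e + f.1 u := by
    have := PM.le_dist f e u
    rw [abs_le] at this
    linarith
  have h4 : max (c.1 u + dist b e) (e.1 u + dist b c) + δ ≤ m + f.1 u := by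
    rw [hm]
    have h5 : max (c.1 u + dist b e) (e.1 u + dist b c) ≤
        max (dist f c + dist b e) (dist f e + dist b c) + f.1 u := by
      apply max_le
      · have := le_max_left (dist f c + dist b e) (dist f e + dist b c)
        linarith
      · have := le_max_right (dist f c + dist b e) (dist f e + dist b c)
        linarith
    linarith
  linarith

theorem PM.hyp {δ : ℝ} (H : ∀ x y z w : X, P.d x y + P.d z w ≤
    max (P.d x z + P.d y w) (P.d x w + P.d y z) + δ) (a b c e : P.E) : A4 δ a b c e := by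
  have h0 : ∀ x y z w, A4 δ (P.hat x) (P.hat y) (P.hat z) (P.hat w) := by
    intro x y z w
    unfold A4
    simp only [P.dist_hat']
    exact H x y z w
  have h1 : ∀ a y z w, A4 δ a (P.hat y) (P.hat z) (P.hat w) := fun a y z w =>
    A4.rep a fun u => h0 u y z w
  have h2 : ∀ a b z w, A4 δ a b (P.hat z) (P.hat w) := fun a b z w =>
    A4.rep a fun u => (h1 b u z w).swap
  have h3 : ∀ a b c w, A4 δ a b c (P.hat w) := fun a b c w =>
    (A4.rep c fun u => (h2 a b u w).swap2).swap2
  exact (A4.rep e fun u => (h3 a b c u).swap2.swap).swap.swap2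

/-- every point of the hull is close to a point of the space -/
theorem PM.dense {δ c : ℝ} (H : ∀ x y z w : X, P.d x y + P.d z w ≤
    max (P.d x z + P.d y w) (P.d x w + P.d y z) + δ)
    (R : ∀ x y s, 0 ≤ s → s ≤ P.d x y → ∃ z, P.d x z ≤ s + c ∧ P.d z y ≤ P.d x y - s + c)
    (f : P.E) : ∃ z, f.1 z ≤ 1 + c + δ := by
  obtain ⟨y, hy⟩ := f.2.2 P.pt 1 one_pos
  set x := P.pt
  have hs := P.nonneg x y
  obtain ⟨z, h1, h2⟩ := R x y (min (f.1 x) (P.d x y)) (le_min (f.2.1.nonneg x) hs)
    (min_le_right _ _)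
  refine ⟨z, ?_⟩
  have h3 := PM.hyp H f (P.hat z) (P.hat x) (P.hat y)
  unfold A4 at h3
  have e1 : ∀ u, dist f (P.hat u) = f.1 u := fun u => by
    rw [dist_comm]
    exact P.dist_hat u f
  rw [e1, e1, e1, P.dist_hat', P.dist_hat', P.dist_hat'] at h3
  have h4 := f.2.1 x y
  have h5 : P.d z y ≤ f.1 y + c := by
    rcases min_cases (f.1 x) (P.d x y) with h | h
    · rw [h.1] at h2; linarith
    · rw [h.1] at h2
      have := f.2.1.nonneg y
      linarith
  have h6 : P.d z x ≤ f.1 x + c := by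
    rw [P.symm]
    have := min_le_left (f.1 x) (P.d x y)
    linarith
  rcases max_cases (f.1 x + P.d z y) (f.1 y + P.d z x) with h | h
  · rw [h.1] at h3; linarith
  · rw [h.1] at h3; linarith

/-! ### the retraction -/

variable (P)

/-- the conjugate function -/
noncomputable def PM.st (f : X → ℝ) (x : X) : ℝ := ⨆ z, (P.d x z - f z)

/-- one step -/
noncomputable def PM.q (f : X → ℝ) (x : X) : ℝ := (f x + P.st f x) / 2

/-- iteration -/
noncomputable def PM.it (f : X → ℝ) : ℕ → X → ℝ
  | 0 => f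
  | n + 1 => P.q (PM.it f n)

/-- the limit -/
noncomputable def PM.p (f : X → ℝ) (x : X) : ℝ := ⨅ n, P.it f n x

variable {P}

theorem PM.Dl.bdd {f : X → ℝ} (h : P.Dl f) (x : X) :
    BddAbove (Set.range fun z => P.d x z - f z) := by
  refine ⟨f x, ?_⟩
  rintro _ ⟨z, rfl⟩
  have := h x z
  show P.d x z - f z ≤ f x
  linarith

theorem PM.Dl.st_le {f : X → ℝ} (h : P.Dl f) (x : X) : P.st f x ≤ f x := by
  have : Nonempty X := ⟨P.pt⟩
  apply ciSup_le
  intro z
  have := h x z
  linarith

theorem PM.Dl.le_st {f : X → ℝ} (h : P.Dl f) (x y : X) : P.d x y ≤ f x + P.st f y := by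
  have := le_ciSup (h.bdd y) x
  have h2 : P.d y x - f x ≤ P.st f y := this
  rw [P.symm] at h2
  linarith

theorem PM.Dl.q {f : X → ℝ} (h : P.Dl f) : P.Dl (P.q f) := by
  intro x y
  unfold PM.q
  have h1 := h.le_st x y
  have h2 := h.le_st y x
  rw [P.symm] at h2
  linarith

theorem PM.Dl.q_le {f : X → ℝ} (h : P.Dl f) (x : X) : P.q f x ≤ f x := by
  unfold PM.q
  have := h.st_le x
  linarith

theorem PM.Dl.q_lip {f g : X → ℝ} (hf : P.Dl f) (hg : P.Dl g) {c : ℝ}
    (h : ∀ z, |f z - g z| ≤ c) (x : X) : |P.q f x - P.q g x| ≤ c := by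
  have : Nonempty X := ⟨P.pt⟩
  have key : ∀ f g : X → ℝ, P.Dl f → P.Dl g → (∀ z, |f z - g z| ≤ c) →
      P.st f x ≤ P.st g x + c := by
    intro f g hf hg h
    apply ciSup_le
    intro z
    have h1 : P.d x z - g z ≤ P.st g x := le_ciSup (hg.bdd x) z
    have h2 := h z
    rw [abs_le] at h2
    linarith
  have h1 := key f g hf hg h
  have h2 := key g f hg hf fun z => by rw [abs_sub_comm]; exact h z
  have h3 := h x
  rw [abs_le] at h3 ⊢
  unfold PM.q
  constructor <;> linarith

theorem PM.Dl.it {f : X → ℝ} (h : P.Dl f) : ∀ n, P.Dl (P.it f n)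
  | 0 => h
  | n + 1 => (PM.Dl.it h n).q

theorem PM.Dl.anti {f : X → ℝ} (h : P.Dl f) (x : X) : Antitone fun n => P.it f n x :=
  antitone_nat_of_succ_le fun n => (h.it n).q_le x

theorem PM.Dl.tends {f : X → ℝ} (h : P.Dl f) (x : X) :
    Tendsto (fun n => P.it f n x) atTop (𝓝 (P.p f x)) := by
  apply tendsto_atTop_ciInf (h.anti x)
  refine ⟨0, ?_⟩
  rintro _ ⟨n, rfl⟩
  exact (h.it n).nonneg x

theorem PM.Dl.p_le {f : X → ℝ} (h : P.Dl f) (n : ℕ) (x : X) : P.p f x ≤ P.it f n x := by
  apply ciInf_le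
  refine ⟨0, ?_⟩
  rintro _ ⟨n, rfl⟩
  exact (h.it n).nonneg x

theorem PM.Dl.p {f : X → ℝ} (h : P.Dl f) : P.Ex (P.p f) := by
  have : Nonempty X := ⟨P.pt⟩
  constructor
  · intro x y
    exact ge_of_tendsto' ((h.tends x).add (h.tends y)) fun n => h.it n x y
  · intro x ε hε
    have h1 := (h.tends x).sub ((tendsto_add_atTop_iff_nat 1).2 (h.tends x))
    rw [sub_self] at h1
    obtain ⟨n, hn⟩ := (h1.eventually (gt_mem_nhds (show (0 : ℝ) < ε / 4 by linarith))).exists
    have h2 : P.it f (n + 1) x = (P.it f n x + P.st (P.it f n) x) / 2 := rfl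
    rw [h2] at hn
    have h3 : P.p f x - ε / 2 < P.st (P.it f n) x := by
      have := h.p_le n x
      linarith
    obtain ⟨z, hz⟩ := exists_lt_of_lt_ciSup (show P.p f x - ε < ⨆ z, (P.d x z - P.it f n z) by
      have : P.st (P.it f n) x = ⨆ z, (P.d x z - P.it f n z) := rfl
      rw [← this]; linarith)
    refine ⟨z, ?_⟩
    have := h.p_le n z
    linarith

theorem PM.p_lip {f g : X → ℝ} (hf : P.Dl f) (hg : P.Dl g) {c : ℝ}
    (h : ∀ z, |f z - g z| ≤ c) (x : X) : |P.p f x - P.p g x| ≤ c := by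
  have key : ∀ n z, |P.it f n z - P.it g n z| ≤ c := by
    intro n
    induction n with
    | zero => exact h
    | succ n ih => exact fun z => (hf.it n).q_lip (hg.it n) ih z
  exact le_of_tendsto' ((hf.tends x).sub (hg.tends x)).abs fun n => key n x

theorem PM.Ex.p {f : X → ℝ} (h : P.Ex f) : P.p f = f := by
  have : Nonempty X := ⟨P.pt⟩
  have h1 : ∀ x, P.st f x = f x := by
    intro x
    apply le_antisymm (h.1.st_le x)
    by_contra hc
    push Not at hc
    obtain ⟨z, hz⟩ := h.2 x ((f x - P.st f x) / 2) (by linarith)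
    have h2 : P.d x z - f z ≤ P.st f x := le_ciSup (h.1.bdd x) z
    linarith
  have h2 : ∀ n, P.it f n = f := by
    intro n
    induction n with
    | zero => rfl
    | succ n ih =>
      funext x
      show P.q (P.it f n) x = f x
      rw [ih]
      unfold PM.q
      rw [h1]
      ring
  funext x
  unfold PM.p
  simp only [h2]
  exact ciInf_const

theorem PM.geodesic (f g : P.E) : ∃ γ : ℝ → P.E, γ 0 = f ∧ γ (dist f g) = g ∧
    ∀ s ∈ Set.Icc 0 (dist f g), ∀ t ∈ Set.Icc 0 (dist f g), dist (γ s) (γ t) = |s - t| := by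
  set L := dist f g with hL
  rcases eq_or_lt_of_le (dist_nonneg : 0 ≤ dist f g) with h0 | h0
  · rw [← hL] at h0
    have hfg : f = g := dist_eq_zero.1 (by rw [← hL, ← h0])
    refine ⟨fun _ => f, rfl, hfg, ?_⟩
    intro s hs t ht
    rw [← h0] at hs ht
    have e1 : s = 0 := le_antisymm hs.2 hs.1
    have e2 : t = 0 := le_antisymm ht.2 ht.1
    rw [e1, e2, dist_self, sub_self, abs_zero]
  · rw [← hL] at h0
    let c : ℝ → X → ℝ := fun s x => (1 - s / L) * f.1 x + s / L * g.1 x
    have hc : ∀ s ∈ Set.Icc 0 L, P.Dl (c s) := by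
      intro s hs x y
      have a1 : 0 ≤ s / L := div_nonneg hs.1 h0.le
      have a2 : 0 ≤ 1 - s / L := by
        rw [sub_nonneg, div_le_one h0]; exact hs.2
      have a3 := mul_le_mul_of_nonneg_left (f.2.1 x y) a2
      have a4 := mul_le_mul_of_nonneg_left (g.2.1 x y) a1
      show P.d x y ≤ (1 - s / L) * f.1 x + s / L * g.1 x + ((1 - s / L) * f.1 y + s / L * g.1 y)
      have e : P.d x y = (1 - s / L) * P.d x y + s / L * P.d x y := by ring
      rw [e]
      linarith
    classical
    let γ : ℝ → P.E := fun s => if h : s ∈ Set.Icc 0 L then ⟨P.p (c s), (hc s h).p⟩ else f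
    have hγ : ∀ s (h : s ∈ Set.Icc 0 L), γ s = ⟨P.p (c s), (hc s h).p⟩ := fun s h => dif_pos h
    have hlip : ∀ s (hs : s ∈ Set.Icc 0 L) t (ht : t ∈ Set.Icc 0 L), dist (γ s) (γ t) ≤ |s - t| := by
      intro s hs t ht
      rw [hγ s hs, hγ t ht]
      apply PM.dist_le
      intro z
      apply PM.p_lip (hc s hs) (hc t ht)
      intro z
      have e : c s z - c t z = (s - t) / L * (g.1 z - f.1 z) := by
        show (1 - s / L) * f.1 z + s / L * g.1 z - ((1 - t / L) * f.1 z + t / L * g.1 z) = _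
        ring
      rw [e, abs_mul, abs_div, abs_of_pos h0, abs_sub_comm (g.1 z)]
      have h1 := PM.le_dist f g z
      calc |s - t| / L * |f.1 z - g.1 z| ≤ |s - t| / L * L :=
            mul_le_mul_of_nonneg_left h1 (div_nonneg (abs_nonneg _) h0.le)
        _ = |s - t| := div_mul_cancel₀ _ h0.ne'
    have h00 : (0 : ℝ) ∈ Set.Icc 0 L := ⟨le_rfl, h0.le⟩
    have hLL : L ∈ Set.Icc 0 L := ⟨h0.le, le_rfl⟩
    have g0 : γ 0 = f := by
      rw [hγ 0 h00]
      apply Subtype.ext
      have e : c 0 = f.1 := by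
        funext z
        show (1 - 0 / L) * f.1 z + 0 / L * g.1 z = f.1 z
        ring
      show P.p (c 0) = f.1
      rw [e]
      exact f.2.p
    have gL : γ L = g := by
      rw [hγ L hLL]
      apply Subtype.ext
      have e : c L = g.1 := by
        funext z
        show (1 - L / L) * f.1 z + L / L * g.1 z = g.1 z
        rw [div_self h0.ne']
        ring
      show P.p (c L) = g.1
      rw [e]
      exact g.2.p
    refine ⟨γ, g0, gL, ?_⟩
    have key : ∀ s ∈ Set.Icc 0 L, ∀ t ∈ Set.Icc 0 L, s ≤ t → dist (γ s) (γ t) = |s - t| := by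
      intro s hs t ht hst
      apply le_antisymm (hlip s hs t ht)
      have b1 := hlip 0 h00 s hs
      have b2 := hlip t ht L hLL
      have b3 := dist_triangle (γ 0) (γ s) (γ L)
      have b4 := dist_triangle (γ s) (γ t) (γ L)
      rw [g0, gL] at b3
      rw [gL] at b4 b2
      rw [g0] at b1
      rw [zero_sub, abs_neg, abs_of_nonneg hs.1] at b1
      rw [abs_sub_comm, abs_of_nonneg (by linarith [ht.2])] at b2
      rw [abs_sub_comm, abs_of_nonneg (by linarith)]
      linarith
    intro s hs t ht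
    rcases le_total s t with h | h
    · exact key s hs t ht h
    · rw [dist_comm, abs_sub_comm]
      exact key t ht s hs h

/-! ### group actions -/

section act

variable {G : Type} [Group G] [MulAction G X]

/-- invariance of the metric -/
class PM.Inv (P : PM X) (G : Type) [Group G] [MulAction G X] : Prop where
  inv : ∀ (g : G) (x y : X), P.d (g • x) (g • y) = P.d x y

theorem PM.Inv.inv' [PM.Inv P G] (g : G) (x y : X) : P.d (g⁻¹ • x) y = P.d x (g • y) := by
  rw [← PM.Inv.inv g (g⁻¹ • x) y, smul_inv_smul]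

instance actE [PM.Inv P G] : MulAction G P.E where
  smul g f := ⟨fun x => f.1 (g⁻¹ • x), by
    refine ⟨fun x y => ?_, fun x ε hε => ?_⟩
    · have := f.2.1 (g⁻¹ • x) (g⁻¹ • y)
      rwa [PM.Inv.inv g⁻¹ x y] at this
    · obtain ⟨z, hz⟩ := f.2.2 (g⁻¹ • x) ε hε
      refine ⟨g • z, ?_⟩
      show f.1 (g⁻¹ • x) + f.1 (g⁻¹ • g • z) ≤ P.d x (g • z) + ε
      rw [inv_smul_smul]
      rw [PM.Inv.inv' g x z] at hz
      exact hz⟩
  one_smul f := by
    apply Subtype.ext
    funext x
    show f.1 ((1 : G)⁻¹ • x) = f.1 x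
    rw [inv_one, one_smul]
  mul_smul g h f := by
    apply Subtype.ext
    funext x
    show f.1 ((g * h)⁻¹ • x) = f.1 (h⁻¹ • g⁻¹ • x)
    rw [mul_inv_rev, mul_smul]

theorem smul_val [PM.Inv P G] (g : G) (f : P.E) (x : X) : (g • f).1 x = f.1 (g⁻¹ • x) := rfl

theorem smul_hat [PM.Inv P G] (g : G) (x : X) : g • P.hat x = P.hat (g • x) := by
  apply Subtype.ext
  funext y
  rw [smul_val, P.hat_val, P.hat_val, P.symm, PM.Inv.inv' g y x, P.symm]

theorem smul_dist [PM.Inv P G] (g : G) (f h : P.E) : dist (g • f) (g • h) = dist f h := by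
  apply le_antisymm
  · apply PM.dist_le
    intro z
    rw [smul_val, smul_val]
    exact PM.le_dist f h _
  · apply PM.dist_le
    intro z
    have := PM.le_dist (g • f) (g • h) (g • z)
    rw [smul_val, smul_val, inv_smul_smul] at this
    exact this

end act

end Pool.Agent.V1127.Ph
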