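import Pool.Agent.V1127.PhGeo
import Pool.Agent.V1127.PhDefs

/-!
The free group of rank two has property (PH') from two focal actions.
-/

set_option autoImplicit false

namespace Pool.Agent.V1127.Ph

instance invPP (s : ℤ) : PM.Inv (PP s) F2 where
  inv g x y := dd_inv s g x y

/-- the action on the hull of the cone -/
noncomputable def hullAct (s : ℤ) (_hs : s * s = 1) : HypAct F2 where
  X := (PP s).E
  metric := inferInstance
  action := actE
  isometric g x y := smul_dist g x y
  geodesic x y := PM.geodesic x y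
  hyperbolic := ⟨2, fun x y z w => PM.hyp (dd_four s) x y z w⟩

section

variable (s : ℤ) (hs : s * s = 1)

/-- orbit points -/
noncomputable def pnt (g : F2) : (hullAct s hs).X := (PP s).hat g

theorem dist_pnt (g h : F2) : dist (pnt s hs g) (pnt s hs h) = dd s g h := (PP s).dist_hat' g h

theorem smul_pnt (g h : F2) : g • pnt s hs h = pnt s hs (g * h) := smul_hat (P := PP s) g h

theorem cobounded : (hullAct s hs).Cobounded := by
  refine ⟨pnt s hs 1, 1 + 4 + 2, fun y => ?_⟩
  obtain ⟨z, hz⟩ := PM.dense (P := PP s) (δ := 2) (c := 4) (dd_four s) (rough hs) y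
  refine ⟨z, ?_⟩
  rw [smul_pnt, mul_one, dist_comm]
  have : dist (pnt s hs z) y = y.1 z := (PP s).dist_hat z y
  rw [this]
  exact hz

theorem gp_change (o o' x y : (hullAct s hs).X) :
    (hullAct s hs).gp o' x y - dist o o' ≤ (hullAct s hs).gp o x y := by
  unfold HypAct.gp
  have h1 := dist_triangle o' o x
  have h2 := dist_triangle o' o y
  rw [dist_comm o' o] at h1 h2
  linarith

theorem conv_of {u v : ℕ → (hullAct s hs).X}
    (h : ∀ K : ℝ, ∃ N : ℕ, ∀ i ≥ N, ∀ j ≥ N, K ≤ (hullAct s hs).gp (pnt s hs 1) (u i) (v j)) :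
    (hullAct s hs).Conv u v := by
  intro o K
  obtain ⟨N, hN⟩ := h (K + dist o (pnt s hs 1))
  refine ⟨N, fun i hi j hj => ?_⟩
  have h1 := hN i hi j hj
  have h2 := gp_change s hs o (pnt s hs 1) (u i) (v j)
  linarith

theorem gp_pnt (a b : F2) : (hullAct s hs).gp (pnt s hs 1) (pnt s hs a) (pnt s hs b) =
    lg (ff s 1 a) + lg (ff s 1 b) - lg (ff s a b) := by
  unfold HypAct.gp
  rw [dist_pnt, dist_pnt, dist_pnt]
  unfold dd
  rw [HH_one, lg_one]
  ring

/-- every element fixes the upper end -/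
theorem conv_top (g : F2) : (hullAct s hs).Conv (fun n => pnt s hs (g * up s n))
    (fun n => pnt s hs (up s n)) := by
  apply conv_of
  intro K
  set n : ℤ := s * ht g with hn
  obtain ⟨N, hN⟩ := exists_nat_gt (K + lg (rho s g + 1) + |(n : ℝ)|)
  refine ⟨N, fun i hi j hj => ?_⟩
  rw [gp_pnt]
  have hi' : (N : ℝ) ≤ i := by exact_mod_cast hi
  have hj' : (N : ℝ) ≤ j := by exact_mod_cast hj
  have hρ := rho_nonneg s g
  have hHa : HH s (g * up s i) = (4 : ℝ) ^ (n + i) := by
    rw [HH_mul, HH_up hs]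
    have : HH s g = (4 : ℝ) ^ n := rfl
    rw [this, ← zpow_add₀ (by norm_num : (4 : ℝ) ≠ 0)]
  have hHb : HH s (up s j) = (4 : ℝ) ^ (j : ℤ) := HH_up hs j
  have h1 : ((n : ℝ) + i) ≤ lg (ff s 1 (g * up s i)) := by
    have : (4 : ℝ) ^ (n + i : ℤ) ≤ ff s 1 (g * up s i) := by
      unfold ff
      rw [hHa]
      have h2 := le_max_right (HH s 1) ((4 : ℝ) ^ (n + i : ℤ))
      have h3 := D0_nonneg s 1 (g * up s i)
      linarith
    have h4 := lg_le (by positivity) this
    rw [lg_zpow] at h4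
    push_cast at h4
    exact h4
  have h2 : (j : ℝ) ≤ lg (ff s 1 (up s j)) := by
    have : (4 : ℝ) ^ (j : ℤ) ≤ ff s 1 (up s j) := by
      unfold ff
      rw [hHb]
      have h2 := le_max_right (HH s 1) ((4 : ℝ) ^ (j : ℤ))
      have h3 := D0_nonneg s 1 (up s j)
      linarith
    have h4 := lg_le (by positivity) this
    rw [lg_zpow] at h4
    push_cast at h4
    exact h4
  have h3 : lg (ff s (g * up s i) (up s j)) ≤
      lg (rho s g + 1) + max ((n : ℝ) + i) j := by
    set M : ℤ := max (n + i) j with hM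
    have hM1 : (4 : ℝ) ^ (n + i : ℤ) ≤ (4 : ℝ) ^ M :=
      zpow_le_zpow_right₀ (by norm_num) (le_max_left _ _)
    have hM2 : (4 : ℝ) ^ (j : ℤ) ≤ (4 : ℝ) ^ M :=
      zpow_le_zpow_right₀ (by norm_num) (le_max_right _ _)
    have hM0 : (1 : ℝ) ≤ (4 : ℝ) ^ M := by
      apply one_le_zpow₀ (by norm_num)
      have := le_max_right (n + i : ℤ) j
      omega
    have h4 : ff s (g * up s i) (up s j) ≤ (rho s g + 1) * (4 : ℝ) ^ M := by
      unfold ff
      rw [hHa, hHb]
      have h5 := D0_tri s (g * up s i) g (up s j)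
      have h6 := D0_tri s g 1 (up s j)
      have h7 := D0_up s i g
      have h8 := D0_up s j 1
      rw [one_mul] at h8
      rw [D0_symm s _ g, h7] at h5
      rw [h8, D0_symm s g 1, D0_one] at h6
      have h9 : max ((4 : ℝ) ^ (n + i : ℤ)) ((4 : ℝ) ^ (j : ℤ)) ≤ (4 : ℝ) ^ M := max_le hM1 hM2
      nlinarith
    have h5 := lg_le (ff_pos _ _ _) h4
    rw [lg_mul (by linarith) (by positivity), lg_zpow] at h5
    rw [hM] at h5
    push_cast at h5
    exact h5
  have hn1 := neg_abs_le (n : ℝ)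
  rcases max_cases ((n : ℝ) + i) j with h | h
  · rw [h.1] at h3
    have := abs_nonneg (n : ℝ)
    linarith
  · rw [h.1] at h3
    linarith

theorem lox_conj (w : F2) : (hullAct s hs).Lox (w * up s 1 * w⁻¹) := by
  refine ⟨pnt s hs w, 1, one_pos, fun n => ?_⟩
  have e : (w * up s 1 * w⁻¹) ^ n * w = w * up s n := by
    rw [conj_pow, inv_mul_cancel_right]
    congr 1
    unfold up
    rw [← zpow_natCast, ← zpow_mul]
    congr 1
    ring
  rw [smul_pnt, e, dist_pnt, dd_up hs, one_mul]
  push_cast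
  exact le_abs_self _

theorem lox_up : (hullAct s hs).Lox (up s 1) := by
  have := lox_conj s hs 1
  rwa [one_mul, inv_one, mul_one] at this

theorem conv_bot (k : ℤ) : (hullAct s hs).Conv (fun n => pnt s hs (up s k * up s (-n)))
    (fun n => pnt s hs (up s (-n))) := by
  apply conv_of
  intro K
  obtain ⟨N, hN⟩ := exists_nat_gt (K + |(k : ℝ)|)
  refine ⟨N, fun i hi j hj => ?_⟩
  have hi' : (N : ℝ) ≤ i := by exact_mod_cast hi
  have hj' : (N : ℝ) ≤ j := by exact_mod_cast hj
  unfold HypAct.gp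
  rw [dist_pnt, dist_pnt, dist_pnt, ← up_add]
  have h1 := dd_up' hs 0 (k + -i) 1
  have h2 := dd_up' hs 0 (-j) 1
  have h3 := dd_up' hs (k + -i) (-j) 1
  rw [up_zero, one_mul, one_mul] at h1 h2
  rw [one_mul, one_mul] at h3
  rw [h1, h2, h3]
  push_cast
  rcases abs_cases ((k : ℝ) + -i - 0) with a1 | a1 <;>
    rcases abs_cases (-(j : ℝ) - 0) with a2 | a2 <;>
    rcases abs_cases (-(j : ℝ) - (k + -i)) with a3 | a3 <;>
    rcases abs_cases (k : ℝ) with a4 | a4 <;>
    rw [a1.1, a2.1, a3.1] <;> rw [a4.1] at hN <;> linarith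

theorem rho_eq_zero {g : F2} (h : rho s g = 0) : g = tt ^ ht g := by
  have h1 := dec_enc g.toWord 0
  rw [zpow_zero, one_mul, FreeGroup.mk_toWord, zero_add, dnL_toWord] at h1
  have h2 : enc 0 g.toWord = [] := by
    by_contra hne
    obtain ⟨p, l, hl⟩ := List.exists_cons_of_ne_nil hne
    have h3 : p ∈ enc 0 g.toWord := by rw [hl]; exact List.mem_cons_self
    have h4 := sum_ge (s := s) h3
    rw [← cc_enc] at h4
    have h5 : cc s 0 g.toWord = 0 := h
    rw [h5] at h4
    have : (0 : ℝ) < (4 : ℝ) ^ (s * p.1) := by positivity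
    linarith
  rw [h2] at h1
  simpa using h1

/-- an element which does not fix the lower end -/
theorem not_fix {w : F2} (hw : 0 < rho s w) :
    ¬ (hullAct s hs).Fixes w (fun n => pnt s hs (up s (-n))) := by
  intro h
  set C : ℝ := lg (rho s w + max 1 (HH s w)) - lg (rho s w) with hC
  obtain ⟨N, hN⟩ := h (pnt s hs 1) (C + 1)
  have h1 : C + 1 ≤ (hullAct s hs).gp (pnt s hs 1) (w • pnt s hs (up s (-N)))
      (pnt s hs (up s (-N))) := hN N le_rfl N le_rfl
  have e : w • pnt s hs (up s (-N)) = pnt s hs (w * up s (-N)) := smul_pnt s hs _ _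
  rw [e, gp_pnt] at h1
  have hN0 : (-(N : ℤ)) ≤ 0 := by omega
  have h4N : (4 : ℝ) ^ (-(N : ℤ)) ≤ 1 := zpow_le_one_of_nonpos₀ (by norm_num) hN0
  have h2 : lg (ff s 1 (up s (-N))) = 0 := by
    have h3 := D0_up s (-N) 1
    rw [one_mul] at h3
    unfold ff
    rw [h3, HH_one, HH_up hs, max_eq_left h4N, zero_add, lg_one]
  have h3 : lg (ff s 1 (w * up s (-N))) ≤ lg (rho s w + max 1 (HH s w)) := by
    apply lg_le (ff_pos _ _ _)
    unfold ff
    have h4 := D0_tri s 1 w (w * up s (-N))
    rw [D0_up, D0_one, D0_one] at h4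
    rw [D0_one, HH_one, HH_mul, HH_up hs]
    have h5 : HH s w * (4 : ℝ) ^ (-(N : ℤ)) ≤ HH s w :=
      mul_le_of_le_one_right (HH_pos s w).le h4N
    have h6 : max 1 (HH s w * (4 : ℝ) ^ (-(N : ℤ))) ≤ max 1 (HH s w) := max_le_max le_rfl h5
    linarith
  have h4 : lg (rho s w) ≤ lg (ff s (w * up s (-N)) (up s (-N))) := by
    apply lg_le hw
    unfold ff
    have h5 := D0_tri s 1 (up s (-N)) w
    have h6 := D0_tri s (up s (-N)) (w * up s (-N)) w
    have h7 := D0_up s (-N) 1
    rw [one_mul] at h7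
    rw [h7, D0_one, zero_add] at h5
    rw [D0_symm s (w * up s (-N)) w, D0_up, add_zero, D0_symm s (up s (-N))] at h6
    have h8 := (HH_pos s (w * up s (-N))).le.trans
      (le_max_left (HH s (w * up s (-N))) (HH s (up s (-N))))
    have a1 := D0_symm s (w * up s (-N)) (up s (-N))
    have a2 := D0_symm s w (up s (-N))
    linarith
  rw [h2] at h1
  linarith

theorem focal (hw : 0 < rho s (xx * up s 1 * xx⁻¹)) : (hullAct s hs).Focal := by
  refine ⟨?_, ⟨_, lox_up s hs⟩, ?_⟩
  · rintro ⟨_, hl⟩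
    have h0 := conv_bot s hs 0
    rw [up_zero] at h0
    simp only [one_mul] at h0
    have h1 : (hullAct s hs).Fixes (up s 1) (fun n => pnt s hs (up s (-n))) := by
      have := conv_bot s hs 1
      unfold HypAct.Fixes
      simp only [smul_pnt]
      exact this
    exact not_fix s hs hw ((hl _ _ (lox_up s hs) (lox_conj s hs xx) _ h0).1 h1)
  · intro g h _ _
    have key : ∀ g, (hullAct s hs).Fixes g (fun n => pnt s hs (up s n)) := by
      intro g
      unfold HypAct.Fixes
      simp only [smul_pnt]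
      exact conv_top s hs g
    refine ⟨fun n => pnt s hs (up s n), ?_, key g, key h⟩
    have := conv_top s hs 1
    simpa using this

end

theorem rho_pos {s : ℤ} (h : s = 1 ∨ s = -1) : 0 < rho s (xx * up s 1 * xx⁻¹) := by
  apply lt_of_le_of_ne (rho_nonneg _ _)
  intro h0
  have h1 := rho_eq_zero s h0.symm
  have h2 : ht (xx * up s 1 * xx⁻¹) = s := by
    unfold up
    rw [ht_mul, ht_mul, ht_zpow, ht_inv, ht_t, ht_x]
    ring
  rw [h2] at h1
  rcases h with rfl | rfl
  · exact absurd h1 (by decide)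
  · exact absurd h1 (by decide)

theorem sq1 : (1 : ℤ) * 1 = 1 := by norm_num
theorem sqm1 : (-1 : ℤ) * (-1) = 1 := by norm_num

/-- the two actions -/
noncomputable def acts : Fin 2 → HypAct F2 := ![hullAct 1 sq1, hullAct (-1) sqm1]

theorem acts_ok (i : Fin 2) : (acts i).Cobounded ∧ (acts i).Focal := by
  have hi : i = 0 ∨ i = 1 := by omega
  rcases hi with rfl | rfl
  · exact ⟨cobounded 1 sq1, focal 1 sq1 (rho_pos (Or.inl rfl))⟩
  · exact ⟨cobounded (-1) sqm1, focal (-1) sqm1 (rho_pos (Or.inr rfl))⟩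

theorem dd_le (s : ℤ) (hs : s * s = 1) (p : (hullAct s hs).X) (g : F2) :
    dd s 1 g ≤ dist p (g • p) + 2 * dist p (pnt s hs 1) := by
  have h1 : dist (pnt s hs 1) (g • pnt s hs 1) = dd s 1 g := by
    rw [smul_pnt, mul_one, dist_pnt]
  have h2 := dist_triangle (pnt s hs 1) p (g • pnt s hs 1)
  have h3 := dist_triangle p (g • p) (g • pnt s hs 1)
  rw [(hullAct s hs).isometric g p] at h3
  rw [dist_comm (pnt s hs 1) p] at h2
  linarith

theorem acts_proper (p : ∀ i, (acts i).X) (R : ℝ) :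
    {g : F2 | ∑ i, dist (p i) (g • p i) ≤ R}.Finite := by
  let p0 : (hullAct 1 sq1).X := p 0
  let p1 : (hullAct (-1) sqm1).X := p 1
  set C := max (2 * dist p0 (pnt 1 sq1 1)) (2 * dist p1 (pnt (-1) sqm1 1)) with hC
  apply (proper (R + C)).subset
  intro g hg
  have hg' : dist p0 (g • p0) + dist p1 (g • p1) ≤ R := by
    have : ∑ i, dist (p i) (g • p i) = dist p0 (g • p0) + dist p1 (g • p1) :=
      Fin.sum_univ_two (fun i => dist (p i) (g • p i))
    rw [← this]
    exact hg
  have d0 : 0 ≤ dist p0 (g • p0) := dist_nonneg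
  have d1 : 0 ≤ dist p1 (g • p1) := dist_nonneg
  have h1 := dd_le 1 sq1 p0 g
  have h2 := dd_le (-1) sqm1 p1 g
  have h3 := le_max_left (2 * dist p0 (pnt 1 sq1 1)) (2 * dist p1 (pnt (-1) sqm1 1))
  have h4 := le_max_right (2 * dist p0 (pnt 1 sq1 1)) (2 * dist p1 (pnt (-1) sqm1 1))
  exact ⟨by linarith, by linarith⟩

/-- property (PH') from two focal actions -/
theorem ph' : PH' F2 HypAct.Focal := ⟨2, acts, acts_ok, acts_proper⟩

/-! ### transport -/

section transport

variable {G G' : Type} [Group G] [Group G'] (e : G' ≃* G) (A : HypAct G)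

theorem comap_smul (g : G') (x : A.X) :
    ((g • (show (A.comap e).X from x) : (A.comap e).X)) = ((e g) • x : A.X) := rfl

theorem comap_cobounded (h : A.Cobounded) : (A.comap e).Cobounded := by
  obtain ⟨x, R, h⟩ := h
  refine ⟨x, R, fun y => ?_⟩
  obtain ⟨g, hg⟩ := h y
  refine ⟨e.symm g, ?_⟩
  have h1 : ((e.symm g • (show (A.comap e).X from x) : (A.comap e).X)) = (g • x : A.X) := by
    rw [comap_smul, MulEquiv.apply_symm_apply]
  rw [h1]
  exact hg

theorem comap_lox (g : G') : (A.comap e).Lox g ↔ A.Lox (e g) := by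
  have key : ∀ (x : A.X) (n : ℕ), ((g ^ n • (show (A.comap e).X from x) : (A.comap e).X)) =
      ((e g) ^ n • x : A.X) := by
    intro x n
    rw [comap_smul, map_pow]
  constructor
  · rintro ⟨x, c, hc, h⟩
    refine ⟨x, c, hc, fun n => ?_⟩
    have := h n
    rw [key] at this
    exact this
  · rintro ⟨x, c, hc, h⟩
    refine ⟨x, c, hc, fun n => ?_⟩
    rw [key]
    exact h n

theorem comap_focal (h : A.Focal) : (A.comap e).Focal := by
  obtain ⟨h1, ⟨g, hg⟩, h3⟩ := h
  refine ⟨?_, ⟨e.symm g, ?_⟩, ?_⟩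
  · rintro ⟨_, hl⟩
    apply h1
    refine ⟨⟨g, hg⟩, fun a b ha hb u hu => ?_⟩
    have h5 := hl (e.symm a) (e.symm b)
      ((comap_lox e A _).2 (by rwa [MulEquiv.apply_symm_apply]))
      ((comap_lox e A _).2 (by rwa [MulEquiv.apply_symm_apply])) u hu
    have h6 : ∀ a, (A.comap e).Fixes (e.symm a) u ↔ A.Fixes a u := by
      intro a
      have h7 : (A.comap e).Fixes (e.symm a) u = A.Fixes (e (e.symm a)) u := rfl
      rw [h7, MulEquiv.apply_symm_apply]
    rw [h6, h6] at h5
    exact h5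
  · exact (comap_lox e A _).2 (by rwa [MulEquiv.apply_symm_apply])
  · intro a b ha hb
    exact h3 (e a) (e b) ((comap_lox e A _).1 ha) ((comap_lox e A _).1 hb)

theorem ph_comap {k : HypAct G → Prop} {k' : HypAct G' → Prop} (hk : ∀ A, k A → k' (A.comap e))
    (h : PH' G k) : PH' G' k' := by
  obtain ⟨n, A, h1, h2⟩ := h
  refine ⟨n, fun i => (A i).comap e, fun i => ⟨comap_cobounded e _ (h1 i).1, hk _ (h1 i).2⟩, ?_⟩
  intro p R
  have h3 := h2 p R
  apply (h3.image e.symm).subset
  intro g hg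
  refine ⟨e g, ?_, e.symm_apply_apply g⟩
  exact hg

end transport

theorem ph_F2 : PHFocalLineal F2 := by
  refine ⟨⊤, inferInstance, ?_⟩
  exact ph_comap Subgroup.topEquiv (k := HypAct.Focal) (fun A hA => Or.inl (comap_focal _ A hA)) ph'

/-! ### nonamenability -/

theorem cons_word (a : Fin 2 × Bool) (g : F2) (h : ∀ L, g.toWord ≠ (a.1, !a.2) :: L) :
    (FreeGroup.mk [a] * g).toWord = a :: g.toWord := by
  have e : FreeGroup.mk [a] * g = FreeGroup.mk (a :: g.toWord) := by
    conv_lhs => rw [← FreeGroup.mk_toWord (x := g)]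
    rw [FreeGroup.mul_mk]
    rfl
  rw [e, FreeGroup.toWord_mk, FreeGroup.reduce.cons, FreeGroup.reduce_toWord]
  cases hg : g.toWord with
  | nil => rfl
  | cons b L =>
    simp only
    rw [if_neg]
    rintro ⟨h1, h2⟩
    apply h L
    rw [hg]
    congr 1
    apply Prod.ext
    · exact h1.symm
    · show b.2 = !a.2
      rw [h2, Bool.not_not]

theorem not_amenable : ¬ Amenable F2 := by
  rintro ⟨μ, h0, h1, hadd, hinv⟩
  have mono : ∀ S T : Set F2, S ⊆ T → μ S ≤ μ T := by
    intro S T hST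
    have h2 := hadd S (T \ S) Set.disjoint_sdiff_right
    rw [Set.union_sdiff_cancel hST] at h2
    have := h0 (T \ S)
    linarith
  have sub : ∀ S T : Set F2, μ (S ∪ T) ≤ μ S + μ T := by
    intro S T
    have h2 := hadd S (T \ S) Set.disjoint_sdiff_right
    rw [Set.union_sdiff_self] at h2
    have := mono (T \ S) T Set.sdiff_subset
    linarith
  let W : Fin 2 × Bool → Set F2 := fun a => {g | ∃ L, g.toWord = a :: L}
  have key : ∀ i : Fin 2, 1 ≤ μ (W (i, true)) + μ (W (i, false)) := by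
    intro i
    have h2 : (Set.univ : Set F2) ⊆
        W (i, true) ∪ (fun x => (FreeGroup.mk [(i, true)] : F2) * x) '' W (i, false) := by
      intro g _
      by_cases hg : g ∈ W (i, true)
      · exact Or.inl hg
      · right
        refine ⟨FreeGroup.mk [(i, false)] * g, ?_, ?_⟩
        · refine ⟨g.toWord, ?_⟩
          apply cons_word
          intro L hL
          exact hg ⟨L, hL⟩
        · show FreeGroup.mk [(i, true)] * (FreeGroup.mk [(i, false)] * g) = g
          have : (FreeGroup.mk [(i, false)] : F2) = (FreeGroup.mk [(i, true)])⁻¹ := by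
            rw [FreeGroup.inv_mk]
            rfl
          rw [this, mul_inv_cancel_left]
    have h3 := mono _ _ h2
    have h4 := sub (W (i, true)) ((fun x => (FreeGroup.mk [(i, true)] : F2) * x) '' W (i, false))
    rw [hinv] at h4
    rw [h1] at h3
    linarith
  have disj : ∀ a b, a ≠ b → Disjoint (W a) (W b) := by
    intro a b hab
    rw [Set.disjoint_left]
    rintro g ⟨L, hL⟩ ⟨L', hL'⟩
    rw [hL] at hL'
    exact hab (List.cons.inj hL').1
  have h2 := hadd (W (0, true)) (W (0, false)) (disj _ _ (by decide))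
  have h3 := hadd (W (1, true)) (W (1, false)) (disj _ _ (by decide))
  have h4 := hadd (W (0, true) ∪ W (0, false)) (W (1, true) ∪ W (1, false)) (by
    rw [Set.disjoint_union_left, Set.disjoint_union_right, Set.disjoint_union_right]
    exact ⟨⟨disj _ _ (by decide), disj _ _ (by decide)⟩, disj _ _ (by decide),
      disj _ _ (by decide)⟩)
  have h5 := mono _ Set.univ (Set.subset_univ (W (0, true) ∪ W (0, false) ∪
    (W (1, true) ∪ W (1, false))))
  have k0 := key 0
  have k1 := key 1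
  rw [h1] at h5
  linarith

end Pool.Agent.V1127.Ph
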