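import Pool.Agent.V1127.PhHull

/-!
Weighted lengths on the free group of rank two.
-/

set_option autoImplicit false

namespace Pool.Agent.V1127.Ph

/-- the free group of rank two -/
abbrev F2 : Type := FreeGroup (Fin 2)

/-- the second generator -/
def tt : F2 := FreeGroup.of 1

/-- the first generator -/
def xx : F2 := FreeGroup.of 0

/-- the change of height -/
def dn (a : Fin 2 × Bool) : ℤ := if a.1 = 1 then (if a.2 = true then 1 else -1) else 0

/-- the total change of height -/
def dnL (L : List (Fin 2 × Bool)) : ℤ := (L.map dn).sum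

/-- the height -/
def htHom : F2 →* Multiplicative ℤ := FreeGroup.lift ![1, Multiplicative.ofAdd 1]

/-- the height -/
def ht (g : F2) : ℤ := Multiplicative.toAdd (htHom g)

theorem ht_mul (g h : F2) : ht (g * h) = ht g + ht h := by
  unfold ht; rw [map_mul, toAdd_mul]

theorem ht_one : ht 1 = 0 := by unfold ht; rw [map_one, toAdd_one]

theorem ht_inv (g : F2) : ht g⁻¹ = -ht g := by
  unfold ht; rw [map_inv, toAdd_inv]

theorem ht_zpow (g : F2) (k : ℤ) : ht (g ^ k) = k * ht g := by
  unfold ht; rw [map_zpow, toAdd_zpow, smul_eq_mul]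

theorem ht_t : ht tt = 1 := by
  unfold ht htHom tt
  rw [FreeGroup.lift_apply_of]
  rfl

theorem ht_x : ht xx = 0 := by
  unfold ht htHom xx
  rw [FreeGroup.lift_apply_of]
  rfl

theorem ht_mk (L : List (Fin 2 × Bool)) : ht (FreeGroup.mk L) = dnL L := by
  induction L with
  | nil => exact ht_one
  | cons a L ih =>
    have e : (FreeGroup.mk (a :: L) : F2) = FreeGroup.mk [a] * FreeGroup.mk L := by
      rw [FreeGroup.mul_mk]; rfl
    have e2 : dnL (a :: L) = dn a + dnL L := by unfold dnL; rw [List.map_cons, List.sum_cons]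
    rw [e, ht_mul, ih, e2]
    congr 1
    obtain ⟨i, b⟩ := a
    have hi : i = 0 ∨ i = 1 := by omega
    rcases hi with rfl | rfl <;> cases b
    · have : (FreeGroup.mk [((0 : Fin 2), false)] : F2) = xx⁻¹ := rfl
      rw [this, ht_inv, ht_x]; rfl
    · have : (FreeGroup.mk [((0 : Fin 2), true)] : F2) = xx := rfl
      rw [this, ht_x]; rfl
    · have : (FreeGroup.mk [((1 : Fin 2), false)] : F2) = tt⁻¹ := rfl
      rw [this, ht_inv, ht_t]; rfl
    · have : (FreeGroup.mk [((1 : Fin 2), true)] : F2) = tt := rfl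
      rw [this, ht_t]; rfl

theorem dnL_toWord (g : F2) : dnL g.toWord = ht g := by
  rw [← ht_mk, FreeGroup.mk_toWord]

theorem dnL_append (L M : List (Fin 2 × Bool)) : dnL (L ++ M) = dnL L + dnL M := by
  unfold dnL; rw [List.map_append, List.sum_append]

theorem dnL_cons (a : Fin 2 × Bool) (L : List (Fin 2 × Bool)) : dnL (a :: L) = dn a + dnL L := by
  unfold dnL; rw [List.map_cons, List.sum_cons]

/-- the cost of a word read from a given height -/
noncomputable def cc (s : ℤ) : ℤ → List (Fin 2 × Bool) → ℝ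
  | _, [] => 0
  | i, a :: L => (if a.1 = 0 then (4 : ℝ) ^ (s * i) else 0) + cc s (i + dn a) L

theorem cc_nonneg (s : ℤ) : ∀ (L : List (Fin 2 × Bool)) (i : ℤ), 0 ≤ cc s i L
  | [], _ => le_rfl
  | a :: L, i => by
    rw [cc]
    have := cc_nonneg s L (i + dn a)
    have h2 : (0 : ℝ) ≤ if a.1 = 0 then (4 : ℝ) ^ (s * i) else 0 := by
      split_ifs
      · positivity
      · exact le_rfl
    linarith

theorem cc_append (s : ℤ) : ∀ (L M : List (Fin 2 × Bool)) (i : ℤ),
    cc s i (L ++ M) = cc s i L + cc s (i + dnL L) M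
  | [], M, i => by
    show cc s i M = 0 + cc s (i + 0) M
    rw [add_zero, zero_add]
  | a :: L, M, i => by
    rw [List.cons_append, cc, cc, cc_append s L M, dnL_cons, add_assoc, add_assoc]

theorem cc_shift (s : ℤ) : ∀ (L : List (Fin 2 × Bool)) (i j : ℤ),
    cc s (i + j) L = (4 : ℝ) ^ (s * j) * cc s i L
  | [], i, j => by
    show (0 : ℝ) = _ * 0
    rw [mul_zero]
  | a :: L, i, j => by
    rw [cc, cc, show i + j + dn a = i + dn a + j by ring, cc_shift s L]
    split_ifs
    · rw [mul_add, mul_add, zpow_add₀ (by norm_num : (4 : ℝ) ≠ 0)]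
      ring
    · rw [zero_add, zero_add]

theorem dn_inv (a : Fin 2 × Bool) : dn (a.1, !a.2) = -dn a := by
  obtain ⟨i, b⟩ := a
  unfold dn
  by_cases h : i = 1
  · simp only [h]
    cases b <;> simp
  · simp [h]

theorem dnL_invRev (L : List (Fin 2 × Bool)) : dnL (FreeGroup.invRev L) = -dnL L := by
  rw [← ht_mk, ← ht_mk, ← FreeGroup.inv_mk, ht_inv]

theorem cc_invRev (s : ℤ) : ∀ (L : List (Fin 2 × Bool)) (i : ℤ),
    cc s i (FreeGroup.invRev L) = cc s (i - dnL L) L
  | [], i => rfl
  | a :: L, i => by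
    have e : FreeGroup.invRev (a :: L) = FreeGroup.invRev L ++ [(a.1, !a.2)] := by
      unfold FreeGroup.invRev
      rw [List.map_cons, List.reverse_cons]
    rw [e, cc_append, cc_invRev s L, dnL_invRev, dnL_cons, cc, cc, cc, add_zero, add_comm]
    congr 1
    · by_cases h : a.1 = 0
      · have : dn a = 0 := by
          unfold dn
          rw [h]
          rfl
        rw [if_pos h, if_pos h, this]
        congr 2
        ring
      · rw [if_neg h, if_neg h]
    · congr 1
      ring

theorem cc_step (s i : ℤ) {L M : List (Fin 2 × Bool)} (h : FreeGroup.Red.Step L M) :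
    cc s i M ≤ cc s i L := by
  cases h with
  | not =>
    rename_i L1 L2 x b
    rw [cc_append, cc_append]
    have h1 : cc s (i + dnL L1) ((x, b) :: (x, !b) :: L2) =
        (if x = 0 then (4 : ℝ) ^ (s * (i + dnL L1)) else 0) +
        ((if x = 0 then (4 : ℝ) ^ (s * (i + dnL L1 + dn (x, b))) else 0) +
        cc s (i + dnL L1 + dn (x, b) + dn (x, !b)) L2) := rfl
    have h2 : dn (x, !b) = -dn (x, b) := dn_inv (x, b)
    rw [h1, h2, add_neg_cancel_right]
    have h3 : (0 : ℝ) ≤ if x = 0 then (4 : ℝ) ^ (s * (i + dnL L1)) else 0 := by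
      split_ifs
      · positivity
      · exact le_rfl
    have h4 : (0 : ℝ) ≤ if x = 0 then (4 : ℝ) ^ (s * (i + dnL L1 + dn (x, b))) else 0 := by
      split_ifs
      · positivity
      · exact le_rfl
    linarith

theorem cc_red (s i : ℤ) {L M : List (Fin 2 × Bool)} (h : FreeGroup.Red L M) :
    cc s i M ≤ cc s i L := by
  induction h with
  | refl => exact le_rfl
  | tail _ h ih => exact (cc_step s i h).trans ih

/-- the weighted length -/
noncomputable def rho (s : ℤ) (g : F2) : ℝ := cc s 0 g.toWord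

theorem rho_nonneg (s : ℤ) (g : F2) : 0 ≤ rho s g := cc_nonneg s _ _

theorem rho_le_mk (s : ℤ) (L : List (Fin 2 × Bool)) : rho s (FreeGroup.mk L) ≤ cc s 0 L := by
  unfold rho
  rw [FreeGroup.toWord_mk]
  exact cc_red s 0 FreeGroup.reduce.red

theorem rho_mul (s : ℤ) (g h : F2) : rho s (g * h) ≤ rho s g + (4 : ℝ) ^ (s * ht g) * rho s h := by
  have h1 := rho_le_mk s (g.toWord ++ h.toWord)
  rw [← FreeGroup.mul_mk, FreeGroup.mk_toWord, FreeGroup.mk_toWord, cc_append, dnL_toWord,
    cc_shift] at h1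
  exact h1

theorem rho_inv (s : ℤ) (g : F2) : rho s g⁻¹ = (4 : ℝ) ^ (-(s * ht g)) * rho s g := by
  unfold rho
  rw [FreeGroup.toWord_inv, cc_invRev, dnL_toWord, sub_eq_add_neg, cc_shift]
  congr 2
  ring

theorem rho_one (s : ℤ) : rho s 1 = 0 := by
  unfold rho
  rw [FreeGroup.toWord_one]
  rfl

theorem rho_t (s : ℤ) : rho s tt = 0 := by
  apply le_antisymm ?_ (rho_nonneg s _)
  have := rho_le_mk s [((1 : Fin 2), true)]
  have e : cc s 0 [((1 : Fin 2), true)] = 0 := by simp [cc]
  rw [e] at this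
  exact this

theorem rho_t_inv (s : ℤ) : rho s tt⁻¹ = 0 := by rw [rho_inv, rho_t, mul_zero]

theorem rho_t_zpow (s : ℤ) (k : ℤ) : rho s (tt ^ k) = 0 := by
  apply le_antisymm ?_ (rho_nonneg s _)
  induction k using Int.induction_on with
  | zero => rw [zpow_zero, rho_one]
  | succ n ih =>
    rw [zpow_add_one]
    have := rho_mul s (tt ^ (n : ℤ)) tt
    rw [rho_t, mul_zero] at this
    linarith
  | pred n ih =>
    rw [zpow_sub_one]
    have := rho_mul s (tt ^ (-(n : ℤ))) tt⁻¹
    rw [rho_t_inv, mul_zero] at this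
    linarith

/-- the horizontal distance -/
noncomputable def D0 (s : ℤ) (g h : F2) : ℝ := (4 : ℝ) ^ (s * ht g) * rho s (g⁻¹ * h)

/-- the exponential of the height -/
noncomputable def HH (s : ℤ) (g : F2) : ℝ := (4 : ℝ) ^ (s * ht g)

theorem HH_pos (s : ℤ) (g : F2) : 0 < HH s g := by unfold HH; positivity

theorem D0_nonneg (s : ℤ) (g h : F2) : 0 ≤ D0 s g h :=
  mul_nonneg (by positivity) (rho_nonneg _ _)

theorem D0_self (s : ℤ) (g : F2) : D0 s g g = 0 := by
  unfold D0; rw [inv_mul_cancel, rho_one, mul_zero]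

theorem D0_symm (s : ℤ) (g h : F2) : D0 s g h = D0 s h g := by
  unfold D0
  have e : h⁻¹ * g = (g⁻¹ * h)⁻¹ := by group
  rw [e, rho_inv, ← mul_assoc, ← zpow_add₀ (by norm_num : (4 : ℝ) ≠ 0), ht_mul, ht_inv]
  congr 2
  ring

theorem D0_tri (s : ℤ) (g h k : F2) : D0 s g k ≤ D0 s g h + D0 s h k := by
  unfold D0
  have e : g⁻¹ * k = (g⁻¹ * h) * (h⁻¹ * k) := by group
  have h1 := rho_mul s (g⁻¹ * h) (h⁻¹ * k)
  rw [← e] at h1
  have h2 := mul_le_mul_of_nonneg_left h1 (show (0 : ℝ) ≤ (4 : ℝ) ^ (s * ht g) by positivity)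
  rw [mul_add, ← mul_assoc, ← zpow_add₀ (by norm_num : (4 : ℝ) ≠ 0), ht_mul, ht_inv] at h2
  have e2 : s * ht g + s * (-ht g + ht h) = s * ht h := by ring
  rw [e2] at h2
  exact h2

theorem D0_inv (s : ℤ) (k g h : F2) : D0 s (k * g) (k * h) = HH s k * D0 s g h := by
  unfold D0 HH
  have e : (k * g)⁻¹ * (k * h) = g⁻¹ * h := by group
  rw [e, ← mul_assoc, ← zpow_add₀ (by norm_num : (4 : ℝ) ≠ 0), ht_mul]
  congr 2
  ring

theorem HH_mul (s : ℤ) (k g : F2) : HH s (k * g) = HH s k * HH s g := by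
  unfold HH
  rw [← zpow_add₀ (by norm_num : (4 : ℝ) ≠ 0), ht_mul]
  congr 1
  ring

/-- the size function -/
noncomputable def ff (s : ℤ) (g h : F2) : ℝ := D0 s g h + max (HH s g) (HH s h)

theorem ff_pos (s : ℤ) (g h : F2) : 0 < ff s g h :=
  add_pos_of_nonneg_of_pos (D0_nonneg s g h) (lt_max_of_lt_left (HH_pos s g))

theorem ff_symm (s : ℤ) (g h : F2) : ff s g h = ff s h g := by
  unfold ff; rw [D0_symm, max_comm]

theorem ff_tri (s : ℤ) (g h k : F2) : ff s g k ≤ ff s g h + ff s h k := by
  unfold ff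
  have h1 := D0_tri s g h k
  have h2 : max (HH s g) (HH s k) ≤ max (HH s g) (HH s h) + max (HH s h) (HH s k) := by
    apply max_le
    · have := le_max_left (HH s g) (HH s h)
      have h3 := (HH_pos s h).le.trans (le_max_left (HH s h) (HH s k))
      linarith
    · have := le_max_right (HH s h) (HH s k)
      have h3 := (HH_pos s g).le.trans (le_max_left (HH s g) (HH s h))
      linarith
  linarith

theorem ff_inv (s : ℤ) (k g h : F2) : ff s (k * g) (k * h) = HH s k * ff s g h := by
  unfold ff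
  rw [D0_inv, HH_mul, HH_mul, mul_add, mul_max_of_nonneg _ _ (HH_pos s k).le]

theorem ff_mul (s : ℤ) (x y z : F2) : ff s x z * HH s y ≤ ff s x y * ff s y z := by
  have h1 := D0_tri s x y z
  have a0 := D0_nonneg s x y
  have b0 := D0_nonneg s y z
  have hx := HH_pos s x
  have hy := HH_pos s y
  have hz := HH_pos s z
  unfold ff
  have h2 : max (HH s x) (HH s z) * HH s y ≤ max (HH s x) (HH s y) * max (HH s y) (HH s z) := by
    rcases max_cases (HH s x) (HH s z) with h | h
    · rw [h.1]
      exact mul_le_mul (le_max_left _ _) (le_max_left _ _) hy.le (hx.le.trans (le_max_left _ _))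
    · rw [h.1, mul_comm]
      exact mul_le_mul (le_max_right _ _) (le_max_right _ _) hz.le
        (hx.le.trans (le_max_left _ _))
  have h3 : D0 s x y * HH s y ≤ D0 s x y * max (HH s y) (HH s z) :=
    mul_le_mul_of_nonneg_left (le_max_left _ _) a0
  have h4 : HH s y * D0 s y z ≤ max (HH s x) (HH s y) * D0 s y z :=
    mul_le_mul_of_nonneg_right (le_max_right _ _) b0
  have h5 : 0 ≤ D0 s x y * D0 s y z := mul_nonneg a0 b0
  have h6 := mul_le_mul_of_nonneg_right h1 hy.le
  nlinarith

theorem quad {a b c d e f : ℝ} (hc : 0 ≤ c) (hd : 0 ≤ d) (he : 0 ≤ e) (hf : 0 ≤ f)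
    (hb : 0 ≤ b)
    -- a = pq, b = rs, c = pr, d = qs, e = ps, f = qr
    (h1 : a ≤ c + f) (h2 : a ≤ e + d) (h3 : b ≤ c + e) (h4 : b ≤ f + d) :
    a * b ≤ 4 * max (c * d) (e * f) := by
  have key : ∀ u v w z : ℝ, 0 ≤ u → 0 ≤ w → u ≤ v → u ≤ z → a ≤ u + w → b ≤ u + z →
      u ≤ w → 0 ≤ z → a * b ≤ 4 * (z * w) := by
    intro u v w z hu hw _ huz ha hb' huw hz
    have e1 : a ≤ 2 * w := by linarith
    have e2 : b ≤ 2 * z := by linarith
    calc a * b ≤ (2 * w) * b := mul_le_mul_of_nonneg_right e1 hb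
      _ ≤ (2 * w) * (2 * z) := mul_le_mul_of_nonneg_left e2 (by linarith)
      _ = 4 * (z * w) := by ring
  have m1 := le_max_left (c * d) (e * f)
  have m2 := le_max_right (c * d) (e * f)
  -- the smallest of c, d, e, f
  rcases le_total c d with cd | cd <;> rcases le_total e f with ef | ef
  · rcases le_total c e with ce | ce
    · -- c smallest
      have := key c d f e hc hf cd ce h1 h3 (ce.trans ef) he
      linarith
    · -- e smallest
      have := key e f d c he hd ef ce (by linarith) (by linarith) (ce.trans cd) hc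
      linarith
  · rcases le_total c f with cf | cf
    · have := key c d f e hc hf cd (cf.trans ef) h1 h3 cf he
      linarith
    · -- f smallest
      have := key f e c d hf hc ef (cf.trans cd) (by linarith) (by linarith) cf hd
      linarith
  · rcases le_total d e with de | de
    · -- d smallest
      have := key d c e f hd he cd (de.trans ef) (by linarith) (by linarith) de hf
      linarith
    · have := key e f d c he hd ef (de.trans cd) (by linarith) (by linarith) de hc
      linarith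
  · rcases le_total d f with df | df
    · have := key d c e f hd he cd df (by linarith) (by linarith) (df.trans ef) hf
      linarith
    · have := key f e c d hf hc ef df (by linarith) (by linarith) (df.trans cd) hd
      linarith

/-- logarithm to the base four -/
noncomputable def lg (x : ℝ) : ℝ := Real.logb 4 x

theorem lg_mul {x y : ℝ} (hx : 0 < x) (hy : 0 < y) : lg (x * y) = lg x + lg y :=
  Real.logb_mul hx.ne' hy.ne'

theorem lg_le {x y : ℝ} (hx : 0 < x) (h : x ≤ y) : lg x ≤ lg y :=
  Real.logb_le_logb_of_le (by norm_num) hx h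

theorem lg_zpow (n : ℤ) : lg ((4 : ℝ) ^ n) = n := by
  unfold lg Real.logb
  rw [Real.log_zpow]
  have : Real.log 4 ≠ 0 := (Real.log_pos (by norm_num)).ne'
  field_simp

theorem lg_HH (s : ℤ) (g : F2) : lg (HH s g) = ((s * ht g : ℤ) : ℝ) := lg_zpow _

theorem lg_four : lg 4 = 1 := Real.logb_self_eq_one (by norm_num)

theorem lg_two : lg 2 = 1 / 2 := by
  have h : lg (2 * 2) = lg 2 + lg 2 := lg_mul (by norm_num) (by norm_num)
  norm_num at h
  rw [lg_four] at h
  linarith

/-- the metric of the cone -/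
noncomputable def dd (s : ℤ) (g h : F2) : ℝ := 2 * lg (ff s g h) - lg (HH s g) - lg (HH s h)

theorem dd_self (s : ℤ) (g : F2) : dd s g g = 0 := by
  unfold dd ff
  rw [D0_self, max_self, zero_add]
  ring

theorem dd_symm (s : ℤ) (g h : F2) : dd s g h = dd s h g := by
  unfold dd
  rw [ff_symm]
  ring

theorem dd_tri (s : ℤ) (x y z : F2) : dd s x z ≤ dd s x y + dd s y z := by
  unfold dd
  have h := lg_le (mul_pos (ff_pos s x z) (HH_pos s y)) (ff_mul s x y z)
  rw [lg_mul (ff_pos _ _ _) (HH_pos _ _), lg_mul (ff_pos _ _ _) (ff_pos _ _ _)] at h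
  linarith

theorem dd_inv (s : ℤ) (k g h : F2) : dd s (k * g) (k * h) = dd s g h := by
  unfold dd
  rw [ff_inv, HH_mul, HH_mul, lg_mul (HH_pos _ _) (ff_pos _ _ _), lg_mul (HH_pos _ _) (HH_pos _ _),
    lg_mul (HH_pos _ _) (HH_pos _ _)]
  ring

theorem dd_four (s : ℤ) (x y z w : F2) : dd s x y + dd s z w ≤
    max (dd s x z + dd s y w) (dd s x w + dd s y z) + 2 := by
  have h := quad (ff_pos s x z).le (ff_pos s y w).le (ff_pos s x w).le (ff_pos s y z).le
    (ff_pos s z w).le (a := ff s x y)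
    (by have := ff_tri s x z y; rwa [ff_symm s z y] at this)
    (by have := ff_tri s x w y; rwa [ff_symm s w y] at this)
    (by have := ff_tri s z x w; rwa [ff_symm s z x] at this)
    (by have := ff_tri s z y w; rwa [ff_symm s z y] at this)
  have h1 := lg_le (mul_pos (ff_pos s x y) (ff_pos s z w)) h
  rw [lg_mul (ff_pos _ _ _) (ff_pos _ _ _)] at h1
  rcases max_cases (ff s x z * ff s y w) (ff s x w * ff s y z) with hm | hm
  · rw [hm.1, lg_mul (by norm_num) (mul_pos (ff_pos _ _ _) (ff_pos _ _ _)),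
      lg_mul (ff_pos _ _ _) (ff_pos _ _ _), lg_four] at h1
    have h2 := le_max_left (dd s x z + dd s y w) (dd s x w + dd s y z)
    unfold dd at h2 ⊢
    linarith
  · rw [hm.1, lg_mul (by norm_num) (mul_pos (ff_pos _ _ _) (ff_pos _ _ _)),
      lg_mul (ff_pos _ _ _) (ff_pos _ _ _), lg_four] at h1
    have h2 := le_max_right (dd s x z + dd s y w) (dd s x w + dd s y z)
    unfold dd at h2 ⊢
    linarith

/-- the pseudometric space -/
noncomputable def PP (s : ℤ) : PM F2 where
  d := dd s
  self := dd_self s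
  symm := dd_symm s
  tri := dd_tri s
  pt := 1

end Pool.Agent.V1127.Ph
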