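import Mathlib

/-!
Characters close to a character with finitely generated kernel have finitely generated kernels.
-/

set_option autoImplicit false

namespace Pool.Agent.V1127.Vf

variable {H : Type} [Group H]

/-- integer valued characters -/
def IsCh (φ : H → ℤ) : Prop := ∀ x y, φ (x * y) = φ x + φ y

theorem IsCh.one {φ : H → ℤ} (h : IsCh φ) : φ 1 = 0 := by
  have := h 1 1
  rw [mul_one] at this
  omega

theorem IsCh.inv {φ : H → ℤ} (h : IsCh φ) (x : H) : φ x⁻¹ = -φ x := by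
  have := h x x⁻¹
  rw [mul_inv_cancel, h.one] at this
  omega

theorem IsCh.npow {φ : H → ℤ} (h : IsCh φ) (x : H) (n : ℕ) : φ (x ^ n) = n * φ x := by
  induction n with
  | zero => rw [pow_zero, h.one]; simp
  | succ n ih => rw [pow_succ, h, ih]; push_cast; ring

theorem IsCh.zpow {φ : H → ℤ} (h : IsCh φ) (x : H) (n : ℤ) : φ (x ^ n) = n * φ x := by
  cases n with
  | ofNat n => exact h.npow x n
  | negSucc n =>
    rw [zpow_negSucc, h.inv, h.npow, Int.negSucc_eq]
    push_cast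
    ring

theorem IsCh.conj {φ : H → ℤ} (h : IsCh φ) (g x : H) : φ (g * x * g⁻¹) = φ x := by
  rw [h, h, h.inv]; ring

/-- the kernel -/
def kerC {φ : H → ℤ} (h : IsCh φ) : Subgroup H where
  carrier := {x | φ x = 0}
  mul_mem' := by
    intro a b ha hb
    show φ (a * b) = 0
    rw [h, show φ a = 0 from ha, show φ b = 0 from hb, add_zero]
  one_mem' := h.one
  inv_mem' := by
    intro a ha
    show φ a⁻¹ = 0
    rw [h.inv, show φ a = 0 from ha, neg_zero]

theorem mem_kerC {φ : H → ℤ} (h : IsCh φ) (x : H) : x ∈ kerC h ↔ φ x = 0 := Iff.rfl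

theorem IsCh.comb {φ ψ : H → ℤ} (hφ : IsCh φ) (hψ : IsCh ψ) (M : ℤ) :
    IsCh fun x => M * φ x + ψ x := by
  intro x y
  show M * φ (x * y) + ψ (x * y) = _
  rw [hφ, hψ]; ring

theorem IsCh.neg {φ : H → ℤ} (hφ : IsCh φ) : IsCh fun x => -φ x := by
  intro x y
  show -φ (x * y) = _
  rw [hφ]; ring

section strip

variable (X : Set H) (χ : H → ℤ)

/-- steps inside a strip -/
def Stp (lo hi : ℤ) (g h : H) : Prop :=
  (∃ x ∈ X, h = g * x) ∧ lo ≤ χ g ∧ χ g ≤ hi ∧ lo ≤ χ h ∧ χ h ≤ hi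

/-- reachability inside a strip -/
def Rch (lo hi : ℤ) (g h : H) : Prop := Relation.ReflTransGen (Stp X χ lo hi) g h

variable {X χ}

theorem Rch.mono {lo hi lo' hi' : ℤ} {g h : H} (hr : Rch X χ lo hi g h) (h1 : lo' ≤ lo)
    (h2 : hi ≤ hi') : Rch X χ lo' hi' g h := by
  refine Relation.ReflTransGen.mono ?_ hr
  rintro a b ⟨hx, a1, a2, a3, a4⟩
  exact ⟨hx, by omega, by omega, by omega, by omega⟩

theorem Rch.negate {lo hi : ℤ} {g h : H} (hr : Rch X χ lo hi g h) :
    Rch X (fun x => -χ x) (-hi) (-lo) g h := by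
  refine Relation.ReflTransGen.mono ?_ hr
  rintro a b ⟨hx, a1, a2, a3, a4⟩
  exact ⟨hx, by omega, by omega, by omega, by omega⟩

theorem walk {lo hi : ℤ} : ∀ (l : List H), (∀ y ∈ l, y ∈ X) → ∀ u : H,
    (∀ j, lo ≤ χ (u * (l.take j).prod) ∧ χ (u * (l.take j).prod) ≤ hi) →
    Rch X χ lo hi u (u * l.prod)
  | [], _, u, _ => by
    rw [List.prod_nil, mul_one]
    exact Relation.ReflTransGen.refl
  | y :: l, hl, u, hb => by
    have h0 := hb 0
    have h1 := hb 1
    simp only [List.take_zero, List.prod_nil, mul_one, List.take_succ_cons, List.prod_cons] at h0 h1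
    have ih := walk l (fun z hz => hl z (List.mem_cons_of_mem _ hz)) (u * y) (fun j => by
      have := hb (j + 1)
      rw [List.take_succ_cons, List.prod_cons, ← mul_assoc] at this
      exact this)
    rw [List.prod_cons, ← mul_assoc]
    refine Relation.ReflTransGen.head ?_ ih
    exact ⟨⟨y, hl y List.mem_cons_self, rfl⟩, h0.1, h0.2, h1.1, h1.2⟩

/-- the conditions for pushing -/
structure Push (X : Set H) (χ : H → ℤ) (t : H) (D : ℤ) : Prop where
  ch : IsCh χ
  inv : ∀ x ∈ X, x⁻¹ ∈ X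
  mem : t ∈ X
  bd : ∀ x ∈ X, |χ x| ≤ χ t
  nn : 0 ≤ D
  lt : D < χ t
  wd : ∀ x ∈ X, x = t ∨ x = t⁻¹ ∨ ∃ l : List H, (∀ y ∈ l, y ∈ X) ∧ t⁻¹ * x * t = l.prod ∧
    ∀ j, |χ (l.take j).prod| ≤ D

theorem Push.step {t : H} {D : ℤ} (P : Push X χ t D) {lo hi : ℤ} (hlo : lo + 1 ≤ -χ t)
    (hhi : χ t + D ≤ hi) {g h : H} (hg : 0 ≤ χ g) (hr : Rch X χ lo hi g h) :
    (0 ≤ χ h → Rch X χ (lo + 1) hi g h) ∧ (χ h < 0 → Rch X χ (lo + 1) hi g (h * t)) := by
  have hD := P.nn
  have hDt := P.lt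
  induction hr with
  | refl => exact ⟨fun _ => Relation.ReflTransGen.refl, fun h => by omega⟩
  | @tail h h' _ hs ih =>
    obtain ⟨⟨x, hx, rfl⟩, b1, b2, b3, b4⟩ := hs
    have hb := P.bd x hx
    rw [abs_le] at hb
    have e1 : χ (h * x) = χ h + χ x := P.ch h x
    have e2 : χ (h * t) = χ h + χ t := P.ch h t
    have e3 : χ (h * x * t) = χ h + χ x + χ t := by rw [P.ch, e1]
    constructor
    · intro hh
      rcases le_or_gt 0 (χ h) with h0 | h0
      · refine Relation.ReflTransGen.tail (ih.1 h0) ⟨⟨x, hx, rfl⟩, by omega, b2, by omega, b4⟩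
      · have r1 := ih.2 h0
        have r2 : Stp X χ (lo + 1) hi (h * t) h :=
          ⟨⟨t⁻¹, P.inv t P.mem, by rw [mul_inv_cancel_right]⟩, by omega, by omega, by omega,
            by omega⟩
        have r3 : Stp X χ (lo + 1) hi h (h * x) :=
          ⟨⟨x, hx, rfl⟩, by omega, by omega, by omega, by omega⟩
        exact (r1.tail r2).tail r3
    · intro hh
      rcases le_or_gt 0 (χ h) with h0 | h0
      · have r1 := ih.1 h0
        have r2 : Stp X χ (lo + 1) hi h (h * x) :=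
          ⟨⟨x, hx, rfl⟩, by omega, by omega, by omega, by omega⟩
        have r3 : Stp X χ (lo + 1) hi (h * x) (h * x * t) :=
          ⟨⟨t, P.mem, rfl⟩, by omega, by omega, by omega, by omega⟩
        exact (r1.tail r2).tail r3
      · have r1 := ih.2 h0
        rcases P.wd x hx with rfl | rfl | ⟨l, hl, hprod, hpre⟩
        · refine r1.tail ⟨⟨x, P.mem, rfl⟩, by omega, by omega, by omega, by omega⟩
        · have e4 : χ t⁻¹ = -χ t := P.ch.inv t
          refine r1.tail ⟨⟨t⁻¹, hx, ?_⟩, by omega, by omega, by omega, by omega⟩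
          rw [inv_mul_cancel_right, mul_inv_cancel_right]
        · have e : h * x * t = h * t * l.prod := by
            rw [← hprod]; group
          rw [e]
          refine Relation.ReflTransGen.trans r1 (walk l hl (h * t) fun j => ?_)
          have h5 := hpre j
          rw [abs_le] at h5
          rw [P.ch, e2]
          constructor <;> omega

theorem Push.up {t : H} {D : ℤ} (P : Push X χ t D) {hi : ℤ} (hhi : χ t + D ≤ hi) {g h : H}
    (hg : 0 ≤ χ g) (hh : 0 ≤ χ h) : ∀ n : ℕ, Rch X χ (-χ t - n) hi g h → Rch X χ (-χ t) hi g h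
  | 0, hr => by simpa using hr
  | n + 1, hr => by
    apply Push.up P hhi hg hh n
    have := (P.step (lo := -χ t - (n + 1 : ℕ)) (by push_cast; omega) hhi hg hr).1 hh
    push_cast at this
    have e : -χ t - (n + 1) + 1 = -χ t - (n : ℤ) := by ring
    rwa [e] at this

theorem Push.up' {t : H} {D : ℤ} (P : Push X χ t D) {lo hi : ℤ} (hhi : χ t + D ≤ hi) {g h : H}
    (hg : 0 ≤ χ g) (hh : 0 ≤ χ h) (hr : Rch X χ lo hi g h) : Rch X χ (-χ t) hi g h := by
  apply P.up hhi hg hh (-χ t - lo).toNat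
  apply hr.mono _ le_rfl
  have := Int.self_le_toNat (-χ t - lo)
  omega

theorem strip_conn {t : H} {D : ℤ} (P : Push X χ t D) (Q : Push X (fun x => -χ x) t⁻¹ D)
    {g h : H} (hg : χ g = 0) (hh : χ h = 0) {lo hi : ℤ} (hr : Rch X χ lo hi g h) :
    Rch X χ (-χ t) (χ t + D) g h := by
  have ht : -χ t⁻¹ = χ t := by rw [P.ch.inv]; ring
  have h1 := (hr.mono (min_le_left lo (-(χ t + D))) le_rfl).negate
  have h2 := Q.up' (lo := -hi) (hi := -(min lo (-(χ t + D)))) (by
    show -χ t⁻¹ + D ≤ _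
    rw [ht]
    have := min_le_right lo (-(χ t + D))
    omega) (by show 0 ≤ -χ g; omega) (by show 0 ≤ -χ h; omega) h1
  have h3 := h2.negate
  have h4 : Rch X χ (min lo (-(χ t + D))) (χ t) g h := by
    have e : (fun x : H => - -χ x) = χ := by funext x; ring
    have h5 : Rch X (fun x : H => - -χ x) (- -(min lo (-(χ t + D)))) (-(-(-χ t⁻¹))) g h := h3
    rw [e] at h5
    apply h5.mono
    · omega
    · rw [neg_neg, ht]
  have h5 := P.nn
  exact P.up' le_rfl (by omega) (by omega) (h4.mono le_rfl (by omega))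

end strip

theorem ker_fg {X : Set H} (hX : X.Finite) (hgen : Subgroup.closure X = ⊤) {χ : H → ℤ}
    (hχ : IsCh χ) {t : H} {D : ℤ} (P : Push X χ t D) (Q : Push X (fun x => -χ x) t⁻¹ D) :
    (kerC hχ).FG := by
  classical
  have hsym := P.inv
  -- every element is reachable
  have reach : ∀ g : H, ∃ B : ℕ, Rch X χ (-B) B 1 g := by
    intro g
    have hg : g ∈ Subgroup.closure X := by rw [hgen]; trivial
    induction hg using Subgroup.closure_induction_right with
    | one => exact ⟨0, Relation.ReflTransGen.refl⟩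
    | mul_right a ha x hx ih =>
      obtain ⟨B, hB⟩ := ih
      refine ⟨B + (χ a).natAbs + (χ x).natAbs, ?_⟩
      refine Relation.ReflTransGen.tail (hB.mono (by push_cast; omega) (by push_cast; omega))
        ⟨⟨x, hx, rfl⟩, ?_⟩
      rw [hχ]
      push_cast
      have h1 := abs_le.1 (le_refl |χ a|)
      have h2 := abs_le.1 (le_refl |χ x|)
      omega
    | mul_inv_cancel a ha x hx ih =>
      obtain ⟨B, hB⟩ := ih
      refine ⟨B + (χ a).natAbs + (χ x).natAbs, ?_⟩
      refine Relation.ReflTransGen.tail (hB.mono (by push_cast; omega) (by push_cast; omega))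
        ⟨⟨x⁻¹, hsym x hx, rfl⟩, ?_⟩
      rw [hχ, hχ.inv]
      push_cast
      have h1 := abs_le.1 (le_refl |χ a|)
      have h2 := abs_le.1 (le_refl |χ x|)
      omega
  -- representatives of the levels
  let r : ℤ → H := fun ℓ => if ℓ = 0 then 1 else if h : ∃ x, χ x = ℓ then h.choose else 1
  have hr0 : r 0 = 1 := if_pos rfl
  have hr : ∀ x : H, χ (r (χ x)) = χ x := by
    intro x
    by_cases h0 : χ x = 0
    · rw [h0, hr0, hχ.one]
    · have h : ∃ y, χ y = χ x := ⟨x, rfl⟩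
      have e : r (χ x) = h.choose := by
        show (if χ x = 0 then 1 else if h : ∃ y, χ y = χ x then h.choose else 1) = _
        rw [if_neg h0, dif_pos h]
      rw [e]
      exact h.choose_spec
  set lo := -χ t
  set hi := χ t + D
  let Z : Set H := {z | ∃ ℓ ∈ Set.Icc lo hi, ∃ x ∈ X, z = r ℓ * x * (r (ℓ + χ x))⁻¹} ∩ kerC hχ
  have hZ : Z.Finite := by
    have h1 := ((Set.finite_Icc lo hi).prod hX).image
      fun q : ℤ × H => r q.1 * q.2 * (r (q.1 + χ q.2))⁻¹
    apply h1.subset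
    rintro z ⟨⟨ℓ, hℓ, x, hx, rfl⟩, _⟩
    exact ⟨(ℓ, x), ⟨hℓ, hx⟩, rfl⟩
  have key : ∀ h, Rch X χ lo hi 1 h → h * (r (χ h))⁻¹ ∈ Subgroup.closure Z := by
    intro h hreach
    induction hreach with
    | refl =>
      rw [hχ.one, hr0, inv_one, mul_one]
      exact one_mem _
    | @tail h h' _ hs ih =>
      obtain ⟨⟨x, hx, rfl⟩, b1, b2, b3, b4⟩ := hs
      have e : h * x * (r (χ (h * x)))⁻¹ =
          (h * (r (χ h))⁻¹) * (r (χ h) * x * (r (χ (h * x)))⁻¹) := by group
      rw [e]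
      apply mul_mem ih
      apply Subgroup.subset_closure
      refine ⟨⟨χ h, ⟨b1, b2⟩, x, hx, by rw [hχ h x]⟩, ?_⟩
      show χ _ = 0
      rw [hχ, hχ, hχ.inv, hr, hr, hχ h x]
      ring
  refine ⟨hZ.toFinset, ?_⟩
  rw [Set.Finite.coe_toFinset]
  apply le_antisymm
  · rw [Subgroup.closure_le]
    exact fun z hz => hz.2
  · intro g hg
    obtain ⟨B, hB⟩ := reach g
    have h1 := strip_conn P Q hχ.one hg hB
    have h2 := key g h1
    have h3 : χ g = 0 := hg
    rwa [h3, hr0, inv_one, mul_one] at h2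

/-- openness -/
theorem open_fg {φ ψ : H → ℤ} (hφ : IsCh φ) (hψ : IsCh ψ) (hfg : (kerC hφ).FG)
    (hne : ∃ x, φ x ≠ 0) : ∃ M0 : ℤ, ∀ M ≥ M0, (kerC (hφ.comb hψ M)).FG := by
  classical
  -- the generator of the image
  have ht : ∃ t, 0 < φ t ∧ ∀ x, φ t ∣ φ x := by
    have hex : ∃ n : ℕ, 0 < n ∧ ∃ x, φ x = n := by
      obtain ⟨x, hx⟩ := hne
      rcases lt_or_gt_of_ne hx with h | h
      · refine ⟨(φ x⁻¹).toNat, ?_, x⁻¹, ?_⟩
        · rw [hφ.inv]; omega
        · rw [hφ.inv]; omega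
      · exact ⟨(φ x).toNat, by omega, x, by omega⟩
    obtain ⟨h1, t, h2⟩ := Nat.find_spec hex
    refine ⟨t, by rw [h2]; exact_mod_cast h1, fun x => ?_⟩
    by_contra hd
    have h3 : φ x % φ t ≠ 0 := fun h => hd (Int.dvd_of_emod_eq_zero h)
    have h4 : 0 ≤ φ x % φ t := Int.emod_nonneg _ (by omega)
    have h5 : φ x % φ t < φ t := Int.emod_lt_of_pos _ (by omega)
    have h6 : φ (x * t ^ (-(φ x / φ t))) = φ x % φ t := by
      rw [hφ, hφ.zpow]
      have := Int.emod_add_mul_ediv (φ x) (φ t)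
      linarith
    apply Nat.find_min hex (m := (φ x % φ t).toNat)
    · omega
    · exact ⟨by omega, _, by rw [h6]; omega⟩
  obtain ⟨t, ht0, htd⟩ := ht
  obtain ⟨S, hS⟩ := hfg
  let X : Set H := ((S : Set H) ∪ (fun x => x⁻¹) '' (S : Set H)) ∪ {t, t⁻¹}
  have hSk : ∀ x ∈ (S : Set H) ∪ (fun x => x⁻¹) '' (S : Set H), φ x = 0 := by
    have h0 : ∀ x ∈ S, φ x = 0 := by
      intro x hx
      have : x ∈ kerC hφ := by rw [← hS]; exact Subgroup.subset_closure hx
      exact this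
    rintro x (hx | ⟨y, hy, rfl⟩)
    · exact h0 x hx
    · show φ y⁻¹ = 0
      rw [hφ.inv, h0 y hy, neg_zero]
  have hXfin : X.Finite := ((S.finite_toSet.union (S.finite_toSet.image _))).union
    (Set.toFinite _)
  have hgen : Subgroup.closure X = ⊤ := by
    rw [eq_top_iff]
    intro x _
    obtain ⟨q, hq⟩ := htd x
    have h1 : x * (t ^ q)⁻¹ ∈ kerC hφ := by
      show φ _ = 0
      rw [hφ, hφ.inv, hφ.zpow, hq]; ring
    rw [← hS] at h1
    have h2 : Subgroup.closure (S : Set H) ≤ Subgroup.closure X :=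
      Subgroup.closure_mono fun y hy => Or.inl (Or.inl hy)
    have h3 : t ∈ Subgroup.closure X := Subgroup.subset_closure (Or.inr (by simp))
    have h4 := mul_mem (h2 h1) (zpow_mem h3 q)
    rwa [inv_mul_cancel_right] at h4
  have hinv : ∀ x ∈ X, x⁻¹ ∈ X := by
    rintro x ((hx | ⟨y, hy, rfl⟩) | hx)
    · exact Or.inl (Or.inr ⟨x, hx, rfl⟩)
    · left; left
      show y⁻¹⁻¹ ∈ _
      rw [inv_inv]; exact hy
    · right
      rcases hx with rfl | hx
      · simp
      · rw [Set.mem_singleton_iff] at hx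
        subst hx
        simp
  have htX : t ∈ X := Or.inr (by simp)
  -- words
  have hword : ∀ y : H, φ y = 0 → ∃ l : List H,
      (∀ z ∈ l, z ∈ (S : Set H) ∪ (fun x => x⁻¹) '' (S : Set H)) ∧ l.prod = y := by
    intro y hy
    have h1 : y ∈ Subgroup.closure (S : Set H) := by rw [hS]; exact hy
    obtain ⟨l, h2, h3⟩ := Subgroup.exists_list_of_mem_closure h1
    refine ⟨l, fun z hz => ?_, h3⟩
    rcases h2 z hz with h | h
    · exact Or.inl h
    · exact Or.inr ⟨z⁻¹, h, inv_inv z⟩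
  have hbound : ∀ l : List H, ∃ D : ℕ, ∀ j, |ψ (l.take j).prod| ≤ D := by
    intro l
    obtain ⟨D, hD⟩ := ((Set.finite_Iic l.length).image fun j => (ψ (l.take j).prod).natAbs).bddAbove
    refine ⟨D, fun j => ?_⟩
    have h1 : l.take j = l.take (min j l.length) := by
      rcases le_total j l.length with h | h
      · rw [min_eq_left h]
      · rw [min_eq_right h, List.take_of_length_le h, List.take_length]
    have h2 : (ψ (l.take (min j l.length)).prod).natAbs ≤ D :=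
      hD ⟨min j l.length, min_le_right _ _, rfl⟩
    rw [← h1] at h2
    omega
  have hpt : ∀ x ∈ X, ∃ D : ℕ, (x = t ∨ x = t⁻¹ ∨ ((∃ l : List H,
      (∀ z ∈ l, z ∈ (S : Set H) ∪ (fun x => x⁻¹) '' (S : Set H)) ∧ t⁻¹ * x * t = l.prod ∧
      ∀ j, |ψ (l.take j).prod| ≤ D) ∧ (∃ l : List H,
      (∀ z ∈ l, z ∈ (S : Set H) ∪ (fun x => x⁻¹) '' (S : Set H)) ∧ t * x * t⁻¹ = l.prod ∧
      ∀ j, |ψ (l.take j).prod| ≤ D) ∧ |ψ x| ≤ D ∧ φ x = 0)) := by
    rintro x (hx | hx)
    · have hx0 := hSk x hx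
      obtain ⟨l, hl, hl'⟩ := hword (t⁻¹ * x * t) (by rw [hφ, hφ, hφ.inv, hx0]; ring)
      obtain ⟨l2, hl2, hl2'⟩ := hword (t * x * t⁻¹) (by rw [hφ, hφ, hφ.inv, hx0]; ring)
      obtain ⟨D1, hD1⟩ := hbound l
      obtain ⟨D2, hD2⟩ := hbound l2
      refine ⟨D1 + D2 + (ψ x).natAbs, Or.inr (Or.inr ⟨⟨l, hl, hl'.symm, fun j => ?_⟩,
        ⟨l2, hl2, hl2'.symm, fun j => ?_⟩, ?_, hx0⟩)⟩
      · have := hD1 j; push_cast; omega
      · have := hD2 j; push_cast; omega
      · push_cast; omega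
    · rcases hx with rfl | hx
      · exact ⟨0, Or.inl rfl⟩
      · rw [Set.mem_singleton_iff] at hx
        exact ⟨0, Or.inr (Or.inl hx)⟩
  choose! Df hDf using hpt
  obtain ⟨D, hD⟩ := (hXfin.image Df).bddAbove
  refine ⟨D + |ψ t| + 1, fun M hM => ?_⟩
  have hMt : (D : ℤ) < M * φ t + ψ t := by
    have h1 := neg_abs_le (ψ t)
    have h2 : 0 ≤ |ψ t| := abs_nonneg _
    nlinarith
  have hpre : ∀ l : List H, (∀ z ∈ l, z ∈ (S : Set H) ∪ (fun x => x⁻¹) '' (S : Set H)) →
      ∀ j, φ (l.take j).prod = 0 := by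
    intro l hl j
    have h1 : ∀ z ∈ l.take j, z ∈ kerC hφ := fun z hz => hSk z (hl z (List.mem_of_mem_take hz))
    exact Subgroup.list_prod_mem _ h1
  have hbd : ∀ x ∈ X, |M * φ x + ψ x| ≤ M * φ t + ψ t := by
    intro x hx
    have hDx : Df x ≤ D := hD ⟨x, hx, rfl⟩
    rcases hDf x hx with rfl | rfl | ⟨_, _, h3, h4⟩
    · rw [abs_of_nonneg (by omega)]
    · rw [hφ.inv, hψ.inv, abs_of_nonpos (by linarith)]
      linarith
    · rw [h4, mul_zero, zero_add]
      have : ((Df x : ℕ) : ℤ) ≤ D := by exact_mod_cast hDx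
      linarith
  have P : Push X (fun x => M * φ x + ψ x) t D := by
    refine ⟨hφ.comb hψ M, hinv, htX, hbd, by positivity, hMt, fun x hx => ?_⟩
    have hDx : ((Df x : ℕ) : ℤ) ≤ D := by exact_mod_cast (hD ⟨x, hx, rfl⟩ : Df x ≤ D)
    rcases hDf x hx with h | h | ⟨⟨l, h1, h2, h3⟩, _, _, _⟩
    · exact Or.inl h
    · exact Or.inr (Or.inl h)
    · refine Or.inr (Or.inr ⟨l, fun y hy => Or.inl (h1 y hy), h2, fun j => ?_⟩)
      show |M * φ (l.take j).prod + ψ (l.take j).prod| ≤ D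
      rw [hpre l h1 j, mul_zero, zero_add]
      exact (h3 j).trans hDx
  have Q : Push X (fun x => -(M * φ x + ψ x)) t⁻¹ D := by
    have e : -(M * φ t⁻¹ + ψ t⁻¹) = M * φ t + ψ t := by rw [hφ.inv, hψ.inv]; ring
    refine ⟨(hφ.comb hψ M).neg, hinv, hinv t htX, ?_, by positivity, ?_, fun x hx => ?_⟩
    · intro x hx
      show |-(M * φ x + ψ x)| ≤ -(M * φ t⁻¹ + ψ t⁻¹)
      rw [abs_neg, e]
      exact hbd x hx
    · show (D : ℤ) < -(M * φ t⁻¹ + ψ t⁻¹)
      rw [e]; exact hMt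
    · have hDx : ((Df x : ℕ) : ℤ) ≤ D := by exact_mod_cast (hD ⟨x, hx, rfl⟩ : Df x ≤ D)
      rcases hDf x hx with h | h | ⟨_, ⟨l, h1, h2, h3⟩, _, _⟩
      · exact Or.inr (Or.inl (by rw [h, inv_inv]))
      · exact Or.inl h
      · refine Or.inr (Or.inr ⟨l, fun y hy => Or.inl (h1 y hy), by rw [inv_inv]; exact h2,
          fun j => ?_⟩)
        show |-(M * φ (l.take j).prod + ψ (l.take j).prod)| ≤ D
        rw [hpre l h1 j, mul_zero, zero_add, abs_neg]
        exact (h3 j).trans hDx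
  exact ker_fg hXfin hgen (hφ.comb hψ M) P Q

end Pool.Agent.V1127.Vf
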